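import Pool.Agent.H58.MK.Prelim

/-!
# The balance between the large powers of small primes and the large primes
-/

set_option autoImplicit false

namespace Pool.Agent.H58.MK

open Finset

lemma rep_real {p : ℕ} (hp : 2 ≤ p) (e : ℕ) : ((p : ℝ) - 1) * rep p e + 1 = (p : ℝ) ^ e := by
  have h := rep_mul (by omega : 1 ≤ p) e
  have h2 := congrArg (fun x : ℕ => (x : ℝ)) h
  simp only [Nat.cast_add, Nat.cast_mul, Nat.cast_one, Nat.cast_pow] at h2
  rw [Nat.cast_sub (by omega : 1 ≤ p), Nat.cast_one] at h2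
  exact h2

/-- The ratio `σ(p^e) / p^e`. -/
noncomputable def fr (p e : ℕ) : ℝ := (rep p (e + 1) : ℝ) / (p : ℝ) ^ e

lemma fr_eq {p : ℕ} (hp : 2 ≤ p) (e : ℕ) :
    fr p e = (p : ℝ) / ((p : ℝ) - 1) * (1 - 1 / (p : ℝ) ^ (e + 1)) := by
  have h := rep_real hp (e + 1)
  have hp' : (2 : ℝ) ≤ p := by exact_mod_cast hp
  have h0 : (p : ℝ) - 1 ≠ 0 := by linarith
  have h1 : (p : ℝ) ≠ 0 := by linarith
  have e1 : (p : ℝ) / ((p : ℝ) - 1) * (1 - 1 / (p : ℝ) ^ (e + 1)) =
      ((p : ℝ) ^ (e + 1) - 1) / (((p : ℝ) - 1) * (p : ℝ) ^ e) := by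
    rw [pow_succ]
    field_simp
  have e2 : (p : ℝ) ^ (e + 1) - 1 = ((p : ℝ) - 1) * rep p (e + 1) := by linarith
  rw [e1, e2, mul_div_mul_left _ _ h0, fr]

lemma fr_ge {p e : ℕ} (hp : 2 ≤ p) (he : 1 ≤ e) : 1 + 1 / (p : ℝ) ≤ fr p e := by
  obtain ⟨e', rfl⟩ := Nat.exists_eq_add_of_le' he
  have hp0 : (0 : ℝ) < p := by
    have : 0 < p := by omega
    exact_mod_cast this
  rw [fr, rep_succ, rep_succ]
  push_cast
  rw [le_div_iff₀ (by positivity), add_mul, one_mul]
  have h1 : 1 / (p : ℝ) * (p : ℝ) ^ (e' + 1) = (p : ℝ) ^ e' := by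
    rw [pow_succ]
    field_simp
  rw [h1]
  have : (0 : ℝ) ≤ (rep p e' : ℝ) := Nat.cast_nonneg _
  linarith

lemma fr_pos {p : ℕ} (hp : 2 ≤ p) (e : ℕ) : 0 < fr p e := by
  have hp0 : (0 : ℝ) < p := by
    have : 0 < p := by omega
    exact_mod_cast this
  rw [fr]
  have : 0 < rep p (e + 1) := lt_of_lt_of_le (Nat.pow_pos (by omega)) (pow_le_rep p e)
  have : (0 : ℝ) < rep p (e + 1) := by exact_mod_cast this
  positivity

lemma fr_one_le {p : ℕ} (hp : 2 ≤ p) (e : ℕ) : 1 ≤ fr p e := by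
  have hp0 : (0 : ℝ) < p := by
    have : 0 < p := by omega
    exact_mod_cast this
  rw [fr, le_div_iff₀ (by positivity), one_mul]
  exact_mod_cast pow_le_rep p e

lemma fr_inv {p : ℕ} (hp : 2 ≤ p) (e : ℕ) : 1 - 1 / (p : ℝ) ≤ (fr p e)⁻¹ := by
  have h := rep_real hp (e + 1)
  have hp' : (2 : ℝ) ≤ p := by exact_mod_cast hp
  have h2 : 0 < rep p (e + 1) := lt_of_lt_of_le (Nat.pow_pos (by omega)) (pow_le_rep p e)
  have h3 : (0 : ℝ) < rep p (e + 1) := by exact_mod_cast h2
  rw [fr, inv_div, le_div_iff₀ h3]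
  have h4 : (1 - 1 / (p : ℝ)) * rep p (e + 1) = (((p : ℝ) - 1) * rep p (e + 1)) / p := by
    field_simp
  rw [h4, div_le_iff₀ (by linarith), ← pow_succ]
  linarith

lemma fr_le_two {p : ℕ} (hp : 2 ≤ p) (e : ℕ) : fr p e ≤ 2 := by
  have hp0 : (0 : ℝ) < p := by
    have : 0 < p := by omega
    exact_mod_cast this
  rw [fr, div_le_iff₀ (by positivity)]
  exact_mod_cast rep_le_two hp e

lemma pow_card_le {ι : Type*} (S : Finset ι) (f : ι → ℕ) (B : ℕ) (h : ∀ i ∈ S, f i ≤ B) :
    ∏ i ∈ S, f i ≤ B ^ S.card := by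
  calc ∏ i ∈ S, f i ≤ ∏ _i ∈ S, B := Finset.prod_le_prod' h
    _ = B ^ S.card := by rw [prod_const]

/-- If there are no prime powers and no primes of intermediate size, then the large powers of small
primes and the large primes balance. -/
theorem balance {ι : Type*} [DecidableEq ι] (I : Finset ι) (p e : ι → ℕ)
    (hp : ∀ i ∈ I, 2 ≤ p i) (he : ∀ i ∈ I, 1 ≤ e i) (k M T W : ℕ) (hI : I.card ≤ M)
    (hT : 1 ≤ T) (hW : M * (2 * T) ^ M < W)
    (hid : ∏ i ∈ I, rep (p i) (e i + 1) = k * ∏ i ∈ I, p i ^ e i)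
    (h1 : ∀ i ∈ I, p i ^ e i ≤ T ∨ W < p i ^ e i)
    (h2 : ∀ i ∈ I, p i ≤ T ∨ W < p i) :
    k ≤ 2 ^ M ∧
    (∏ i ∈ I.filter (fun i => T < p i ^ e i ∧ p i ≤ T), (1 - 1 / (p i : ℝ) ^ (e i + 1))) *
      ∏ i ∈ I.filter (fun i => T < p i), fr (p i) (e i) = 1 := by
  set S0 := I.filter (fun i => p i ^ e i ≤ T) with hS0
  set S1 := I.filter (fun i => T < p i ^ e i ∧ p i ≤ T) with hS1
  set S2 := I.filter (fun i => T < p i) with hS2
  have hpow : ∀ i ∈ I, p i ≤ p i ^ e i := fun i hi =>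
    Nat.le_self_pow (by have := he i hi; omega) _
  have hW0 : 0 < W := lt_of_le_of_lt (Nat.zero_le _) hW
  have hWr : (0 : ℝ) < W := by exact_mod_cast hW0
  -- the product of the ratios
  have hprod : ∏ i ∈ I, fr (p i) (e i) = k := by
    have e1 : ∏ i ∈ I, fr (p i) (e i) =
        (∏ i ∈ I, (rep (p i) (e i + 1) : ℝ)) / ∏ i ∈ I, (p i : ℝ) ^ e i := by
      rw [← prod_div_distrib]
      rfl
    have e2 : (∏ i ∈ I, (rep (p i) (e i + 1) : ℝ)) = k * ∏ i ∈ I, (p i : ℝ) ^ e i := by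
      have := congrArg (fun x : ℕ => (x : ℝ)) hid
      push_cast at this
      exact this
    have e3 : (∏ i ∈ I, (p i : ℝ) ^ e i) ≠ 0 := by
      rw [prod_ne_zero_iff]
      intro i hi
      have : 0 < p i := by have := hp i hi; omega
      positivity
    rw [e1, e2, mul_div_assoc, div_self e3, mul_one]
  have hk2 : k ≤ 2 ^ M := by
    have e1 : (k : ℝ) ≤ 2 ^ I.card := by
      rw [← hprod]
      calc ∏ i ∈ I, fr (p i) (e i) ≤ ∏ _i ∈ I, (2 : ℝ) :=
            Finset.prod_le_prod (fun i hi => (fr_pos (hp i hi) _).le)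
              (fun i hi => fr_le_two (hp i hi) _)
        _ = 2 ^ I.card := by rw [prod_const]
    have e2 : k ≤ 2 ^ I.card := by exact_mod_cast e1
    exact e2.trans (Nat.pow_le_pow_right (by norm_num) hI)
  refine ⟨hk2, ?_⟩
  -- partition
  have hunion : I = S0 ∪ (S1 ∪ S2) := by
    ext i
    simp only [hS0, hS1, hS2, mem_union, mem_filter]
    constructor
    · intro hi
      by_cases hc : p i ^ e i ≤ T
      · exact Or.inl ⟨hi, hc⟩
      · by_cases hc2 : p i ≤ T
        · exact Or.inr (Or.inl ⟨hi, by omega, hc2⟩)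
        · exact Or.inr (Or.inr ⟨hi, by omega⟩)
    · rintro (h | h | h)
      · exact h.1
      · exact h.1
      · exact h.1
  have hd12 : Disjoint S1 S2 := by
    rw [Finset.disjoint_left]
    intro i hi hi2
    rw [hS1, mem_filter] at hi
    rw [hS2, mem_filter] at hi2
    omega
  have hd0 : Disjoint S0 (S1 ∪ S2) := by
    rw [Finset.disjoint_left]
    intro i hi hi2
    rw [hS0, mem_filter] at hi
    rw [mem_union, hS1, hS2, mem_filter, mem_filter] at hi2
    have := hpow i hi.1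
    rcases hi2 with h | h
    · omega
    · omega
  have hsplit : (k : ℝ) = (∏ i ∈ S0, fr (p i) (e i)) * ((∏ i ∈ S1, fr (p i) (e i)) *
      ∏ i ∈ S2, fr (p i) (e i)) := by
    rw [← hprod]
    conv_lhs => rw [hunion]
    rw [prod_union hd0, prod_union hd12]
  have hcard : S0.card + S1.card ≤ M := by
    have h3 : (S0 ∪ (S1 ∪ S2)).card = I.card := by rw [← hunion]
    rw [card_union_of_disjoint hd0, card_union_of_disjoint hd12] at h3
    omega
  have hS0I : ∀ i ∈ S0, i ∈ I := fun i hi => (mem_filter.1 hi).1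
  have hS1I : ∀ i ∈ S1, i ∈ I := fun i hi => (mem_filter.1 hi).1
  have hS2I : ∀ i ∈ S2, i ∈ I := fun i hi => (mem_filter.1 hi).1
  obtain ⟨X, hX⟩ : ∃ X : ℝ, X = ∏ i ∈ S1, (1 - 1 / (p i : ℝ) ^ (e i + 1)) := ⟨_, rfl⟩
  obtain ⟨Y, hY⟩ : ∃ Y : ℝ, Y = ∏ i ∈ S2, fr (p i) (e i) := ⟨_, rfl⟩
  obtain ⟨A, hA⟩ : ∃ A : ℕ, A = (∏ i ∈ S0, rep (p i) (e i + 1)) * ∏ i ∈ S1, p i := ⟨_, rfl⟩
  obtain ⟨B, hB⟩ : ∃ B : ℕ, B = k * (∏ i ∈ S0, p i ^ e i) * ∏ i ∈ S1, (p i - 1) := ⟨_, rfl⟩
  rw [← hX, ← hY]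
  -- the basic identity
  have hAB : (A : ℝ) * X * Y = B := by
    have f0 : ∏ i ∈ S0, fr (p i) (e i) =
        (∏ i ∈ S0, (rep (p i) (e i + 1) : ℝ)) / ∏ i ∈ S0, (p i : ℝ) ^ e i := by
      rw [← prod_div_distrib]
      rfl
    have f1 : ∏ i ∈ S1, fr (p i) (e i) =
        (∏ i ∈ S1, (p i : ℝ)) / (∏ i ∈ S1, ((p i : ℝ) - 1)) * X := by
      rw [hX, ← prod_div_distrib, ← prod_mul_distrib]
      exact prod_congr rfl fun i hi => fr_eq (hp i (hS1I i hi)) _
    have n0 : (∏ i ∈ S0, (p i : ℝ) ^ e i) ≠ 0 := by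
      rw [prod_ne_zero_iff]
      intro i hi
      have : 0 < p i := by have := hp i (hS0I i hi); omega
      positivity
    have n1 : (∏ i ∈ S1, ((p i : ℝ) - 1)) ≠ 0 := by
      rw [prod_ne_zero_iff]
      intro i hi
      have h3 : (2 : ℝ) ≤ p i := by exact_mod_cast hp i (hS1I i hi)
      linarith
    have cA : (A : ℝ) = (∏ i ∈ S0, (rep (p i) (e i + 1) : ℝ)) * ∏ i ∈ S1, (p i : ℝ) := by
      rw [hA]
      push_cast
      rfl
    have cB : (B : ℝ) = k * (∏ i ∈ S0, (p i : ℝ) ^ e i) * ∏ i ∈ S1, ((p i : ℝ) - 1) := by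
      rw [hB]
      push_cast
      congr 1
      refine prod_congr rfl fun i hi => ?_
      rw [Nat.cast_sub (by have := hp i (hS1I i hi); omega), Nat.cast_one]
    rw [← hY, f0, f1] at hsplit
    rw [cA, cB, hsplit]
    field_simp
  -- bounds for the integers
  have hQ1 : 1 ≤ 2 * T := by omega
  have hA1 : 0 < A := by
    rw [hA]
    refine Nat.mul_pos (Finset.prod_pos fun i hi => ?_) (Finset.prod_pos fun i hi => ?_)
    · have := hp i (hS0I i hi)
      exact lt_of_lt_of_le (Nat.pow_pos (by omega)) (pow_le_rep _ _)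
    · have := hp i (hS1I i hi)
      omega
  have hAle : A ≤ (2 * T) ^ M := by
    rw [hA]
    calc (∏ i ∈ S0, rep (p i) (e i + 1)) * ∏ i ∈ S1, p i ≤
          (2 * T) ^ S0.card * (2 * T) ^ S1.card := by
          refine Nat.mul_le_mul (pow_card_le _ _ _ fun i hi => ?_)
            (pow_card_le _ _ _ fun i hi => ?_)
          · have h3 := rep_le_two (hp i (hS0I i hi)) (e i)
            have h4 := (mem_filter.1 hi).2
            omega
          · have h4 := (mem_filter.1 hi).2.2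
            omega
      _ = (2 * T) ^ (S0.card + S1.card) := by rw [pow_add]
      _ ≤ (2 * T) ^ M := Nat.pow_le_pow_right hQ1 hcard
  have hBle : B ≤ (2 * T) ^ M := by
    rw [hB]
    calc k * (∏ i ∈ S0, p i ^ e i) * ∏ i ∈ S1, (p i - 1) ≤
          2 ^ M * T ^ S0.card * T ^ S1.card := by
          refine Nat.mul_le_mul (Nat.mul_le_mul hk2 (pow_card_le _ _ _ fun i hi => ?_))
            (pow_card_le _ _ _ fun i hi => ?_)
          · exact (mem_filter.1 hi).2
          · have h4 := (mem_filter.1 hi).2.2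
            omega
      _ = 2 ^ M * T ^ (S0.card + S1.card) := by rw [pow_add, mul_assoc]
      _ ≤ 2 ^ M * T ^ M := Nat.mul_le_mul_left _ (Nat.pow_le_pow_right hT hcard)
      _ = (2 * T) ^ M := by rw [mul_pow]
  -- bounds for the real factors
  have hsmall : ∀ Z : ℕ, Z ≤ (2 * T) ^ M → (Z : ℝ) * ((M : ℝ) / W) < 1 := by
    intro Z hZ
    have h3 : Z * M < W := by
      refine lt_of_le_of_lt ?_ hW
      rw [mul_comm]
      exact Nat.mul_le_mul_left _ hZ
    have h4 : (Z : ℝ) * M < W := by exact_mod_cast h3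
    rw [← mul_div_assoc, div_lt_one hWr]
    exact h4
  have hX1 : 1 - (M : ℝ) / W ≤ X := by
    have h3 := one_sub_sum_le S1 (fun i => 1 / (p i : ℝ) ^ (e i + 1))
      (fun i hi => by
        have : 0 < p i := by have := hp i (hS1I i hi); omega
        positivity)
      (fun i hi => by
        have h4 : (1 : ℝ) ≤ p i := by
          have : 1 ≤ p i := by have := hp i (hS1I i hi); omega
          exact_mod_cast this
        rw [div_le_one (by positivity)]
        exact one_le_pow₀ h4)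
    rw [← hX] at h3
    have h5 : ∑ i ∈ S1, 1 / (p i : ℝ) ^ (e i + 1) ≤ (M : ℝ) / W := by
      calc ∑ i ∈ S1, 1 / (p i : ℝ) ^ (e i + 1) ≤ ∑ _i ∈ S1, 1 / (W : ℝ) := by
            refine Finset.sum_le_sum fun i hi => ?_
            refine one_div_le_one_div_of_le hWr ?_
            have h6 := (mem_filter.1 hi).2
            have h7 : W < p i ^ e i := (h1 i (hS1I i hi)).resolve_left (by omega)
            have h8 : p i ^ e i ≤ p i ^ (e i + 1) :=
              Nat.pow_le_pow_right (by have := hp i (hS1I i hi); omega) (by omega)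
            exact_mod_cast (h7.le.trans h8)
        _ = S1.card * (1 / (W : ℝ)) := by rw [sum_const, nsmul_eq_mul]
        _ ≤ M * (1 / (W : ℝ)) := by
            refine mul_le_mul_of_nonneg_right ?_ (by positivity)
            have : S1.card ≤ M := by omega
            exact_mod_cast this
        _ = (M : ℝ) / W := by ring
    linarith
  have hXle : X ≤ 1 := by
    rw [hX]
    refine Finset.prod_le_one (fun i hi => ?_) (fun i hi => ?_)
    · have h4 : (1 : ℝ) ≤ p i := by
        have : 1 ≤ p i := by have := hp i (hS1I i hi); omega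
        exact_mod_cast this
      rw [sub_nonneg, div_le_one (by positivity)]
      exact one_le_pow₀ h4
    · have : (0 : ℝ) ≤ 1 / (p i : ℝ) ^ (e i + 1) := by positivity
      linarith
  have hY1 : 1 ≤ Y := by
    rw [hY]
    calc (1 : ℝ) = ∏ _i ∈ S2, (1 : ℝ) := by rw [prod_const_one]
      _ ≤ _ := Finset.prod_le_prod (fun i hi => zero_le_one)
          (fun i hi => fr_one_le (hp i (hS2I i hi)) _)
  have hY2 : 1 - (M : ℝ) / W ≤ Y⁻¹ := by
    have h3 := one_sub_sum_le S2 (fun i => 1 / (p i : ℝ))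
      (fun i hi => by positivity)
      (fun i hi => by
        have h4 : (1 : ℝ) ≤ p i := by
          have : 1 ≤ p i := by have := hp i (hS2I i hi); omega
          exact_mod_cast this
        rw [div_le_one (by positivity)]
        exact h4)
    have h5 : ∑ i ∈ S2, 1 / (p i : ℝ) ≤ (M : ℝ) / W := by
      calc ∑ i ∈ S2, 1 / (p i : ℝ) ≤ ∑ _i ∈ S2, 1 / (W : ℝ) := by
            refine Finset.sum_le_sum fun i hi => ?_
            refine one_div_le_one_div_of_le hWr ?_
            have h6 := (mem_filter.1 hi).2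
            have h7 : W < p i := (h2 i (hS2I i hi)).resolve_left (by omega)
            exact_mod_cast h7.le
        _ = S2.card * (1 / (W : ℝ)) := by rw [sum_const, nsmul_eq_mul]
        _ ≤ M * (1 / (W : ℝ)) := by
            refine mul_le_mul_of_nonneg_right ?_ (by positivity)
            have : S2.card ≤ M := (Finset.card_le_card (Finset.filter_subset _ _)).trans hI
            exact_mod_cast this
        _ = (M : ℝ) / W := by ring
    have h6 : ∏ i ∈ S2, (1 - 1 / (p i : ℝ)) ≤ Y⁻¹ := by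
      rw [hY, ← Finset.prod_inv_distrib]
      refine Finset.prod_le_prod (fun i hi => ?_) (fun i hi => fr_inv (hp i (hS2I i hi)) _)
      have h4 : (1 : ℝ) ≤ p i := by
        have : 1 ≤ p i := by have := hp i (hS2I i hi); omega
        exact_mod_cast this
      rw [sub_nonneg, div_le_one (by positivity)]
      exact h4
    linarith
  have hY0 : 0 < Y := by linarith
  have hA0 : (0 : ℝ) < A := by exact_mod_cast hA1
  have hX0 : 0 ≤ X := by
    rw [hX]
    refine Finset.prod_nonneg fun i hi => ?_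
    have h4 : (1 : ℝ) ≤ p i := by
      have : 1 ≤ p i := by have := hp i (hS1I i hi); omega
      exact_mod_cast this
    rw [sub_nonneg, div_le_one (by positivity)]
    exact one_le_pow₀ h4
  have hBA : A ≤ B := by
    have h3 : (A : ℝ) * (1 - (M : ℝ) / W) ≤ B := by
      rw [← hAB]
      calc (A : ℝ) * (1 - (M : ℝ) / W) ≤ A * X := mul_le_mul_of_nonneg_left hX1 hA0.le
        _ = A * X * 1 := by rw [mul_one]
        _ ≤ A * X * Y := mul_le_mul_of_nonneg_left hY1 (mul_nonneg hA0.le hX0)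
    have h4 := hsmall A hAle
    have h5 : (A : ℝ) < B + 1 := by
      have : (A : ℝ) * (1 - (M : ℝ) / W) = A - A * ((M : ℝ) / W) := by ring
      linarith
    have h6 : A < B + 1 := by exact_mod_cast h5
    omega
  have hAB2 : B ≤ A := by
    have h7 : (B : ℝ) * Y⁻¹ = A * X := by
      rw [← hAB, mul_assoc, mul_inv_cancel₀ hY0.ne', mul_one]
    have h3 : (B : ℝ) * (1 - (M : ℝ) / W) ≤ A := by
      calc (B : ℝ) * (1 - (M : ℝ) / W) ≤ B * Y⁻¹ :=
            mul_le_mul_of_nonneg_left hY2 (Nat.cast_nonneg _)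
        _ = A * X := h7
        _ ≤ A * 1 := mul_le_mul_of_nonneg_left hXle hA0.le
        _ = A := mul_one _
    have h4 := hsmall B hBle
    have h5 : (B : ℝ) < A + 1 := by
      have : (B : ℝ) * (1 - (M : ℝ) / W) = B - B * ((M : ℝ) / W) := by ring
      linarith
    have h6 : B < A + 1 := by exact_mod_cast h5
    omega
  have hEq : (A : ℝ) = B := by
    have := le_antisymm hBA hAB2
    exact_mod_cast this
  rw [← hEq, mul_assoc] at hAB
  have h8 : (A : ℝ) * (X * Y) = A * 1 := by rw [hAB, mul_one]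
  exact mul_left_cancel₀ hA0.ne' h8

end Pool.Agent.H58.MK
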