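import Pool.Agent.H58.MK.Fin

/-!
# Classification of the `(m,k)`-perfect numbers with a bounded number of prime factors
-/

set_option autoImplicit false

namespace Pool.Agent.H58.MK

open Finset

/-- The odd part. -/
def od (x : ℕ) : ℕ := x / 2 ^ x.factorization 2

/-- The part of the iterate number `j` of `2 ^ a * w` or `2 ^ a * P * w` that remains bounded. -/
def Wv (m w : ℕ) : ℕ → ℕ
  | 0 => w
  | j + 1 => if Even m ∧ Even j then ArithmeticFunction.sigma 1 (Wv m w j)
      else od (ArithmeticFunction.sigma 1 (Wv m w j))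

/-- The differences of the Mersenne exponents. -/
def Dv (m w : ℕ) : ℕ → ℕ
  | 0 => 0
  | t + 1 => Dv m w t + 1 +
      (ArithmeticFunction.sigma 1 (Wv m w (nx m (lam m t)))).factorization 2

/-- The families of `(m,k)`-perfect numbers. -/
def Fam (m w l n : ℕ) : Prop :=
  (∀ t < rr m, (2 ^ (l + Dv m w t) - 1).Prime) ∧
    n = 2 ^ (l - 1) * (if Even m then 1 else 2 ^ (l + Dv m w ((m - 1) / 2)) - 1) * w

lemma od_eq (x : ℕ) : 2 ^ x.factorization 2 * od x = x := Nat.ordProj_mul_ordCompl_eq_self x 2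

lemma od_odd {x : ℕ} (hx : x ≠ 0) : Odd (od x) := by
  rw [← Nat.not_even_iff_odd, even_iff_two_dvd]
  exact Nat.not_dvd_ordCompl Nat.prime_two hx

lemma fact_two {v u : ℕ} (hu : Odd u) : (2 ^ v * u).factorization 2 = v := by
  rw [Nat.factorization_mul (by positivity) hu.pos.ne', Finsupp.add_apply,
    Nat.Prime.factorization_pow Nat.prime_two, Finsupp.single_eq_same,
    Nat.factorization_eq_zero_of_not_dvd (fun h => ?_), add_zero]
  rw [← even_iff_two_dvd] at h
  exact (Nat.not_even_iff_odd.2 hu) h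

lemma sig_even {v U : ℕ} (hU : Odd U) : ArithmeticFunction.sigma 1 (2 ^ v * U) =
    rep 2 (v + 1) * ArithmeticFunction.sigma 1 U := by
  rw [ArithmeticFunction.isMultiplicative_sigma.map_mul_of_coprime
    (Nat.Coprime.pow_left _ hU.coprime_two_left), sigma_two_pow]

lemma sig_prime {P U : ℕ} (hP : P.Prime) (hPU : ¬ P ∣ U) :
    ArithmeticFunction.sigma 1 (P * U) = (P + 1) * ArithmeticFunction.sigma 1 U := by
  rw [ArithmeticFunction.isMultiplicative_sigma.map_mul_of_coprime
    ((Nat.Prime.coprime_iff_not_dvd hP).2 hPU), sigma_prime hP]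

lemma sig_odd {v P U : ℕ} (hP : P.Prime) (hP2 : Odd P) (hU : Odd U) (hPU : ¬ P ∣ U) :
    ArithmeticFunction.sigma 1 (2 ^ v * (P * U)) =
      rep 2 (v + 1) * ((P + 1) * ArithmeticFunction.sigma 1 U) := by
  rw [sig_even (hP2.mul hU), sig_prime hP hPU]

lemma Wv_zero (m w : ℕ) : Wv m w 0 = w := rfl

lemma Wv_odd {m w : ℕ} (hm : Odd m) (j : ℕ) :
    Wv m w (j + 1) = od (ArithmeticFunction.sigma 1 (Wv m w j)) := by
  rw [Wv, if_neg]
  rintro ⟨h, _⟩
  exact (Nat.not_even_iff_odd.2 hm) h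

lemma Wv_even1 {m w j : ℕ} (hm : Even m) (hj : Even j) :
    Wv m w (j + 1) = ArithmeticFunction.sigma 1 (Wv m w j) := by
  rw [Wv, if_pos ⟨hm, hj⟩]

lemma Wv_even2 {m w j : ℕ} (hj : Odd j) :
    Wv m w (j + 1) = od (ArithmeticFunction.sigma 1 (Wv m w j)) := by
  rw [Wv, if_neg]
  rintro ⟨_, h⟩
  exact (Nat.not_even_iff_odd.2 hj) h

lemma rep_two_odd (v : ℕ) : Odd (rep 2 (v + 1)) := by
  rw [rep_succ']
  exact ⟨rep 2 v, rfl⟩

/-- The previous index modulo `m`. -/
def pv (m j : ℕ) : ℕ := if j = 0 then m - 1 else j - 1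

lemma nx_pv {m j : ℕ} (hj : j < m) : nx m (pv m j) = j := by
  rcases Nat.eq_zero_or_pos j with h | h
  · have e : pv m j = m - 1 := by
      unfold pv
      rw [if_pos h]
    rw [e]
    unfold nx
    split_ifs <;> omega
  · have e : pv m j = j - 1 := by
      unfold pv
      rw [if_neg (by omega)]
    rw [e]
    unfold nx
    split_ifs <;> omega

lemma pv_lt {m j : ℕ} (hj : j < m) : pv m j < m := by
  unfold pv
  split_ifs <;> omega

lemma pv_nx {m j : ℕ} (hj : j < m) : pv m (nx m j) = j := by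
  by_cases h : j + 1 < m
  · have e : nx m j = j + 1 := by
      unfold nx
      rw [if_pos h]
    rw [e]
    unfold pv
    rw [if_neg (by omega)]
    omega
  · have e : nx m j = 0 := by
      unfold nx
      rw [if_neg h]
    rw [e]
    unfold pv
    rw [if_pos rfl]
    omega

lemma pv_succ (m j : ℕ) : pv m (j + 1) = j := by
  unfold pv
  rw [if_neg (by omega)]
  omega

lemma not_dvd_of_fact {P x u c : ℕ} (hP : P.Prime) (hx : x ≠ 0) (h1 : x.factorization P = 1)
    (h2 : x = c * (P * u)) : ¬ P ∣ u := by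
  intro h
  have h4 : P ^ 2 ∣ x := by
    rw [h2, pow_two]
    exact (mul_dvd_mul_left P h).mul_left c
  have h5 := (hP.pow_dvd_iff_le_factorization hx).1 h4
  omega

lemma all_large {m K n T k b : ℕ} (hm : 1 ≤ m) (hmo : Odd m) (S : Str m K n T k b)
    (hb : 2 * T ≤ b) {j : ℕ} (hj : j < m) : T < 2 ^ av n j := by
  obtain ⟨v, hv⟩ := hmo
  have hrr : rr m = m := by
    have := rr_cases m
    omega
  rcases Nat.even_or_odd j with ⟨u, hu⟩ | ⟨u, hu⟩
  · have h1 := (chain hm S hb u (by omega)).2.1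
    have h2 : lam m u = j := by
      unfold lam
      split_ifs <;> omega
    rwa [h2] at h1
  · have h1 := (chain hm S hb (u + v + 1) (by omega)).2.1
    have h2 : lam m (u + v + 1) = j := by
      unfold lam
      split_ifs <;> omega
    rwa [h2] at h1

theorem fwd_odd {m K n T k b : ℕ} (hm : 1 ≤ m) (hmo : Odd m) (S : Str m K n T k b)
    (hb : 2 * T ≤ b) : ∃ w : ℕ, w ≤ T ^ K ∧ Odd w ∧ w ∣ Wv m w m ∧
      Fam m w (av n 0 + 1) n := by
  obtain ⟨w, h1, h2, h3, h4, h5, h6⟩ := odd_form hm hmo S hb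
  obtain ⟨c, hc⟩ : ∃ c : ℕ → ℕ, c = fun j => (ArithmeticFunction.sigma 1 (Wv m w j)).factorization 2 :=
    ⟨_, rfl⟩
  have hne : ¬ Even m := Nat.not_even_iff_odd.2 hmo
  -- the step
  have step : ∀ j < m, it j n = 2 ^ av n j * (rep 2 (av n (pv m j) + 1) * Wv m w j) →
      Odd (Wv m w j) → it (j + 1) n = 2 ^ (av n (pv m j) + 1 + c j) *
        (rep 2 (av n j + 1) * Wv m w (j + 1)) ∧ Odd (Wv m w (j + 1)) := by
    intro j hj e1 e2
    have hl := all_large hm hmo S hb (pv_lt hj)
    obtain ⟨g1, g2, g3⟩ := S.h2 _ (pv_lt hj) hl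
    rw [nx_pv hj] at g3
    have hnd := not_dvd_of_fact g2 (it_pos S.hn j).ne' g3 e1
    have e3 : it (j + 1) n = rep 2 (av n j + 1) * ((rep 2 (av n (pv m j) + 1) + 1) *
        ArithmeticFunction.sigma 1 (Wv m w j)) := by
      rw [it_succ]
      conv_lhs => rw [e1]
      exact sig_odd g2 (rep_two_odd _) e2 hnd
    have hs0 : ArithmeticFunction.sigma 1 (Wv m w j) ≠ 0 := (sigma_pos' e2.pos).ne'
    have e4 := od_eq (ArithmeticFunction.sigma 1 (Wv m w j))
    rw [Wv_odd hmo]
    refine ⟨?_, od_odd hs0⟩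
    have hcj : c j = (ArithmeticFunction.sigma 1 (Wv m w j)).factorization 2 := by rw [hc]
    rw [hcj, e3, rep_two_add, pow_add 2 (av n (pv m j) + 1)]
    conv_lhs => rw [← e4]
    ring
  have claim : ∀ j : ℕ, j < m → it j n = 2 ^ av n j * (rep 2 (av n (pv m j) + 1) * Wv m w j) ∧
      Odd (Wv m w j) := by
    intro j
    induction j with
    | zero =>
      intro _
      refine ⟨?_, h2⟩
      have : pv m 0 = m - 1 := rfl
      rw [this, Wv_zero]
      exact h1
    | succ j ih =>
      intro hj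
      obtain ⟨i1, i2⟩ := ih (by omega)
      obtain ⟨s1, s2⟩ := step j (by omega) i1 i2
      have e1 : av n (j + 1) = av n (pv m j) + 1 + c j := by
        rw [av, s1]
        exact fact_two ((rep_two_odd _).mul s2)
      rw [e1, pv_succ]
      exact ⟨s1, s2⟩
  have hav : ∀ j : ℕ, j + 1 < m → av n (j + 1) = av n (pv m j) + 1 + c j := by
    intro j hj
    obtain ⟨i1, i2⟩ := claim j (by omega)
    obtain ⟨s1, s2⟩ := step j (by omega) i1 i2
    rw [av, s1]
    exact fact_two ((rep_two_odd _).mul s2)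
  have hrr : rr m = m := by
    have := rr_cases m
    obtain ⟨u, hu⟩ := hmo
    omega
  have hch : ∀ t : ℕ, t < rr m → av n (lam m t) = av n 0 + Dv m w t := by
    intro t
    induction t with
    | zero =>
      intro _
      have e0 : lam m 0 = 0 := by
        unfold lam
        split_ifs <;> omega
      rw [e0]
      rfl
    | succ t ih =>
      intro ht
      obtain ⟨s1, s2⟩ := lam_succ ht
      have hlt := (chain hm S hb t (by omega)).1
      have e1 := hav (nx m (lam m t)) (by omega)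
      rw [pv_nx hlt, ih (by omega)] at e1
      rw [s1, e1, hc]
      show _ = av n 0 + (Dv m w t + 1 + _)
      ring
  have hlast : lam m ((m - 1) / 2) = m - 1 := by
    obtain ⟨u, hu⟩ := hmo
    unfold lam
    split_ifs <;> omega
  have hfin : av n (m - 1) = av n 0 + Dv m w ((m - 1) / 2) := by
    rw [← hlast]
    rw [hch _ (by omega)]
    rw [hlast]
  refine ⟨w, h3, h2, ?_, ?_, ?_⟩
  · obtain ⟨i1, i2⟩ := claim (m - 1) (by omega)
    obtain ⟨s1, s2⟩ := step (m - 1) (by omega) i1 i2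
    have e1 : m - 1 + 1 = m := by omega
    rw [e1, S.hk] at s1
    rw [e1] at s2
    have e2 : rep 2 (av n (m - 1) + 1) * (k * 2 ^ av n 0 * w) = rep 2 (av n (m - 1) + 1) *
        (2 ^ (av n (pv m (m - 1)) + 1 + c (m - 1)) * Wv m w m) := by
      calc rep 2 (av n (m - 1) + 1) * (k * 2 ^ av n 0 * w) =
            k * (2 ^ av n 0 * (rep 2 (av n (m - 1) + 1) * w)) := by ring
        _ = k * n := by rw [← h1]
        _ = _ := by rw [s1]; ring
    have e3 := Nat.eq_of_mul_eq_mul_left h4.pos e2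
    have e4 : w ∣ 2 ^ (av n (pv m (m - 1)) + 1 + c (m - 1)) * Wv m w m := by
      rw [← e3]
      exact dvd_mul_left _ _
    exact (Nat.Coprime.pow_right _ h2.coprime_two_right).dvd_of_dvd_mul_left e4
  · intro t ht
    obtain ⟨c1, c2, _⟩ := chain hm S hb t ht
    have e1 := (S.h2 _ c1 c2).2.1
    rw [hch t ht] at e1
    have e2 : av n 0 + 1 + Dv m w t = av n 0 + Dv m w t + 1 := by ring
    rw [e2]
    exact (mers_iff _).1 e1
  · rw [if_neg hne, Nat.add_sub_cancel]
    have e2 : av n 0 + 1 + Dv m w ((m - 1) / 2) = av n (m - 1) + 1 := by omega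
    have e3 : 2 ^ (av n (m - 1) + 1) - 1 = rep 2 (av n (m - 1) + 1) := by
      have := rep_two_add (av n (m - 1) + 1)
      omega
    rw [e2, e3, mul_assoc]
    exact h1

theorem fwd_even {m K n T k b : ℕ} (hm : 1 ≤ m) (hme : Even m) (S : Str m K n T k b)
    (hb : 2 * T ≤ b) : ∃ w : ℕ, w ≤ T ^ K ∧ Odd w ∧ w ∣ Wv m w m ∧
      Fam m w (av n 0 + 1) n := by
  obtain ⟨w, h1, h2, h3, _⟩ := even_form hm hme S hb
  obtain ⟨r, hr⟩ := hme
  have hrr : rr m = r := by
    have := rr_cases m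
    omega
  have hme : Even m := ⟨r, hr⟩
  obtain ⟨c, hc⟩ : ∃ c : ℕ → ℕ, c = fun j => (ArithmeticFunction.sigma 1 (Wv m w j)).factorization 2 :=
    ⟨_, rfl⟩
  have hlam : ∀ u : ℕ, u < r → lam m u = 2 * u := by
    intro u hu
    unfold lam
    split_ifs <;> omega
  -- the step
  have step : ∀ u < r, it (2 * u) n = 2 ^ av n (2 * u) * Wv m w (2 * u) →
      Odd (Wv m w (2 * u)) → it (2 * u + 2) n = 2 ^ (av n (2 * u) + 1 + c (2 * u + 1)) *
        Wv m w (2 * u + 2) ∧ Odd (Wv m w (2 * u + 2)) := by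
    intro u hu e1 e2
    have hl := (chain hm S hb u (by omega)).2.1
    rw [hlam u hu] at hl
    obtain ⟨g1, g2, g3⟩ := S.h2 (2 * u) (by omega) hl
    have hnx : nx m (2 * u) = 2 * u + 1 := by
      unfold nx
      split_ifs <;> omega
    rw [hnx] at g3
    have e3 : it (2 * u + 1) n = rep 2 (av n (2 * u) + 1) * Wv m w (2 * u + 1) := by
      rw [it_succ]
      conv_lhs => rw [e1]
      rw [sig_even e2, Wv_even1 hme (even_two_mul u)]
    have hnd := not_dvd_of_fact (c := 1) g2 (it_pos S.hn _).ne' g3 (by rw [e3, one_mul])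
    have hW0 : 0 < Wv m w (2 * u + 1) := by
      rw [Wv_even1 hme (even_two_mul u)]
      exact sigma_pos' e2.pos
    have hs0 : ArithmeticFunction.sigma 1 (Wv m w (2 * u + 1)) ≠ 0 := (sigma_pos' hW0).ne'
    have e4 := od_eq (ArithmeticFunction.sigma 1 (Wv m w (2 * u + 1)))
    have e5 : Wv m w (2 * u + 2) = od (ArithmeticFunction.sigma 1 (Wv m w (2 * u + 1))) :=
      Wv_even2 ⟨u, rfl⟩
    rw [e5]
    refine ⟨?_, od_odd hs0⟩
    have hcj : c (2 * u + 1) = (ArithmeticFunction.sigma 1 (Wv m w (2 * u + 1))).factorization 2 := by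
      rw [hc]
    rw [it_succ (2 * u + 1) n, e3, sig_prime g2 hnd, rep_two_add, hcj,
      pow_add 2 (av n (2 * u) + 1)]
    conv_lhs => rw [← e4]
    ring
  have claim : ∀ u : ℕ, u < r → it (2 * u) n = 2 ^ av n (2 * u) * Wv m w (2 * u) ∧
      Odd (Wv m w (2 * u)) := by
    intro u
    induction u with
    | zero =>
      intro _
      exact ⟨h1, h2⟩
    | succ u ih =>
      intro hu
      obtain ⟨i1, i2⟩ := ih (by omega)
      obtain ⟨s1, s2⟩ := step u (by omega) i1 i2
      have e0 : 2 * (u + 1) = 2 * u + 2 := by ring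
      rw [e0]
      have e1 : av n (2 * u + 2) = av n (2 * u) + 1 + c (2 * u + 1) := by
        rw [av, s1]
        exact fact_two s2
      rw [e1]
      exact ⟨s1, s2⟩
  have hch : ∀ t : ℕ, t < rr m → av n (lam m t) = av n 0 + Dv m w t := by
    intro t
    induction t with
    | zero =>
      intro _
      have e0 : lam m 0 = 0 := by
        unfold lam
        split_ifs <;> omega
      rw [e0]
      rfl
    | succ t ih =>
      intro ht
      obtain ⟨i1, i2⟩ := claim t (by omega)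
      obtain ⟨s1, s2⟩ := step t (by omega) i1 i2
      have e1 : av n (2 * t + 2) = av n (2 * t) + 1 + c (2 * t + 1) := by
        rw [av, s1]
        exact fact_two s2
      have e2 := ih (by omega)
      rw [hlam t (by omega)] at e2
      have e3 : lam m (t + 1) = 2 * t + 2 := by
        rw [hlam (t + 1) (by omega)]
        ring
      have hnx : nx m (lam m t) = 2 * t + 1 := by
        rw [hlam t (by omega)]
        unfold nx
        split_ifs <;> omega
      rw [e3, e1, e2, hc]
      show _ = av n 0 + (Dv m w t + 1 + (ArithmeticFunction.sigma 1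
        (Wv m w (nx m (lam m t)))).factorization 2)
      rw [hnx]
      ring
  refine ⟨w, h3, h2, ?_, ?_, ?_⟩
  · obtain ⟨i1, i2⟩ := claim (r - 1) (by omega)
    obtain ⟨s1, s2⟩ := step (r - 1) (by omega) i1 i2
    have e1 : 2 * (r - 1) + 2 = m := by omega
    rw [e1, S.hk] at s1
    have e4 : w ∣ 2 ^ (av n (2 * (r - 1)) + 1 + c (2 * (r - 1) + 1)) * Wv m w m := by
      rw [← s1]
      exact (Dvd.intro_left _ h1.symm).mul_left k
    exact (Nat.Coprime.pow_right _ h2.coprime_two_right).dvd_of_dvd_mul_left e4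
  · intro t ht
    obtain ⟨c1, c2, _⟩ := chain hm S hb t ht
    have e1 := (S.h2 _ c1 c2).2.1
    rw [hch t ht] at e1
    have e2 : av n 0 + 1 + Dv m w t = av n 0 + Dv m w t + 1 := by ring
    rw [e2]
    exact (mers_iff _).1 e1
  · rw [if_pos hme, Nat.add_sub_cancel, mul_one]
    exact h1

/-- All large elements of the class belong to finitely many families. -/
theorem classify (m K : ℕ) (hm : 1 ≤ m) : ∃ B : ℕ, ∀ n ∈ Cls m K, B < n →
    ∃ l w : ℕ, w ≤ B ∧ Odd w ∧ w ∣ Wv m w m ∧ Fam m w l n := by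
  obtain ⟨C, hC⟩ := master m K hm (fun _ => 0)
  refine ⟨C + C ^ K, fun n hn hlt => ?_⟩
  obtain ⟨T, k, hTC, S⟩ := hC n hn (by omega)
  have hTK : T ^ K ≤ C ^ K := Nat.pow_le_pow_left hTC K
  rcases Nat.even_or_odd m with hme | hmo
  · obtain ⟨w, h1, h2, h3, h4⟩ := fwd_even hm hme S (by omega)
    exact ⟨av n 0 + 1, w, by omega, h2, h3, h4⟩
  · obtain ⟨w, h1, h2, h3, h4⟩ := fwd_odd hm hmo S (by omega)
    exact ⟨av n 0 + 1, w, by omega, h2, h3, h4⟩

end Pool.Agent.H58.MK
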