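import Pool.Agent.H58.MK.Class

/-!
# The families consist of `(m,k)`-perfect numbers; equivalence
-/

set_option autoImplicit false

namespace Pool.Agent.H58.MK

open Finset

lemma od_pos {x : ℕ} (hx : 0 < x) : 0 < od x := (od_odd hx.ne').pos

lemma Wv_pos {m w : ℕ} (hw : 0 < w) (j : ℕ) : 0 < Wv m w j := by
  induction j with
  | zero => exact hw
  | succ j ih =>
    rw [Wv]
    split_ifs
    · exact sigma_pos' ih
    · exact od_pos (sigma_pos' ih)

lemma card_mul_le {a b : ℕ} (ha : a ≠ 0) (hb : b ≠ 0) :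
    (a * b).primeFactors.card ≤ a.primeFactors.card + b.primeFactors.card := by
  rw [Nat.primeFactors_mul ha hb]
  exact Finset.card_union_le _ _

lemma card_prime {p : ℕ} (hp : p.Prime) : p.primeFactors.card ≤ 1 := by
  rw [hp.primeFactors]
  simp

theorem conv_even {m w : ℕ} (hm : 1 ≤ m) (hme : Even m) (hw : Odd w) (hd : w ∣ Wv m w m) :
    ∃ B K : ℕ, ∀ l n : ℕ, B < l → Fam m w l n → n ∈ Cls m K := by
  refine ⟨∑ j ∈ Finset.range (m + 1), Wv m w j,
    2 + ∑ j ∈ Finset.range (m + 1), (Wv m w j).primeFactors.card, ?_⟩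
  rintro l n hl ⟨hp, hn⟩
  obtain ⟨r, hr⟩ := hme
  have hme : Even m := ⟨r, hr⟩
  have hrr : rr m = r := by
    have := rr_cases m
    omega
  have hlam : ∀ u : ℕ, u < r → lam m u = 2 * u := by
    intro u hu
    unfold lam
    split_ifs <;> omega
  have hWle : ∀ j ≤ m, Wv m w j < l := by
    intro j hj
    refine lt_of_le_of_lt ?_ hl
    exact Finset.single_le_sum (f := fun j => Wv m w j) (fun _ _ => Nat.zero_le _)
      (Finset.mem_range.2 (by omega))
  have hKle : ∀ j ≤ m, (Wv m w j).primeFactors.card ≤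
      ∑ j ∈ Finset.range (m + 1), (Wv m w j).primeFactors.card := by
    intro j hj
    exact Finset.single_le_sum (f := fun j => (Wv m w j).primeFactors.card)
      (fun _ _ => Nat.zero_le _) (Finset.mem_range.2 (by omega))
  have hl1 : 1 ≤ l := by omega
  have hn1 : n = 2 ^ (l - 1) * w := by
    rw [hn, if_pos hme, mul_one]
  have hw0 : 0 < w := hw.pos
  have hn0 : 0 < n := by
    rw [hn1]
    positivity
  -- the primes
  have hQ : ∀ u < r, (rep 2 (l - 1 + Dv m w u + 1)).Prime := by
    intro u hu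
    have h1 := hp u (by omega)
    have h2 : l + Dv m w u = l - 1 + Dv m w u + 1 := by omega
    rw [h2] at h1
    exact (mers_iff _).2 h1
  have h1' : ∀ u < r, it (2 * u) n = 2 ^ (l - 1 + Dv m w u) * Wv m w (2 * u) →
      Odd (Wv m w (2 * u)) →
      it (2 * u + 1) n = rep 2 (l - 1 + Dv m w u + 1) * Wv m w (2 * u + 1) := by
    intro u hu e1 e2
    rw [it_succ]
    conv_lhs => rw [e1]
    rw [sig_even e2, Wv_even1 hme (even_two_mul u)]
  have step : ∀ u < r, it (2 * u) n = 2 ^ (l - 1 + Dv m w u) * Wv m w (2 * u) →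
      Odd (Wv m w (2 * u)) → it (2 * u + 2) n = 2 ^ (l - 1 + Dv m w (u + 1)) *
        Wv m w (2 * u + 2) ∧ Odd (Wv m w (2 * u + 2)) := by
    intro u hu e1 e2
    have e3 := h1' u hu e1 e2
    have hW0 : 0 < Wv m w (2 * u + 1) := Wv_pos hw0 _
    have hnd : ¬ rep 2 (l - 1 + Dv m w u + 1) ∣ Wv m w (2 * u + 1) := by
      intro h
      have h2 := Nat.le_of_dvd hW0 h
      have h3 := hWle (2 * u + 1) (by omega)
      have h4 := le_rep (l := l - 1 + Dv m w u + 1) Nat.prime_two
      omega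
    have hs0 : ArithmeticFunction.sigma 1 (Wv m w (2 * u + 1)) ≠ 0 := (sigma_pos' hW0).ne'
    have e4 := od_eq (ArithmeticFunction.sigma 1 (Wv m w (2 * u + 1)))
    have e5 : Wv m w (2 * u + 2) = od (ArithmeticFunction.sigma 1 (Wv m w (2 * u + 1))) :=
      Wv_even2 ⟨u, rfl⟩
    have hnx : nx m (lam m u) = 2 * u + 1 := by
      rw [hlam u hu]
      unfold nx
      split_ifs <;> omega
    have e6 : Dv m w (u + 1) = Dv m w u + 1 +
        (ArithmeticFunction.sigma 1 (Wv m w (2 * u + 1))).factorization 2 := by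
      rw [Dv, hnx]
    rw [e5]
    refine ⟨?_, od_odd hs0⟩
    rw [it_succ (2 * u + 1) n, e3, sig_prime (hQ u hu) hnd, rep_two_add, e6]
    have e7 : l - 1 + (Dv m w u + 1 +
        (ArithmeticFunction.sigma 1 (Wv m w (2 * u + 1))).factorization 2) =
        (l - 1 + Dv m w u + 1) +
          (ArithmeticFunction.sigma 1 (Wv m w (2 * u + 1))).factorization 2 := by ring
    rw [e7, pow_add 2 (l - 1 + Dv m w u + 1)]
    conv_lhs => rw [← e4]
    ring
  have claim : ∀ u : ℕ, u ≤ r → it (2 * u) n = 2 ^ (l - 1 + Dv m w u) * Wv m w (2 * u) ∧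
      Odd (Wv m w (2 * u)) := by
    intro u
    induction u with
    | zero =>
      intro _
      exact ⟨hn1, hw⟩
    | succ u ih =>
      intro hu
      obtain ⟨i1, i2⟩ := ih (by omega)
      have e0 : 2 * (u + 1) = 2 * u + 2 := by ring
      rw [e0]
      exact step u (by omega) i1 i2
  refine ⟨hn0, ?_, ?_⟩
  · obtain ⟨i1, _⟩ := claim r le_rfl
    have e1 : 2 * r = m := by omega
    rw [e1] at i1
    rw [i1]
    conv_lhs => rw [hn1]
    exact mul_dvd_mul (pow_dvd_pow 2 (by omega)) hd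
  · intro j hj
    rcases Nat.even_or_odd j with ⟨u, hu⟩ | ⟨u, hu⟩
    · obtain ⟨i1, _⟩ := claim u (by omega)
      have e1 : j = 2 * u := by omega
      rw [e1, i1]
      refine (card_mul_le (by positivity) (Wv_pos hw0 _).ne').trans ?_
      have h2 := card_two_pow (l - 1 + Dv m w u)
      have h3 := hKle (2 * u) (by omega)
      omega
    · obtain ⟨i1, i2⟩ := claim u (by omega)
      rw [hu, h1' u (by omega) i1 i2]
      refine (card_mul_le (hQ u (by omega)).pos.ne' (Wv_pos hw0 _).ne').trans ?_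
      have h2 := card_prime (hQ u (by omega))
      have h3 := hKle (2 * u + 1) (by omega)
      omega

/-- The index in the chain. -/
def tt (m j : ℕ) : ℕ := if Even j then j / 2 else (j + m) / 2

lemma tt_spec {m j : ℕ} (hmo : Odd m) (hj : j < m) : tt m j < m ∧ lam m (tt m j) = j := by
  obtain ⟨v, hv⟩ := hmo
  rcases Nat.even_or_odd j with h | h
  · have e : tt m j = j / 2 := by
      unfold tt
      rw [if_pos h]
    obtain ⟨u, hu⟩ := h
    have e2 : j / 2 = u := by omega
    rw [e, e2]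
    unfold lam
    rw [if_pos (by omega)]
    omega
  · have e : tt m j = (j + m) / 2 := by
      unfold tt
      rw [if_neg (Nat.not_even_iff_odd.2 h)]
    obtain ⟨u, hu⟩ := h
    have e2 : (j + m) / 2 = u + v + 1 := by omega
    rw [e, e2]
    unfold lam
    rw [if_neg (by omega)]
    omega

lemma tt_succ {m j : ℕ} (hmo : Odd m) (hj : j + 1 < m) : tt m (j + 1) = tt m (pv m j) + 1 := by
  obtain ⟨v, hv⟩ := hmo
  rcases Nat.eq_zero_or_pos j with h0 | h0
  · subst h0
    have e1 : pv m 0 = m - 1 := rfl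
    have e2 : tt m (m - 1) = (m - 1) / 2 := by
      unfold tt
      rw [if_pos ⟨v, by omega⟩]
    have e3 : tt m (0 + 1) = (1 + m) / 2 := by
      unfold tt
      rw [if_neg (by decide)]
    rw [e1, e2, e3]
    omega
  · have e1 : pv m j = j - 1 := by
      unfold pv
      rw [if_neg (by omega)]
    rw [e1]
    rcases Nat.even_or_odd j with h | h
    · have e2 : tt m (j + 1) = (j + 1 + m) / 2 := by
        unfold tt
        rw [if_neg]
        rw [Nat.not_even_iff_odd]
        exact h.add_one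
      have e3 : tt m (j - 1) = (j - 1 + m) / 2 := by
        unfold tt
        rw [if_neg]
        rw [Nat.not_even_iff_odd]
        obtain ⟨u, hu⟩ := h
        exact ⟨u - 1, by omega⟩
      rw [e2, e3]
      omega
    · have e2 : tt m (j + 1) = (j + 1) / 2 := by
        unfold tt
        rw [if_pos h.add_one]
      have e3 : tt m (j - 1) = (j - 1) / 2 := by
        unfold tt
        rw [if_pos]
        obtain ⟨u, hu⟩ := h
        exact ⟨u, by omega⟩
      rw [e2, e3]
      omega

theorem conv_odd {m w : ℕ} (hm : 1 ≤ m) (hmo : Odd m) (hw : Odd w) (hd : w ∣ Wv m w m) :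
    ∃ B K : ℕ, ∀ l n : ℕ, B < l → Fam m w l n → n ∈ Cls m K := by
  refine ⟨∑ j ∈ Finset.range (m + 1), Wv m w j,
    2 + ∑ j ∈ Finset.range (m + 1), (Wv m w j).primeFactors.card, ?_⟩
  rintro l n hl ⟨hp, hn⟩
  have hne : ¬ Even m := Nat.not_even_iff_odd.2 hmo
  have hrr : rr m = m := by
    have := rr_cases m
    obtain ⟨u, hu⟩ := hmo
    omega
  have hWle : ∀ j ≤ m, Wv m w j < l := by
    intro j hj
    refine lt_of_le_of_lt ?_ hl
    exact Finset.single_le_sum (f := fun j => Wv m w j) (fun _ _ => Nat.zero_le _)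
      (Finset.mem_range.2 (by omega))
  have hKle : ∀ j ≤ m, (Wv m w j).primeFactors.card ≤
      ∑ j ∈ Finset.range (m + 1), (Wv m w j).primeFactors.card := by
    intro j hj
    exact Finset.single_le_sum (f := fun j => (Wv m w j).primeFactors.card)
      (fun _ _ => Nat.zero_le _) (Finset.mem_range.2 (by omega))
  have hl1 : 1 ≤ l := by omega
  have hw0 : 0 < w := hw.pos
  obtain ⟨a, ha⟩ : ∃ a : ℕ → ℕ, a = fun j => l - 1 + Dv m w (tt m j) := ⟨_, rfl⟩
  have haj : ∀ j, a j = l - 1 + Dv m w (tt m j) := fun j => by rw [ha]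
  obtain ⟨c, hc⟩ : ∃ c : ℕ → ℕ, c = fun j => (ArithmeticFunction.sigma 1 (Wv m w j)).factorization 2 :=
    ⟨_, rfl⟩
  have hQ : ∀ j < m, (rep 2 (a j + 1)).Prime := by
    intro j hj
    have h1 := hp (tt m j) (by rw [hrr]; exact (tt_spec hmo hj).1)
    have h2 : l + Dv m w (tt m j) = a j + 1 := by
      rw [haj]
      omega
    rw [h2] at h1
    exact (mers_iff _).2 h1
  have hstart : n = 2 ^ (l - 1) * (rep 2 (a (m - 1) + 1) * w) := by
    rw [hn, if_neg hne, mul_assoc]
    have e1 : tt m (m - 1) = (m - 1) / 2 := by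
      obtain ⟨u, hu⟩ := hmo
      unfold tt
      rw [if_pos ⟨u, by omega⟩]
    have e2 : a (m - 1) + 1 = l + Dv m w ((m - 1) / 2) := by
      rw [haj, e1]
      omega
    rw [e2]
    have e3 : 2 ^ (l + Dv m w ((m - 1) / 2)) - 1 = rep 2 (l + Dv m w ((m - 1) / 2)) := by
      have := rep_two_add (l + Dv m w ((m - 1) / 2))
      omega
    rw [e3]
  have hn0 : 0 < n := by
    rw [hstart]
    have := (hQ (m - 1) (by omega)).pos
    positivity
  have step : ∀ j < m, it j n = 2 ^ a j * (rep 2 (a (pv m j) + 1) * Wv m w j) →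
      Odd (Wv m w j) → it (j + 1) n = 2 ^ (a (pv m j) + 1 + c j) *
        (rep 2 (a j + 1) * Wv m w (j + 1)) ∧ Odd (Wv m w (j + 1)) := by
    intro j hj e1 e2
    have g2 := hQ _ (pv_lt hj)
    have hW0 : 0 < Wv m w j := Wv_pos hw0 _
    have hnd : ¬ rep 2 (a (pv m j) + 1) ∣ Wv m w j := by
      intro h
      have h2 := Nat.le_of_dvd hW0 h
      have h3 := hWle j (by omega)
      have h4 := le_rep (l := a (pv m j) + 1) Nat.prime_two
      have h5 := haj (pv m j)
      omega
    have e3 : it (j + 1) n = rep 2 (a j + 1) * ((rep 2 (a (pv m j) + 1) + 1) *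
        ArithmeticFunction.sigma 1 (Wv m w j)) := by
      rw [it_succ]
      conv_lhs => rw [e1]
      exact sig_odd g2 (rep_two_odd _) e2 hnd
    have hs0 : ArithmeticFunction.sigma 1 (Wv m w j) ≠ 0 := (sigma_pos' hW0).ne'
    have e4 := od_eq (ArithmeticFunction.sigma 1 (Wv m w j))
    rw [Wv_odd hmo]
    refine ⟨?_, od_odd hs0⟩
    have hcj : c j = (ArithmeticFunction.sigma 1 (Wv m w j)).factorization 2 := by rw [hc]
    rw [hcj, e3, rep_two_add, pow_add 2 (a (pv m j) + 1)]
    conv_lhs => rw [← e4]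
    ring
  have claim : ∀ j : ℕ, j < m → it j n = 2 ^ a j * (rep 2 (a (pv m j) + 1) * Wv m w j) ∧
      Odd (Wv m w j) := by
    intro j
    induction j with
    | zero =>
      intro _
      refine ⟨?_, hw⟩
      have e1 : pv m 0 = m - 1 := rfl
      have e2 : a 0 = l - 1 := by
        rw [haj]
        rfl
      rw [e1, e2, Wv_zero]
      exact hstart
    | succ j ih =>
      intro hj
      obtain ⟨i1, i2⟩ := ih (by omega)
      obtain ⟨s1, s2⟩ := step j (by omega) i1 i2
      have e1 : a (j + 1) = a (pv m j) + 1 + c j := by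
        rw [haj, haj, tt_succ hmo hj, Dv, (tt_spec hmo (pv_lt (by omega : j < m))).2,
          nx_pv (by omega : j < m), hc]
        ring
      rw [e1, pv_succ]
      exact ⟨s1, s2⟩
  refine ⟨hn0, ?_, ?_⟩
  · obtain ⟨i1, i2⟩ := claim (m - 1) (by omega)
    obtain ⟨s1, _⟩ := step (m - 1) (by omega) i1 i2
    have e1 : m - 1 + 1 = m := by omega
    rw [e1] at s1
    rw [s1]
    conv_lhs => rw [hstart]
    refine mul_dvd_mul (pow_dvd_pow 2 ?_) (mul_dvd_mul_left _ hd)
    have := haj (pv m (m - 1))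
    omega
  · intro j hj
    obtain ⟨i1, _⟩ := claim j hj
    have hq := hQ _ (pv_lt hj)
    rw [i1]
    refine (card_mul_le (by positivity) (Nat.mul_pos hq.pos (Wv_pos hw0 _)).ne').trans ?_
    have h1 := card_mul_le hq.pos.ne' (Wv_pos (m := m) hw0 j).ne'
    have h2 := card_two_pow (a j)
    have h3 := hKle j (by omega)
    have h4 := card_prime hq
    omega

theorem converse {m w : ℕ} (hm : 1 ≤ m) (hw : Odd w) (hd : w ∣ Wv m w m) :
    ∃ B K : ℕ, ∀ l n : ℕ, B < l → Fam m w l n → n ∈ Cls m K := by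
  rcases Nat.even_or_odd m with h | h
  · exact conv_even hm h hw hd
  · exact conv_odd hm h hw hd

lemma fam_val {m w l n : ℕ} (hw : Odd w) (hl : 1 ≤ l) (h : Fam m w l n) :
    n.factorization 2 = l - 1 := by
  rw [h.2, mul_assoc]
  refine fact_two (Odd.mul ?_ hw)
  split_ifs with hme
  · exact odd_one
  · have e3 : 2 ^ (l + Dv m w ((m - 1) / 2)) - 1 =
        rep 2 ((l - 1 + Dv m w ((m - 1) / 2)) + 1) := by
      have e4 : l - 1 + Dv m w ((m - 1) / 2) + 1 = l + Dv m w ((m - 1) / 2) := by omega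
      rw [e4]
      have := rep_two_add (l + Dv m w ((m - 1) / 2))
      omega
    rw [e3]
    exact rep_two_odd _

theorem class_iff {m : ℕ} (hm : 1 ≤ m) : (∃ K, (Cls m K).Infinite) ↔
    ∃ w : ℕ, Odd w ∧ w ∣ Wv m w m ∧
      {l : ℕ | ∀ t < rr m, (2 ^ (l + Dv m w t) - 1).Prime}.Infinite := by
  classical
  constructor
  · rintro ⟨K, hK⟩
    by_contra hcon
    push Not at hcon
    obtain ⟨B, hB⟩ := classify m K hm
    obtain ⟨L, hL⟩ : ∃ L : ℕ → Set ℕ, L = fun w => {l | Odd w ∧ w ∣ Wv m w m ∧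
      ∀ t < rr m, (2 ^ (l + Dv m w t) - 1).Prime} := ⟨_, rfl⟩
    have hfin : ∀ w, (L w).Finite := by
      intro w
      by_cases h : Odd w ∧ w ∣ Wv m w m
      · have h1 := hcon w h.1 h.2
        refine h1.subset ?_
        rw [hL]
        intro l hl
        exact hl.2.2
      · have : L w = ∅ := by
          rw [hL]
          ext l
          constructor
          · intro hl
            exact absurd ⟨hl.1, hl.2.1⟩ h
          · intro hl
            exact absurd hl (Set.notMem_empty _)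
        rw [this]
        exact Set.finite_empty
    have hU : (⋃ w ∈ (Finset.range (B + 1) : Set ℕ), (fun l => 2 ^ (l - 1) *
        (if Even m then 1 else 2 ^ (l + Dv m w ((m - 1) / 2)) - 1) * w) '' L w).Finite :=
      (Finset.finite_toSet _).biUnion fun w _ => (hfin w).image _
    refine hK (((Set.finite_Iic B).union hU).subset ?_)
    intro n hn
    by_cases hc : n ≤ B
    · exact Or.inl hc
    · push Not at hc
      obtain ⟨l, w, h1, h2, h3, h4⟩ := hB n hn hc
      refine Or.inr ?_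
      rw [Set.mem_iUnion₂]
      refine ⟨w, ?_, l, ?_, h4.2.symm⟩
      · rw [Finset.mem_coe, Finset.mem_range]
        omega
      · rw [hL]
        exact ⟨h2, h3, h4.1⟩
  · rintro ⟨w, hw, hd, hinf⟩
    obtain ⟨B, K, hBK⟩ := converse hm hw hd
    refine ⟨K, ?_⟩
    have h1 : ({l : ℕ | ∀ t < rr m, (2 ^ (l + Dv m w t) - 1).Prime} \ Set.Iic B).Infinite :=
      hinf.sdiff (Set.finite_Iic B)
    have hinj : Set.InjOn (fun l => 2 ^ (l - 1) *
        (if Even m then 1 else 2 ^ (l + Dv m w ((m - 1) / 2)) - 1) * w)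
        ({l : ℕ | ∀ t < rr m, (2 ^ (l + Dv m w t) - 1).Prime} \ Set.Iic B) := by
      rintro l ⟨hl1, hl2⟩ l' ⟨hl1', hl2'⟩ h
      have h2 : B < l := by simpa using hl2
      have h2' : B < l' := by simpa using hl2'
      have h3 := fam_val hw (by omega : 1 ≤ l) ⟨hl1, rfl⟩
      have h3' := fam_val hw (by omega : 1 ≤ l') ⟨hl1', rfl⟩
      have h4 : (2 ^ (l - 1) * (if Even m then 1 else 2 ^ (l + Dv m w ((m - 1) / 2)) - 1) * w) =
        (2 ^ (l' - 1) * (if Even m then 1 else 2 ^ (l' + Dv m w ((m - 1) / 2)) - 1) * w) := h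
      rw [h4, h3'] at h3
      omega
    refine (h1.image hinj).mono ?_
    rintro _ ⟨l, ⟨hl1, hl2⟩, rfl⟩
    have h2 : B < l := by simpa using hl2
    exact hBK l _ h2 ⟨hl1, rfl⟩

end Pool.Agent.H58.MK
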