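import Pool.Agent.H58.MK.Smooth2
import Pool.Agent.H98.ABCR.All

/-!
# Common repunits in two prime bases

For two distinct primes there are only finitely many common repunits. This follows from the
finiteness of the number of solutions of the `S`-unit equation.
-/

set_option autoImplicit false

namespace Pool.Agent.H58.MK

open Finset

/-- The `S`-unit equation `a + b = c` has finitely many coprime solutions. -/
theorem sunit_finite (S : Finset ℕ) (hS : ∀ q ∈ S, q.Prime) :
    {v : ℕ × ℕ | 0 < v.1 ∧ 0 < v.2 ∧ v.1.Coprime v.2 ∧ v.1.primeFactors ⊆ S ∧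
      v.2.primeFactors ⊆ S ∧ (v.1 + v.2).primeFactors ⊆ S}.Finite := by
  classical
  obtain ⟨C, hC, hF⟩ := Pool.Agent.H98.ABCR.all_TRE 1 one_pos le_rfl
  by_contra hinf
  obtain ⟨F, hF1, hF2⟩ := Set.Infinite.exists_subset_card_eq hinf
    (⌊C ^ (S.card + 1)⌋₊ + 1)
  have h1 := hF S F 0 hS (by
    intro v hv
    obtain ⟨h1, h2, h3, h4, h5, h6⟩ := hF1 (Finset.mem_coe.mpr hv)
    refine ⟨⟨h1, h2, h3⟩, ?_, ?_⟩
    · intro s hs
      fin_cases s
      · exact absurd rfl hs
      · exact h5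
      · exact h6
    · have h7 : Real.log (Pool.Agent.H98.ABCR.coord v 0) =
          ∑ q ∈ S, ((Pool.Agent.H98.ABCR.coord v 0).factorization q : ℝ) * Real.log q := by
        have e1 : Pool.Agent.H98.ABCR.coord v 0 = v.1 := rfl
        rw [e1]
        have e2 : (v.1 : ℝ) = ∏ q ∈ S, (q : ℝ) ^ v.1.factorization q := by
          have e3 : v.1 = ∏ q ∈ S, q ^ v.1.factorization q := by
            conv_lhs => rw [← Nat.prod_factorization_pow_eq_self h1.ne']
            rw [Finsupp.prod]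
            refine Finset.prod_subset h4 fun q _ hq => ?_
            rw [Finsupp.notMem_support_iff.1 hq, pow_zero]
          conv_lhs => rw [e3]
          push_cast
          rfl
        conv_lhs => rw [e2]
        rw [Real.log_prod (fun q hq => ?_)]
        · exact Finset.sum_congr rfl fun q _ => Real.log_pow _ _
        · have := (hS q hq).pos
          positivity
      rw [h7]
      simp)
  rw [hF2] at h1
  have h2 := Nat.lt_floor_add_one (C ^ (S.card + 1))
  push_cast at h1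
  linarith

theorem double_aux {p q : ℕ} (hp : p.Prime) (hq : q.Prime) (hpq : p < q) :
    ∃ D : ℕ, ∀ l l' : ℕ, rep p l = rep q l' → rep q l' ≤ D := by
  classical
  obtain ⟨X, hX⟩ : ∃ X : ℕ, X = p * (p - 1) * (q * (q - 1) * (q - p)) := ⟨_, rfl⟩
  have hp2 := hp.two_le
  have hX0 : X ≠ 0 := by
    rw [hX]
    have h1 : 0 < p - 1 := by omega
    have h2 : 0 < q - 1 := by omega
    have h3 : 0 < q - p := by omega
    have h4 := hp.pos
    have h5 := hq.pos
    positivity
  have hfin := sunit_finite X.primeFactors (fun r hr => Nat.prime_of_mem_primeFactors hr)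
  obtain ⟨B, hB⟩ := (hfin.image Prod.fst).bddAbove
  refine ⟨B * (q - p), fun l l' h => ?_⟩
  -- the equation
  have e1 := rep_mul (by omega : 1 ≤ p) l
  have e2 := rep_mul (by omega : 1 ≤ q) l'
  have e3 : (p - 1) * q ^ l' + (q - p) = (q - 1) * p ^ l := by
    rw [← e1, ← e2, h]
    obtain ⟨x, rfl⟩ := Nat.exists_eq_add_of_le' (by omega : 1 ≤ p)
    obtain ⟨y, rfl⟩ := Nat.exists_eq_add_of_lt hpq
    have a1 : x + 1 - 1 = x := by omega
    have a2 : x + 1 + y + 1 - 1 = x + 1 + y := by omega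
    have a3 : x + 1 + y + 1 - (x + 1) = y + 1 := by omega
    rw [a1, a2, a3]
    ring
  obtain ⟨a, ha⟩ : ∃ a : ℕ, a = (p - 1) * q ^ l' := ⟨_, rfl⟩
  obtain ⟨b, hb⟩ : ∃ b : ℕ, b = q - p := ⟨_, rfl⟩
  have ha0 : 0 < a := by
    rw [ha]
    exact Nat.mul_pos (by omega) (Nat.pow_pos hq.pos)
  have hb0 : 0 < b := by omega
  obtain ⟨g, a', b', hg, hcop, ha', hb'⟩ := Nat.exists_coprime' (m := a) (n := b)
    (Nat.gcd_pos_of_pos_left _ ha0)
  have hga : a' ∣ a := ⟨g, ha'⟩
  have hgb : b' ∣ b := ⟨g, hb'⟩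
  have hgc : a' + b' ∣ a + b := ⟨g, by rw [ha', hb']; ring⟩
  have hmem : (a', b') ∈ {v : ℕ × ℕ | 0 < v.1 ∧ 0 < v.2 ∧ v.1.Coprime v.2 ∧
      v.1.primeFactors ⊆ X.primeFactors ∧ v.2.primeFactors ⊆ X.primeFactors ∧
      (v.1 + v.2).primeFactors ⊆ X.primeFactors} := by
    have hpos1 : 0 < a' := Nat.pos_of_dvd_of_pos hga ha0
    have hpos2 : 0 < b' := Nat.pos_of_dvd_of_pos hgb hb0
    refine ⟨hpos1, hpos2, hcop, ?_, ?_, ?_⟩
    · intro r hr
      have hr1 := Nat.prime_of_mem_primeFactors hr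
      have hr2 : r ∣ (p - 1) * q ^ l' := by
        rw [← ha]
        exact (Nat.dvd_of_mem_primeFactors hr).trans hga
      refine Nat.mem_primeFactors.2 ⟨hr1, ?_, hX0⟩
      rw [hX]
      rcases (hr1.dvd_mul).1 hr2 with h1 | h1
      · exact (h1.mul_left _).mul_right _
      · exact ((hr1.dvd_of_dvd_pow h1).mul_right _).mul_right _ |>.mul_left _
    · intro r hr
      have hr1 := Nat.prime_of_mem_primeFactors hr
      refine Nat.mem_primeFactors.2 ⟨hr1, ?_, hX0⟩
      have hr2 : r ∣ q - p := by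
        rw [← hb]
        exact (Nat.dvd_of_mem_primeFactors hr).trans hgb
      rw [hX]
      exact (hr2.mul_left _).mul_left _
    · intro r hr
      have hr1 := Nat.prime_of_mem_primeFactors hr
      have hr2 : r ∣ (q - 1) * p ^ l := by
        rw [← e3, ← ha, ← hb]
        exact (Nat.dvd_of_mem_primeFactors hr).trans hgc
      refine Nat.mem_primeFactors.2 ⟨hr1, ?_, hX0⟩
      rw [hX]
      rcases (hr1.dvd_mul).1 hr2 with h1 | h1
      · exact ((h1.mul_left _).mul_right _).mul_left _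
      · exact ((hr1.dvd_of_dvd_pow h1).mul_right _).mul_right _
  have h1 : a' ≤ B := hB ⟨(a', b'), hmem, rfl⟩
  have h2 : g ≤ b := Nat.le_of_dvd hb0 ⟨b', by rw [hb', mul_comm]⟩
  have h3 : a ≤ B * (q - p) := by
    rw [ha', ← hb]
    exact Nat.mul_le_mul h1 h2
  have h4 : rep q l' < q ^ l' := rep_lt_pow hq.two_le l'
  have h5 : q ^ l' ≤ a := by
    rw [ha]
    exact Nat.le_mul_of_pos_left _ (by omega)
  omega

/-- Common repunits in two distinct prime bases are bounded. -/
theorem double {p q : ℕ} (hp : p.Prime) (hq : q.Prime) (hpq : p ≠ q) :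
    ∃ D : ℕ, ∀ l l' : ℕ, rep p l = rep q l' → rep q l' ≤ D := by
  rcases lt_or_gt_of_ne hpq with h | h
  · exact double_aux hp hq h
  · obtain ⟨D, hD⟩ := double_aux hq hp h
    exact ⟨D, fun l l' h1 => by
      rw [← h1]
      exact hD l' l h1.symm⟩

/-- A bound for the common repunits in distinct prime bases up to `T`. -/
theorem exists_double_bound : ∃ D : ℕ → ℕ, ∀ T p q l l' : ℕ, p.Prime → q.Prime → p ≤ T → q ≤ T →
    p ≠ q → rep p l = rep q l' → rep q l' ≤ D T := by
  have h : ∀ p q : ℕ, ∃ D : ℕ, p.Prime → q.Prime → p ≠ q → ∀ l l' : ℕ, rep p l = rep q l' →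
      rep q l' ≤ D := by
    intro p q
    by_cases hc : p.Prime ∧ q.Prime ∧ p ≠ q
    · obtain ⟨D, hD⟩ := double hc.1 hc.2.1 hc.2.2
      exact ⟨D, fun _ _ _ => hD⟩
    · exact ⟨0, fun h1 h2 h3 => absurd ⟨h1, h2, h3⟩ hc⟩
  choose D hD using h
  refine ⟨fun T => ∑ p ∈ Finset.range (T + 1), ∑ q ∈ Finset.range (T + 1), D p q, ?_⟩
  intro T p q l l' hp hq hpT hqT hne he
  have e1 : D p q ≤ ∑ q ∈ Finset.range (T + 1), D p q :=
    Finset.single_le_sum (f := fun q => D p q) (fun _ _ => Nat.zero_le _)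
      (Finset.mem_range.2 (by omega))
  have e2 : ∑ q ∈ Finset.range (T + 1), D p q ≤ ∑ p ∈ Finset.range (T + 1),
      ∑ q ∈ Finset.range (T + 1), D p q :=
    Finset.single_le_sum (f := fun p => ∑ q ∈ Finset.range (T + 1), D p q)
      (fun _ _ => Nat.zero_le _) (Finset.mem_range.2 (by omega))
  exact (hD p q hp hq hne l l' he).trans (e1.trans e2)

end Pool.Agent.H58.MK
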