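import Pool.Agent.H58.MK.Rigid

/-!
# The exponents of two in the iterates
-/

set_option autoImplicit false

namespace Pool.Agent.H58.MK

open Finset

/-- The exponent of two in the iterate number `j`. -/
def av (n j : ℕ) : ℕ := (it j n).factorization 2

/-- The structure of a large `(m,k)`-perfect number with few prime factors. -/
structure Str (m K n T k b : ℕ) : Prop where
  hn : 0 < n
  hT : 2 ≤ T
  hk : it m n = k * n
  hk0 : 0 < k
  hkT : k ≤ T
  hω : ∀ j < m, (it j n).primeFactors.card ≤ K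
  h1 : ∀ j < m, ∀ p : ℕ, p.Prime → p ∣ it j n → p ^ (it j n).factorization p ≤ T ∨
    (p = 2 ∧ T < 2 ^ av n j) ∨
    (∃ j' < m, j = nx m j' ∧ T < 2 ^ av n j' ∧ p = rep 2 (av n j' + 1))
  h2 : ∀ j < m, T < 2 ^ av n j → b < av n j ∧ (rep 2 (av n j + 1)).Prime ∧
    (it (nx m j) n).factorization (rep 2 (av n j + 1)) = 1
  h3 : ∃ j < m, T < 2 ^ av n j

theorem structure2 (m K : ℕ) (hm : 1 ≤ m) (β : ℕ → ℕ) : ∃ C : ℕ, ∀ n : ℕ, C < n →
    n ∣ it m n → (∀ j < m, (it j n).primeFactors.card ≤ K) →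
    ∃ T k : ℕ, T ≤ C ∧ Str m K n T k (β T) := by
  classical
  choose L hL using exists_threshold
  obtain ⟨D, hD⟩ := exists_double_bound
  obtain ⟨M, hM⟩ : ∃ M : ℕ, M = m * K + 1 := ⟨_, rfl⟩
  have hM1 : 1 ≤ M := by omega
  obtain ⟨E, hE⟩ : ∃ E : ℕ → ℕ, E = fun T => (L T + 1) ^ 2 + (2 * L T + 6) + T +
    (8 * M ^ 2 + 2) ^ 2 + β T + 1 := ⟨_, rfl⟩
  obtain ⟨W, hW⟩ : ∃ W : ℕ → ℕ, W = fun T => M * (2 * T) ^ M + 4 * M + 12 * M ^ 2 + D T +
    T ^ E T + T + 17 := ⟨_, rfl⟩
  obtain ⟨t, ht0, hts⟩ : ∃ t : ℕ → ℕ, t 0 = 2 ^ M ∧ ∀ i, t (i + 1) = W (t i) :=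
    ⟨fun i => Nat.rec (2 ^ M) (fun _ x => W x) i, rfl, fun i => rfl⟩
  have hmono : Monotone t := by
    refine monotone_nat_of_le_succ fun i => ?_
    rw [hts, hW]
    show t i ≤ M * (2 * t i) ^ M + 4 * M + 12 * M ^ 2 + D (t i) + t i ^ E (t i) + t i + 17
    omega
  have htT : ∀ i, 2 ^ M ≤ t i := fun i => by
    rw [← ht0]
    exact hmono (Nat.zero_le i)
  have ht1 : ∀ i, 1 ≤ t i := fun i => (Nat.one_le_two_pow).trans (htT i)
  have ht2 : ∀ i, 2 ≤ t i := fun i => by
    refine le_trans ?_ (htT i)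
    calc 2 = 2 ^ 1 := by norm_num
      _ ≤ 2 ^ M := Nat.pow_le_pow_right (by norm_num) hM1
  refine ⟨t (2 * M) ^ (K + 1), fun n hn hdvd hω => ?_⟩
  have hn0 : 0 < n := lt_of_le_of_lt (Nat.zero_le _) hn
  obtain ⟨k, hk⟩ := hdvd
  rw [mul_comm] at hk
  have hI : (IX m n).card ≤ M := (card_IX hω).trans (by omega)
  obtain ⟨i, hi, hgap⟩ := gap ((IX m n).image (fun i => i.2) ∪
    (IX m n).image (fun i => i.2 ^ ex n i)) (2 * M) (by
      refine (Finset.card_union_le _ _).trans ?_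
      have h1 := Finset.card_image_le (s := IX m n) (f := fun i : Σ _ : ℕ, ℕ => i.2)
      have h2 := Finset.card_image_le (s := IX m n) (f := fun i : Σ _ : ℕ, ℕ => i.2 ^ ex n i)
      omega) t hmono
  have hTle : t i ≤ t (2 * M) := hmono hi
  have hTC : t i ≤ t (2 * M) ^ (K + 1) :=
    hTle.trans (Nat.le_self_pow (by omega) _)
  have hTn : t i ^ K < n := by
    refine lt_of_le_of_lt ?_ hn
    exact (Nat.pow_le_pow_left hTle K).trans (Nat.pow_le_pow_right (ht1 _) (by omega))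
  obtain ⟨T, hTd⟩ : ∃ T : ℕ, T = t i := ⟨_, rfl⟩
  have hWi : W T = M * (2 * T) ^ M + 4 * M + 12 * M ^ 2 + D T + T ^ E T + T + 17 := by rw [hW]
  have hEi : E T = (L T + 1) ^ 2 + (2 * L T + 6) + T + (8 * M ^ 2 + 2) ^ 2 + β T + 1 := by
    rw [hE]
  have hexp : ∀ p e : ℕ, p ≤ T → W T < p ^ e → E T < e := by
    intro p e hpT hlt
    by_contra hcon
    push Not at hcon
    have h1 : p ^ e ≤ T ^ E T :=
      (Nat.pow_le_pow_left hpT e).trans (Nat.pow_le_pow_right (by rw [hTd]; exact ht1 i) hcon)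
    rw [hWi] at hlt
    omega
  have hg1 : ∀ x ∈ IX m n, x.2 ^ ex n x ≤ T ∨ W T < x.2 ^ ex n x := by
    intro x hx
    rw [hTd, ← hts]
    exact hgap _ (Finset.mem_union_right _ (Finset.mem_image_of_mem _ hx))
  have hg2 : ∀ x ∈ IX m n, x.2 ≤ T ∨ W T < x.2 := by
    intro x hx
    rw [hTd, ← hts]
    exact hgap _ (Finset.mem_union_left _ (Finset.mem_image_of_mem _ hx))
  have hT2 : 2 ≤ T := by rw [hTd]; exact ht2 i
  have hTM : 2 ^ M ≤ T := by rw [hTd]; exact htT i
  obtain ⟨c1, c2, c3⟩ := rigid (K := K) (M := M) (T := T) (W := W T) (L := L T) (k := k)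
    (D := D T) hm (by omega) hM1 hn0 hω hk hTM (by omega) (by omega) (by omega) (by omega)
    (by omega) (hL T) (hD T) (by
      intro p e hp hpT hlt
      have h3 := hexp p e hpT hlt
      rw [hEi] at h3
      refine ⟨by omega, by omega, by omega, by omega⟩) hg1 hg2
  have hk0 : 0 < k := by
    rcases Nat.eq_zero_or_pos k with h | h
    · have := it_pos hn0 m
      rw [hk, h, zero_mul] at this
      omega
    · exact h
  have hmem := fun i => @mem_IX m n i hn0
  refine ⟨T, k, by rw [hTd]; exact hTC, ?_⟩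
  have hlar : ∀ j < m, T < 2 ^ av n j → (⟨j, 2⟩ : Σ _ : ℕ, ℕ) ∈ IX m n := by
    intro j hj hTj
    rw [hmem]
    refine ⟨hj, Nat.prime_two, ?_⟩
    by_contra h3
    have h4 : av n j = 0 := Nat.factorization_eq_zero_of_not_dvd h3
    rw [h4, pow_zero] at hTj
    omega
  refine ⟨hn0, hT2, hk, hk0, c1.trans hTM, hω, ?_, ?_, ?_⟩
  · intro j hj p hp hpd
    have hI : (⟨j, p⟩ : Σ _ : ℕ, ℕ) ∈ IX m n := (hmem _).2 ⟨hj, hp, hpd⟩
    by_cases h3 : p ^ (it j n).factorization p ≤ T
    · exact Or.inl h3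
    · push Not at h3
      by_cases h4 : p ≤ T
      · have h5 := (c2 ⟨j, p⟩ hI h3 h4).1
        have h5' : p = 2 := h5
        refine Or.inr (Or.inl ⟨h5', ?_⟩)
        rw [h5'] at h3
        exact h3
      · push Not at h4
        obtain ⟨i', hi', d1, d2, d3, d4⟩ := c3 ⟨j, p⟩ hI h4
        refine Or.inr (Or.inr ⟨i'.1, ((hmem _).1 hi').1, d3, ?_, ?_⟩)
        · have : ex n i' = av n i'.1 := by rw [ex, d1, av]
          rw [← this]
          exact d2
        · have : ex n i' = av n i'.1 := by rw [ex, d1, av]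
          rw [← this]
          exact d4
  · intro j hj hTj
    have hI := hlar j hj hTj
    obtain ⟨d1, d2, d3, d4⟩ := c2 ⟨j, 2⟩ hI hTj hT2
    refine ⟨?_, d2, d3⟩
    have h3 : W T < 2 ^ ex n ⟨j, 2⟩ :=
      (hg1 ⟨j, 2⟩ hI).resolve_left (fun hle => absurd hTj (not_lt.2 hle))
    have h4 := hexp 2 _ hT2 h3
    rw [hEi] at h4
    have h5 : ex n ⟨j, 2⟩ = av n j := rfl
    rw [h5] at h4
    omega
  · by_contra hcon
    push Not at hcon
    have hall : ∀ p : ℕ, p.Prime → p ∣ it 0 n → p ^ (it 0 n).factorization p ≤ T := by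
      intro p hp hpd
      have hI : (⟨0, p⟩ : Σ _ : ℕ, ℕ) ∈ IX m n := (hmem _).2 ⟨by show 0 < m; omega, hp, hpd⟩
      by_contra h3
      push Not at h3
      by_cases h4 : p ≤ T
      · have h5' : p = 2 := (c2 ⟨0, p⟩ hI h3 h4).1
        rw [h5'] at h3
        have := hcon 0 (by omega)
        have h6 : av n 0 = (it 0 n).factorization 2 := rfl
        rw [h6] at this
        omega
      · push Not at h4
        obtain ⟨i', hi', d1, d2, d3, d4⟩ := c3 ⟨0, p⟩ hI h4
        have h6 : ex n i' = av n i'.1 := by rw [ex, d1, av]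
        rw [h6] at d2
        have := hcon i'.1 ((hmem _).1 hi').1
        omega
    have h3 : n ≤ T ^ n.primeFactors.card := by
      conv_lhs => rw [self_eq hn0.ne']
      refine pow_card_le _ _ _ fun p hp => ?_
      exact hall p (Nat.prime_of_mem_primeFactors hp) (Nat.dvd_of_mem_primeFactors hp)
    have h4 : T ^ n.primeFactors.card ≤ T ^ K := Nat.pow_le_pow_right (by omega) (hω 0 (by omega))
    rw [← hTd] at hTn
    omega

lemma rep_two_add (l : ℕ) : rep 2 l + 1 = 2 ^ l := by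
  have := rep_mul (by norm_num : 1 ≤ 2) l
  omega

lemma two_mul_le {T : ℕ} (hT : 2 ≤ T) : 2 * T ≤ 2 ^ T := by
  induction T, hT using Nat.le_induction with
  | base => norm_num
  | succ T hT ih =>
    rw [pow_succ]
    omega

lemma val_small {N T : ℕ} (hN : N ≠ 0) (hNT : N ≤ 2 * T) (hT : 2 ≤ T) :
    N.factorization 2 ≤ T := by
  have h1 : 2 ^ N.factorization 2 ≤ N := Nat.ordProj_le 2 hN
  have h2 := two_mul_le hT
  exact (Nat.pow_le_pow_iff_right (by norm_num)).1 (h1.trans (hNT.trans h2))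

lemma val_bounds {m K n T k b : ℕ} (hm : 1 ≤ m) (S : Str m K n T k b) {j : ℕ} (hj : j < m)
    (hT : T < 2 ^ av n j) :
    av n j + 1 ≤ av n (nx m j + 1) ∧ av n (nx m j + 1) ≤ av n j + 1 + T * K := by
  classical
  obtain ⟨hb, hP, hE⟩ := S.h2 j hj hT
  have hj' : nx m j < m := nx_lt hm
  obtain ⟨P, hPd⟩ : ∃ P : ℕ, P = rep 2 (av n j + 1) := ⟨_, rfl⟩
  rw [← hPd] at hP hE
  have hN := (it_pos S.hn (nx m j)).ne'
  have hPm : P ∈ (it (nx m j) n).primeFactors := by
    refine Nat.mem_primeFactors.2 ⟨hP, ?_, hN⟩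
    exact (hP.dvd_iff_one_le_factorization hN).2 (by omega)
  have hval : av n (nx m j + 1) = ∑ p ∈ (it (nx m j) n).primeFactors,
      (rep p ((it (nx m j) n).factorization p + 1)).factorization 2 := by
    rw [av, it_succ, sigma_eq hN, Nat.factorization_prod
      (fun p hp => rep_ne_zero (Nat.prime_of_mem_primeFactors hp) (by omega))]
    exact Finsupp.finset_sum_apply _ _ _
  rw [← Finset.add_sum_erase _ _ hPm, hE] at hval
  have h2 : (rep P (1 + 1)).factorization 2 = av n j + 1 := by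
    have e1 : rep P (1 + 1) = 2 ^ (av n j + 1) := by
      have e2 := rep_two_add (av n j + 1)
      rw [← hPd] at e2
      rw [← e2, rep_succ, rep_succ', rep_zero]
      ring
    rw [e1, Nat.Prime.factorization_pow Nat.prime_two, Finsupp.single_eq_same]
  rw [h2] at hval
  refine ⟨by omega, ?_⟩
  have h3 : ∑ p ∈ (it (nx m j) n).primeFactors.erase P,
      (rep p ((it (nx m j) n).factorization p + 1)).factorization 2 ≤ K * T := by
    calc ∑ p ∈ (it (nx m j) n).primeFactors.erase P,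
          (rep p ((it (nx m j) n).factorization p + 1)).factorization 2 ≤
          ∑ _p ∈ (it (nx m j) n).primeFactors.erase P, T := by
          refine Finset.sum_le_sum fun p hp => ?_
          obtain ⟨hpP, hpm⟩ := Finset.mem_erase.1 hp
          have hpp := Nat.prime_of_mem_primeFactors hpm
          rcases S.h1 _ hj' p hpp (Nat.dvd_of_mem_primeFactors hpm) with h | h | h
          · refine val_small (rep_ne_zero hpp (by omega)) ?_ S.hT
            exact (rep_le_two hpp.two_le _).trans (by omega)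
          · rw [h.1]
            have h4 : ¬ 2 ∣ rep 2 ((it (nx m j) n).factorization 2 + 1) := by
              rw [rep_succ']
              omega
            rw [Nat.factorization_eq_zero_of_not_dvd h4]
            exact Nat.zero_le _
          · obtain ⟨j', d1, d2, d3, d4⟩ := h
            have := nx_inj hj d1 d2
            rw [← this, ← hPd] at d4
            exact absurd d4 hpP
      _ = ((it (nx m j) n).primeFactors.erase P).card * T := by
          rw [Finset.sum_const, smul_eq_mul]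
      _ ≤ K * T := Nat.mul_le_mul_right _
          ((Finset.card_le_card (Finset.erase_subset _ _)).trans (S.hω _ hj'))
  rw [hval, mul_comm T K]
  omega

lemma chain_step {m K n T k b : ℕ} (hm : 1 ≤ m) (S : Str m K n T k b) {j : ℕ} (hj : j < m)
    (hT : T < 2 ^ av n j) : T < 2 ^ av n (nx m j + 1) ∧ av n j < av n (nx m j + 1) ∧
      av n (nx m j + 1) ≤ av n j + 1 + T * K := by
  obtain ⟨h1, h2⟩ := val_bounds hm S hj hT
  refine ⟨?_, by omega, h2⟩
  exact hT.trans_le (Nat.pow_le_pow_right (by norm_num) (by omega))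

lemma chain_wrap {m K n T k b : ℕ} (hm : 1 ≤ m) (S : Str m K n T k b) (hb : 2 * T ≤ b) {j : ℕ}
    (hj : j < m) (hT : T < 2 ^ av n j) (heq : nx m j + 1 = m) : T < 2 ^ av n 0 := by
  obtain ⟨h1, h2⟩ := val_bounds hm S hj hT
  have h3 := (S.h2 j hj hT).1
  rw [heq] at h1
  have h4 : av n m = k.factorization 2 + av n 0 := by
    rw [av, S.hk, Nat.factorization_mul S.hk0.ne' S.hn.ne']
    rfl
  have h5 := val_small S.hk0.ne' (by have := S.hkT; omega : k ≤ 2 * T) S.hT
  have h6 : T < av n 0 := by omega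
  exact h6.trans Nat.lt_two_pow_self

lemma zero_mem {m K n T k b : ℕ} (hm : 1 ≤ m) (S : Str m K n T k b) (hb : 2 * T ≤ b) :
    T < 2 ^ av n 0 := by
  classical
  obtain ⟨j0, hj0, hT0⟩ := S.h3
  obtain ⟨j, hj, hmax⟩ := Finset.exists_max_image
    ((range m).filter fun j => T < 2 ^ av n j) (av n)
    ⟨j0, mem_filter.2 ⟨mem_range.2 hj0, hT0⟩⟩
  rw [mem_filter, mem_range] at hj
  obtain ⟨h1, h2, _⟩ := chain_step hm S hj.1 hj.2
  by_cases hc : nx m j + 1 < m
  · have := hmax (nx m j + 1) (mem_filter.2 ⟨mem_range.2 hc, h1⟩)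
    omega
  · have := nx_lt (j := j) hm
    exact chain_wrap hm S hb hj.1 hj.2 (by omega)

/-- For even `m` only the iterates of even order contain large powers of two. -/
lemma odd_notMem {m K n T k b : ℕ} (hm : 1 ≤ m) (hme : Even m) (S : Str m K n T k b) {j : ℕ}
    (hj : j < m) (hjo : Odd j) : 2 ^ av n j ≤ T := by
  classical
  by_contra hcon
  push Not at hcon
  obtain ⟨i, hi, hmax⟩ := Finset.exists_max_image
    ((range m).filter fun j => Odd j ∧ T < 2 ^ av n j) (av n)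
    ⟨j, mem_filter.2 ⟨mem_range.2 hj, hjo, hcon⟩⟩
  rw [mem_filter, mem_range] at hi
  obtain ⟨h1, h2, _⟩ := chain_step hm S hi.1 hi.2.2
  have h3 : nx m i + 1 < m ∧ Odd (nx m i + 1) := by
    obtain ⟨u, hu⟩ := hme
    obtain ⟨v, hv⟩ := hi.2.1
    have hi1 := hi.1
    unfold nx
    split_ifs with hc
    · exact ⟨by omega, ⟨v + 1, by omega⟩⟩
    · exact ⟨by omega, ⟨0, by omega⟩⟩
  have := hmax (nx m i + 1) (mem_filter.2 ⟨mem_range.2 h3.1, h3.2, h1⟩)
  omega

/-- The length of the chain. -/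
def rr (m : ℕ) : ℕ := if Even m then m / 2 else m

/-- The chain. -/
def lam (m t : ℕ) : ℕ := if 2 * t < m then 2 * t else 2 * t - m

lemma rr_cases (m : ℕ) : (m % 2 = 0 ∧ rr m = m / 2) ∨ (m % 2 = 1 ∧ rr m = m) := by
  unfold rr
  by_cases h : Even m
  · rw [if_pos h]
    exact Or.inl ⟨Nat.even_iff.1 h, rfl⟩
  · rw [if_neg h]
    exact Or.inr ⟨Nat.odd_iff.1 (Nat.not_even_iff_odd.1 h), rfl⟩

lemma lam_succ {m t : ℕ} (h : t + 1 < rr m) :
    lam m (t + 1) = nx m (lam m t) + 1 ∧ lam m (t + 1) < m := by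
  have h0 := rr_cases m
  unfold lam nx
  split_ifs <;> omega

lemma chain {m K n T k b : ℕ} (hm : 1 ≤ m) (S : Str m K n T k b) (hb : 2 * T ≤ b) (t : ℕ)
    (ht : t < rr m) : lam m t < m ∧ T < 2 ^ av n (lam m t) ∧
      (∀ s < t, av n (lam m s) < av n (lam m t)) ∧
      av n (lam m t) ≤ av n 0 + t * (1 + T * K) := by
  induction t with
  | zero =>
    have e : lam m 0 = 0 := by
      unfold lam
      split_ifs <;> omega
    rw [e]
    refine ⟨by omega, zero_mem hm S hb, fun s hs => absurd hs (Nat.not_lt_zero _), by omega⟩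
  | succ t ih =>
    obtain ⟨i1, i2, i3, i4⟩ := ih (by omega)
    obtain ⟨s1, s2⟩ := lam_succ ht
    obtain ⟨c1, c2, c3⟩ := chain_step hm S i1 i2
    rw [s1] at s2 ⊢
    refine ⟨s2, c1, ?_, ?_⟩
    · intro s hs
      rcases Nat.lt_succ_iff_lt_or_eq.1 hs with h | h
      · exact (i3 s h).trans c2
      · rw [h]
        exact c2
    · have e : (t + 1) * (1 + T * K) = t * (1 + T * K) + (1 + T * K) := by ring
      omega

end Pool.Agent.H58.MK
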