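import Pool.Agent.H58.MK.Dyn

/-!
# `(m,k)`-perfect numbers with a bounded number of prime factors: final statements
-/

set_option autoImplicit false

namespace Pool.Agent.H58.MK

open Finset

/-- Positive integers `n` with `n ∣ σ^m(n)` such that each of `n, σ(n), ..., σ^(m-1)(n)` has at most
`K` distinct prime factors. -/
def Cls (m K : ℕ) : Set ℕ :=
  {n | 0 < n ∧ n ∣ it m n ∧ ∀ j < m, (it j n).primeFactors.card ≤ K}

lemma master (m K : ℕ) (hm : 1 ≤ m) (β : ℕ → ℕ) : ∃ C : ℕ, ∀ n ∈ Cls m K, C < n →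
    ∃ T k : ℕ, T ≤ C ∧ Str m K n T k (2 * T + β T) := by
  obtain ⟨C, hC⟩ := structure2 m K hm (fun T => 2 * T + β T)
  exact ⟨C, fun n hn h => hC n h hn.2.1 hn.2.2⟩

/-- Bounded powers of two. -/
theorem finite_two (m K E : ℕ) (hm : 1 ≤ m) : {n ∈ Cls m K | ¬ 2 ^ E ∣ n}.Finite := by
  obtain ⟨C, hC⟩ := master m K hm (fun _ => E)
  refine (Set.finite_Iic C).subset ?_
  rintro n ⟨hn, h2⟩
  by_contra hcon
  have hcon' : C < n := by simpa using hcon
  obtain ⟨T, k, _, S⟩ := hC n hn hcon'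
  have h3 := zero_mem hm S (by omega)
  have h4 := (S.h2 0 (by omega) h3).1
  refine h2 ((Nat.prime_two.pow_dvd_iff_le_factorization S.hn.ne').2 ?_)
  have h5 : av n 0 = n.factorization 2 := rfl
  omega

lemma mers_iff (l : ℕ) : (rep 2 l).Prime ↔ (2 ^ l - 1).Prime := by
  have h := rep_two_add l
  have : rep 2 l = 2 ^ l - 1 := by omega
  rw [this]

/-- Clusters of Mersenne primes. -/
theorem cluster (m K : ℕ) (hm : 1 ≤ m) (hinf : (Cls m K).Infinite) : ∃ c : ℕ,
    {a : ℕ | rr m ≤ ((Finset.Icc a (a + c)).filter (fun l => (2 ^ l - 1).Prime)).card}.Infinite := by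
  by_contra hcon
  push Not at hcon
  have hb : ∀ c : ℕ, ∃ b : ℕ, ∀ a : ℕ,
      rr m ≤ ((Finset.Icc a (a + c)).filter (fun l => (2 ^ l - 1).Prime)).card → a ≤ b := by
    intro c
    obtain ⟨b, hb⟩ := (hcon c).bddAbove
    exact ⟨b, fun a ha => hb ha⟩
  choose b hb using hb
  obtain ⟨C, hC⟩ := master m K hm (fun T => b (rr m * (1 + T * K)))
  refine hinf ((Set.finite_Iic C).subset ?_)
  intro n hn
  by_contra hcon2
  have hcon' : C < n := by simpa using hcon2
  obtain ⟨T, k, _, S⟩ := hC n hn hcon'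
  have h3 := zero_mem hm S (by omega)
  have h4 := (S.h2 0 (by omega) h3).1
  have hch := chain hm S (by omega)
  have h5 := hb (rr m * (1 + T * K)) (av n 0 + 1) (by
    have hsub : ∀ t ∈ Finset.range (rr m), av n (lam m t) + 1 ∈
        (Finset.Icc (av n 0 + 1) (av n 0 + 1 + rr m * (1 + T * K))).filter
          (fun l => (2 ^ l - 1).Prime) := by
      intro t ht
      rw [Finset.mem_range] at ht
      obtain ⟨c1, c2, c3, c4⟩ := hch t ht
      have e0 : lam m 0 = 0 := by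
        unfold lam
        split_ifs <;> omega
      have c5 : av n 0 ≤ av n (lam m t) := by
        rcases Nat.eq_zero_or_pos t with h | h
        · rw [h, e0]
        · have := c3 0 h
          rw [e0] at this
          omega
      have c6 : t * (1 + T * K) ≤ rr m * (1 + T * K) := Nat.mul_le_mul_right _ ht.le
      refine Finset.mem_filter.2 ⟨Finset.mem_Icc.2 ⟨by omega, by omega⟩, ?_⟩
      exact (mers_iff _).1 (S.h2 _ c1 c2).2.1
    have hinj : Set.InjOn (fun t => av n (lam m t) + 1) (Finset.range (rr m) : Set ℕ) := by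
      intro s hs t ht h
      have hs' : s < rr m := by simpa using hs
      have ht' : t < rr m := by simpa using ht
      have h' : av n (lam m s) + 1 = av n (lam m t) + 1 := h
      rcases lt_trichotomy s t with h1 | h1 | h1
      · have := (hch t ht').2.2.1 s h1
        omega
      · exact h1
      · have := (hch s hs').2.2.1 t h1
        omega
    have := Finset.card_le_card_of_injOn _ hsub hinj
    rwa [Finset.card_range] at this)
  omega

lemma infinite_of_cluster {r c : ℕ} (hr : 1 ≤ r)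
    (h : {a : ℕ | r ≤ ((Finset.Icc a (a + c)).filter (fun l => (2 ^ l - 1).Prime)).card}.Infinite) :
    {l : ℕ | (2 ^ l - 1).Prime}.Infinite := by
  intro hfin
  obtain ⟨b, hb⟩ := hfin.bddAbove
  refine h ((Set.finite_Iic b).subset ?_)
  intro a ha
  have ha' : r ≤ ((Finset.Icc a (a + c)).filter (fun l => (2 ^ l - 1).Prime)).card := ha
  obtain ⟨l, hl⟩ := Finset.card_pos.1 (by omega :
    0 < ((Finset.Icc a (a + c)).filter (fun l => (2 ^ l - 1).Prime)).card)
  obtain ⟨h1, h2⟩ := Finset.mem_filter.1 hl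
  have h3 := hb h2
  have h4 := (Finset.mem_Icc.1 h1).1
  show a ≤ b
  omega

lemma pair_of_cluster {r c : ℕ} (hr : 2 ≤ r)
    (h : {a : ℕ | r ≤ ((Finset.Icc a (a + c)).filter (fun l => (2 ^ l - 1).Prime)).card}.Infinite) :
    ∃ d : ℕ, 1 ≤ d ∧ {l : ℕ | (2 ^ l - 1).Prime ∧ (2 ^ (l + d) - 1).Prime}.Infinite := by
  by_contra hcon
  push Not at hcon
  have hb : ∀ d : ℕ, ∃ b : ℕ, 1 ≤ d → ∀ l : ℕ, (2 ^ l - 1).Prime → (2 ^ (l + d) - 1).Prime →
      l ≤ b := by
    intro d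
    by_cases hd : 1 ≤ d
    · obtain ⟨b, hb⟩ := (hcon d hd).bddAbove
      exact ⟨b, fun _ l h1 h2 => hb ⟨h1, h2⟩⟩
    · exact ⟨0, fun h => absurd h hd⟩
  choose b hb using hb
  refine h ((Set.finite_Iic (∑ d ∈ Finset.range (c + 1), b d)).subset ?_)
  intro a ha
  have ha' : r ≤ ((Finset.Icc a (a + c)).filter (fun l => (2 ^ l - 1).Prime)).card := ha
  obtain ⟨l, hl, l', hl', hne⟩ := Finset.one_lt_card.1 (by omega :
    1 < ((Finset.Icc a (a + c)).filter (fun l => (2 ^ l - 1).Prime)).card)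
  obtain ⟨h1, h2⟩ := Finset.mem_filter.1 hl
  obtain ⟨h1', h2'⟩ := Finset.mem_filter.1 hl'
  rw [Finset.mem_Icc] at h1 h1'
  have key : ∀ u v : ℕ, u < v → a ≤ u → v ≤ a + c → (2 ^ u - 1).Prime → (2 ^ v - 1).Prime →
      a ≤ ∑ d ∈ Finset.range (c + 1), b d := by
    intro u v huv hu hv hpu hpv
    have e : v = u + (v - u) := by omega
    have h3 := hb (v - u) (by omega) u hpu (by rw [← e]; exact hpv)
    have h4 : b (v - u) ≤ ∑ d ∈ Finset.range (c + 1), b d :=
      Finset.single_le_sum (f := b) (fun _ _ => Nat.zero_le _)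
        (Finset.mem_range.2 (by omega))
    omega
  show a ≤ _
  rcases lt_or_gt_of_ne hne with h5 | h5
  · exact key l l' h5 h1.1 h1'.2 h2 h2'
  · exact key l' l h5 h1'.1 h1.2 h2' h2

lemma rr_pos {m : ℕ} (hm : 1 ≤ m) : 1 ≤ rr m := by
  have := rr_cases m
  omega

lemma rr_two {m : ℕ} (hm : 3 ≤ m) : 2 ≤ rr m := by
  have := rr_cases m
  omega

theorem pairs (m K : ℕ) (hm : 3 ≤ m) (hinf : (Cls m K).Infinite) :
    ∃ d : ℕ, 1 ≤ d ∧ {l : ℕ | (2 ^ l - 1).Prime ∧ (2 ^ (l + d) - 1).Prime}.Infinite := by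
  obtain ⟨c, hc⟩ := cluster m K (by omega) hinf
  exact pair_of_cluster (rr_two hm) hc

/-! ### The converse for `m = 1, 2` -/

lemma sigma_two_pow (a : ℕ) : ArithmeticFunction.sigma 1 (2 ^ a) = rep 2 (a + 1) := by
  rw [ArithmeticFunction.sigma_one_apply_prime_pow Nat.prime_two]
  rfl

lemma sigma_prime {p : ℕ} (hp : p.Prime) : ArithmeticFunction.sigma 1 p = p + 1 := by
  have h := ArithmeticFunction.sigma_one_apply_prime_pow (p := p) (i := 1) hp
  rw [pow_one] at h
  rw [h]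
  simp [Finset.sum_range_succ]
  ring

lemma card_two_pow (a : ℕ) : (2 ^ a).primeFactors.card ≤ 1 := by
  rcases Nat.eq_zero_or_pos a with h | h
  · subst h
    simp
  · rw [Nat.primeFactors_prime_pow h.ne' Nat.prime_two]
    simp

lemma mers_ge {l : ℕ} (h : (2 ^ l - 1).Prime) : 2 ≤ l := by
  by_contra hcon
  have : l = 0 ∨ l = 1 := by omega
  rcases this with h1 | h1
  · subst h1
    norm_num at h
  · subst h1
    norm_num at h

theorem cls_one_two {l : ℕ} (h : (2 ^ l - 1).Prime) : 2 ^ (l - 1) * (2 ^ l - 1) ∈ Cls 1 2 := by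
  have hl := mers_ge h
  obtain ⟨a, rfl⟩ := Nat.exists_eq_add_of_le' (by omega : 1 ≤ l)
  rw [Nat.add_sub_cancel]
  obtain ⟨P, hP⟩ : ∃ P : ℕ, P = 2 ^ (a + 1) - 1 := ⟨_, rfl⟩
  rw [← hP] at h ⊢
  have hpow : 1 ≤ 2 ^ (a + 1) := Nat.one_le_two_pow
  have hP1 : P + 1 = 2 ^ (a + 1) := by omega
  have hcop : Nat.Coprime (2 ^ a) P := by
    refine Nat.Coprime.pow_left _ ((Nat.coprime_primes Nat.prime_two h).2 ?_)
    intro h2
    rw [← h2] at hP1
    have : 2 ∣ 2 ^ (a + 1) := dvd_pow_self 2 (by omega)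
    omega
  refine ⟨Nat.mul_pos (Nat.pow_pos (by norm_num)) h.pos, ?_, ?_⟩
  · show 2 ^ a * P ∣ ArithmeticFunction.sigma 1 (2 ^ a * P)
    rw [ArithmeticFunction.isMultiplicative_sigma.map_mul_of_coprime hcop, sigma_two_pow,
      sigma_prime h]
    have e1 : rep 2 (a + 1) = P := by
      have := rep_two_add (a + 1)
      omega
    rw [e1, hP1, pow_succ]
    exact ⟨2, by ring⟩
  · intro j hj
    have hj0 : j = 0 := by omega
    subst hj0
    show (2 ^ a * P).primeFactors.card ≤ 2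
    rw [Nat.primeFactors_mul (by positivity) h.pos.ne']
    refine (Finset.card_union_le _ _).trans ?_
    have h1 := card_two_pow a
    have h2 : P.primeFactors.card ≤ 1 := by
      rw [h.primeFactors]
      simp
    omega

theorem cls_two_one {l : ℕ} (h : (2 ^ l - 1).Prime) : 2 ^ (l - 1) ∈ Cls 2 1 := by
  have hl := mers_ge h
  obtain ⟨a, rfl⟩ := Nat.exists_eq_add_of_le' (by omega : 1 ≤ l)
  rw [Nat.add_sub_cancel]
  obtain ⟨P, hP⟩ : ∃ P : ℕ, P = 2 ^ (a + 1) - 1 := ⟨_, rfl⟩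
  rw [← hP] at h
  have hpow : 1 ≤ 2 ^ (a + 1) := Nat.one_le_two_pow
  have hP1 : P + 1 = 2 ^ (a + 1) := by omega
  have e1 : rep 2 (a + 1) = P := by
    have := rep_two_add (a + 1)
    omega
  have i1 : it 1 (2 ^ a) = P := by
    show ArithmeticFunction.sigma 1 (2 ^ a) = P
    rw [sigma_two_pow, e1]
  have i2 : it 2 (2 ^ a) = P + 1 := by
    rw [it_succ, i1, sigma_prime h]
  refine ⟨Nat.pow_pos (by norm_num), ?_, ?_⟩
  · rw [i2, hP1]
    exact pow_dvd_pow 2 (by omega)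
  · intro j hj
    have hj0 : j = 0 ∨ j = 1 := by omega
    rcases hj0 with h1 | h1
    · subst h1
      exact card_two_pow a
    · subst h1
      rw [i1, h.primeFactors]
      simp

theorem iff_one : (∃ K, (Cls 1 K).Infinite) ↔ {l : ℕ | (2 ^ l - 1).Prime}.Infinite := by
  constructor
  · rintro ⟨K, hK⟩
    obtain ⟨c, hc⟩ := cluster 1 K le_rfl hK
    exact infinite_of_cluster (rr_pos le_rfl) hc
  · intro h
    refine ⟨2, ?_⟩
    have h1 : Set.InjOn (fun l : ℕ => 2 ^ (l - 1) * (2 ^ l - 1)) {l : ℕ | (2 ^ l - 1).Prime} := by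
      have hmono : ∀ u v : ℕ, 1 ≤ u → u < v →
          2 ^ (u - 1) * (2 ^ u - 1) < 2 ^ (v - 1) * (2 ^ v - 1) := by
        intro u v hu huv
        have e1 : 2 ^ (u - 1) ≤ 2 ^ (v - 1) := Nat.pow_le_pow_right (by norm_num) (by omega)
        have e2 : 2 ^ u < 2 ^ v := Nat.pow_lt_pow_right (by norm_num) huv
        have e3 : 0 < 2 ^ (u - 1) := Nat.pow_pos (by norm_num)
        have e4 : 1 ≤ 2 ^ u := Nat.one_le_two_pow
        calc 2 ^ (u - 1) * (2 ^ u - 1) < 2 ^ (u - 1) * (2 ^ v - 1) :=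
              Nat.mul_lt_mul_of_pos_left (by omega) e3
          _ ≤ 2 ^ (v - 1) * (2 ^ v - 1) := Nat.mul_le_mul_right _ e1
      intro u hu v hv huv
      have hu' := mers_ge hu
      have hv' := mers_ge hv
      have huv' : 2 ^ (u - 1) * (2 ^ u - 1) = 2 ^ (v - 1) * (2 ^ v - 1) := huv
      rcases lt_trichotomy u v with h1 | h1 | h1
      · have := hmono u v (by omega) h1
        omega
      · exact h1
      · have := hmono v u (by omega) h1
        omega
    refine (h.image h1).mono ?_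
    rintro _ ⟨l, hl, rfl⟩
    exact cls_one_two hl

theorem iff_two : (∃ K, (Cls 2 K).Infinite) ↔ {l : ℕ | (2 ^ l - 1).Prime}.Infinite := by
  constructor
  · rintro ⟨K, hK⟩
    obtain ⟨c, hc⟩ := cluster 2 K (by norm_num) hK
    exact infinite_of_cluster (rr_pos (by norm_num)) hc
  · intro h
    refine ⟨1, ?_⟩
    have h1 : Set.InjOn (fun l : ℕ => 2 ^ (l - 1)) {l : ℕ | (2 ^ l - 1).Prime} := by
      intro u hu v hv huv
      have hu' := mers_ge hu
      have hv' := mers_ge hv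
      have huv' : 2 ^ (u - 1) = 2 ^ (v - 1) := huv
      have := Nat.pow_right_injective (le_refl 2) huv'
      omega
    refine (h.image h1).mono ?_
    rintro _ ⟨l, hl, rfl⟩
    exact cls_two_one hl

/-! ### The form of the numbers -/

lemma odd_prod {S : Finset ℕ} {f : ℕ → ℕ} (hS : ∀ p ∈ S, p.Prime ∧ p ≠ 2) :
    Odd (∏ p ∈ S, p ^ f p) := by
  rw [← Nat.not_even_iff_odd, even_iff_two_dvd]
  intro h
  obtain ⟨p, hp, h2⟩ := (Nat.prime_two.prime.dvd_finset_prod_iff _).1 h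
  have h3 := Nat.prime_two.dvd_of_dvd_pow h2
  exact (hS p hp).2 ((Nat.prime_dvd_prime_iff_eq Nat.prime_two (hS p hp).1).1 h3).symm

lemma nx_eq_zero {m j : ℕ} (hj : j < m) (h : 0 = nx m j) : j = m - 1 := by
  unfold nx at h
  split_ifs at h
  omega

lemma even_form {m K n T k b : ℕ} (hm : 1 ≤ m) (hme : Even m) (S : Str m K n T k b)
    (hb : 2 * T ≤ b) : ∃ w : ℕ, n = 2 ^ av n 0 * w ∧ Odd w ∧ w ≤ T ^ K ∧
      w.primeFactors ⊆ n.primeFactors := by
  classical
  have hz := zero_mem hm S hb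
  have hn0 := S.hn.ne'
  have h2n : 2 ∈ n.primeFactors := by
    refine Nat.mem_primeFactors.2 ⟨Nat.prime_two, ?_, hn0⟩
    by_contra h3
    have h4 : av n 0 = 0 := Nat.factorization_eq_zero_of_not_dvd h3
    rw [h4, pow_zero] at hz
    have := S.hT
    omega
  have hself := self_eq hn0
  rw [← Finset.mul_prod_erase _ _ h2n] at hself
  refine ⟨∏ p ∈ n.primeFactors.erase 2, p ^ n.factorization p, hself, ?_, ?_, ?_⟩
  · refine odd_prod fun p hp => ?_
    obtain ⟨h1, h2⟩ := Finset.mem_erase.1 hp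
    exact ⟨Nat.prime_of_mem_primeFactors h2, h1⟩
  · refine (pow_card_le _ _ T fun p hp => ?_).trans
      (Nat.pow_le_pow_right (by have := S.hT; omega)
        ((Finset.card_le_card (Finset.erase_subset _ _)).trans (S.hω 0 (by omega))))
    obtain ⟨h1, h2⟩ := Finset.mem_erase.1 hp
    have hpp := Nat.prime_of_mem_primeFactors h2
    rcases S.h1 0 (by omega) p hpp (Nat.dvd_of_mem_primeFactors h2) with h | h | h
    · exact h
    · exact absurd h.1 h1
    · exfalso
      obtain ⟨j', d1, d2, d3, d4⟩ := h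
      have h5 := nx_eq_zero d1 d2
      have h6 := odd_notMem hm hme S d1 (by
        obtain ⟨u, hu⟩ := hme
        exact ⟨u - 1, by omega⟩)
      omega
  · refine Nat.primeFactors_mono ⟨2 ^ n.factorization 2, ?_⟩ hn0
    conv_lhs => rw [hself]
    ring

lemma odd_form {m K n T k b : ℕ} (hm : 1 ≤ m) (hmo : Odd m) (S : Str m K n T k b)
    (hb : 2 * T ≤ b) : ∃ w : ℕ, n = 2 ^ av n 0 * (rep 2 (av n (m - 1) + 1) * w) ∧ Odd w ∧
      w ≤ T ^ K ∧ (rep 2 (av n (m - 1) + 1)).Prime ∧ av n 0 ≤ av n (m - 1) ∧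
      av n (m - 1) ≤ av n 0 + m * (1 + T * K) := by
  classical
  have hz := zero_mem hm S hb
  have hn0 := S.hn.ne'
  obtain ⟨u, hu⟩ := hmo
  have hrr : rr m = m := by
    have := rr_cases m
    omega
  obtain ⟨c1, c2, c3, c4⟩ := chain hm S hb u (by omega)
  have hlam : lam m u = m - 1 := by
    unfold lam
    split_ifs <;> omega
  have e0 : lam m 0 = 0 := by
    unfold lam
    split_ifs <;> omega
  rw [hlam] at c1 c2 c3 c4
  have c5 : av n 0 ≤ av n (m - 1) := by
    rcases Nat.eq_zero_or_pos u with h | h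
    · have : m - 1 = 0 := by omega
      rw [this]
    · have := c3 0 h
      rw [e0] at this
      omega
  have c6 : av n (m - 1) ≤ av n 0 + m * (1 + T * K) := by
    have : u * (1 + T * K) ≤ m * (1 + T * K) := Nat.mul_le_mul_right _ (by omega)
    omega
  obtain ⟨d1, d2, d3⟩ := S.h2 (m - 1) c1 c2
  have hnx : nx m (m - 1) = 0 := by
    unfold nx
    split_ifs <;> omega
  rw [hnx] at d3
  obtain ⟨P, hP⟩ : ∃ P : ℕ, P = rep 2 (av n (m - 1) + 1) := ⟨_, rfl⟩
  rw [← hP] at d2 d3 ⊢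
  have h2n : 2 ∈ n.primeFactors := by
    refine Nat.mem_primeFactors.2 ⟨Nat.prime_two, ?_, hn0⟩
    by_contra h3
    have h4 : av n 0 = 0 := Nat.factorization_eq_zero_of_not_dvd h3
    rw [h4, pow_zero] at hz
    have := S.hT
    omega
  have hPn : P ∈ n.primeFactors := by
    refine Nat.mem_primeFactors.2 ⟨d2, ?_, hn0⟩
    refine (d2.dvd_iff_one_le_factorization hn0).2 ?_
    have : (it 0 n).factorization P = n.factorization P := rfl
    omega
  have hP2 : P ≠ 2 := by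
    intro h
    have h3 := rep_two_add (av n (m - 1) + 1)
    rw [← hP, h, pow_succ] at h3
    omega
  have hself := self_eq hn0
  rw [← Finset.mul_prod_erase _ _ h2n, ← Finset.mul_prod_erase _ _
    (Finset.mem_erase.2 ⟨hP2, hPn⟩)] at hself
  have hfP : n.factorization P = 1 := d3
  rw [hfP, pow_one] at hself
  refine ⟨∏ p ∈ (n.primeFactors.erase 2).erase P, p ^ n.factorization p, hself, ?_, ?_, d2, c5, c6⟩
  · refine odd_prod fun p hp => ?_
    obtain ⟨h1, h2⟩ := Finset.mem_erase.1 (Finset.mem_of_mem_erase hp)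
    exact ⟨Nat.prime_of_mem_primeFactors h2, h1⟩
  · refine (pow_card_le _ _ T fun p hp => ?_).trans
      (Nat.pow_le_pow_right (by have := S.hT; omega)
        ((Finset.card_le_card ((Finset.erase_subset _ _).trans (Finset.erase_subset _ _))).trans
          (S.hω 0 (by omega))))
    obtain ⟨h0, hp'⟩ := Finset.mem_erase.1 hp
    obtain ⟨h1, h2⟩ := Finset.mem_erase.1 hp'
    have hpp := Nat.prime_of_mem_primeFactors h2
    rcases S.h1 0 (by omega) p hpp (Nat.dvd_of_mem_primeFactors h2) with h | h | h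
    · exact h
    · exact absurd h.1 h1
    · exfalso
      obtain ⟨j', d1, d2, d3, d4⟩ := h
      have h5 := nx_eq_zero d1 d2
      rw [h5, ← hP] at d4
      exact h0 d4

theorem form (m K : ℕ) (hm : 1 ≤ m) : ∃ B : ℕ, ∀ n ∈ Cls m K, B < n →
    ∃ a d w : ℕ, d ≤ B ∧ w ≤ B ∧ Odd w ∧ (2 ^ (a + 1) - 1).Prime ∧
      ((Even m ∧ n = 2 ^ a * w) ∨
        (Odd m ∧ (2 ^ (a + d + 1) - 1).Prime ∧ n = 2 ^ a * (2 ^ (a + d + 1) - 1) * w)) := by
  obtain ⟨C, hC⟩ := master m K hm (fun _ => 0)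
  refine ⟨C + C ^ K + m * (1 + C * K), fun n hn hlt => ?_⟩
  obtain ⟨T, k, hTC, S⟩ := hC n hn (by omega)
  have hz := zero_mem hm S (by omega)
  have hp0 := (mers_iff _).1 (S.h2 0 (by omega) hz).2.1
  have hTK : T ^ K ≤ C ^ K := Nat.pow_le_pow_left hTC K
  rcases Nat.even_or_odd m with hme | hmo
  · obtain ⟨w, h1, h2, h3, _⟩ := even_form hm hme S (by omega)
    exact ⟨av n 0, 0, w, by omega, by omega, h2, hp0, Or.inl ⟨hme, h1⟩⟩
  · obtain ⟨w, h1, h2, h3, h4, h5, h6⟩ := odd_form hm hmo S (by omega)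
    have h7 : m * (1 + T * K) ≤ m * (1 + C * K) :=
      Nat.mul_le_mul_left _ (Nat.add_le_add_left (Nat.mul_le_mul_right _ hTC) _)
    have e1 : av n 0 + (av n (m - 1) - av n 0) + 1 = av n (m - 1) + 1 := by omega
    refine ⟨av n 0, av n (m - 1) - av n 0, w, by omega, by omega, h2, hp0, Or.inr ⟨hmo, ?_, ?_⟩⟩
    · rw [e1]
      exact (mers_iff _).1 h4
    · rw [e1]
      have e2 : rep 2 (av n (m - 1) + 1) = 2 ^ (av n (m - 1) + 1) - 1 := by
        have := rep_two_add (av n (m - 1) + 1)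
        omega
      rw [← e2, mul_assoc]
      exact h1

/-- The counting function. -/
theorem count (m K : ℕ) (hm : 1 ≤ m) : ∃ C : ℕ, ∀ x : ℕ, 1 ≤ x →
    {n ∈ Cls m K | n ≤ x}.ncard ≤ C * (Nat.log 2 x + 1) := by
  classical
  obtain ⟨B, hB⟩ := form m K hm
  refine ⟨(B + 1) + 2 * ((B + 1) * (B + 1)), fun x hx => ?_⟩
  obtain ⟨L, hL⟩ : ∃ L : ℕ, L = Nat.log 2 x := ⟨_, rfl⟩
  rw [← hL]
  obtain ⟨R, hR⟩ : ∃ R : Finset (ℕ × ℕ × ℕ), R = Finset.range (L + 1) ×ˢ
    (Finset.range (B + 1) ×ˢ Finset.range (B + 1)) := ⟨_, rfl⟩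
  have hRc : R.card = (L + 1) * ((B + 1) * (B + 1)) := by
    rw [hR, Finset.card_product, Finset.card_product, Finset.card_range, Finset.card_range]
  have hsub : {n ∈ Cls m K | n ≤ x} ⊆ ((Finset.range (B + 1) ∪
      (R.image (fun p => 2 ^ p.1 * p.2.2) ∪
        R.image (fun p => 2 ^ p.1 * (2 ^ (p.1 + p.2.1 + 1) - 1) * p.2.2)) : Finset ℕ) : Set ℕ) := by
    rintro n ⟨hn, hnx⟩
    rw [Finset.mem_coe, Finset.mem_union, Finset.mem_union]
    by_cases hc : n ≤ B
    · exact Or.inl (Finset.mem_range.2 (by omega))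
    · push Not at hc
      obtain ⟨a, d, w, h1, h2, h3, h4, h5⟩ := hB n hn hc
      have hw : 1 ≤ w := h3.pos
      have ha : 2 ^ a ≤ x := by
        refine le_trans ?_ hnx
        rcases h5 with h5 | h5
        · rw [h5.2]
          exact Nat.le_mul_of_pos_right _ hw
        · rw [h5.2.2]
          have : 0 < (2 ^ (a + d + 1) - 1) * w := Nat.mul_pos h5.2.1.pos hw
          rw [mul_assoc]
          exact Nat.le_mul_of_pos_right _ this
      have haL : a ≤ L := by
        rw [hL]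
        exact Nat.le_log_of_pow_le (by norm_num) ha
      have hmem : (a, d, w) ∈ R := by
        rw [hR, Finset.mem_product, Finset.mem_product, Finset.mem_range, Finset.mem_range,
          Finset.mem_range]
        exact ⟨by show a < L + 1; omega, by show d < B + 1; omega, by show w < B + 1; omega⟩
      rcases h5 with h5 | h5
      · exact Or.inr (Or.inl (Finset.mem_image.2 ⟨(a, d, w), hmem, h5.2.symm⟩))
      · exact Or.inr (Or.inr (Finset.mem_image.2 ⟨(a, d, w), hmem, h5.2.2.symm⟩))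
  have h1 := Set.ncard_le_ncard hsub (Finset.finite_toSet _)
  rw [Set.ncard_coe_finset] at h1
  refine h1.trans ?_
  refine (Finset.card_union_le _ _).trans ?_
  have h2 := Finset.card_union_le (R.image (fun p => 2 ^ p.1 * p.2.2))
    (R.image (fun p => 2 ^ p.1 * (2 ^ (p.1 + p.2.1 + 1) - 1) * p.2.2))
  have h3 := Finset.card_image_le (s := R) (f := fun p : ℕ × ℕ × ℕ => 2 ^ p.1 * p.2.2)
  have h4 := Finset.card_image_le (s := R)
    (f := fun p : ℕ × ℕ × ℕ => 2 ^ p.1 * (2 ^ (p.1 + p.2.1 + 1) - 1) * p.2.2)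
  rw [Finset.card_range]
  rw [hRc] at h3 h4
  have h5 : (B + 1) ≤ (B + 1) * (L + 1) := Nat.le_mul_of_pos_right _ (by omega)
  have h6 : (L + 1) * ((B + 1) * (B + 1)) = (B + 1) * (B + 1) * (L + 1) := by ring
  have h7 : ((B + 1) + 2 * ((B + 1) * (B + 1))) * (L + 1) =
      (B + 1) * (L + 1) + 2 * ((B + 1) * (B + 1) * (L + 1)) := by ring
  rw [h7]
  omega

/-- The case `m = 2`. -/
theorem super (K : ℕ) : ∃ B : ℕ, ∀ n ∈ Cls 2 K, B < n → ∃ a w : ℕ, n = 2 ^ a * w ∧ Odd w ∧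
    w ≤ B ∧ (2 ^ (a + 1) - 1).Prime ∧ w ∣ it 2 w := by
  obtain ⟨C, hC⟩ := master 2 K (by norm_num) (fun _ => 0)
  refine ⟨C + C ^ K, fun n hn hlt => ?_⟩
  obtain ⟨T, k, hTC, S⟩ := hC n hn (by omega)
  have hz := zero_mem (by norm_num) S (by omega)
  obtain ⟨g1, g2, g3⟩ := S.h2 0 (by norm_num) hz
  have hp0 := (mers_iff _).1 g2
  have hTK : T ^ K ≤ C ^ K := Nat.pow_le_pow_left hTC K
  obtain ⟨w, h1, h2, h3, _⟩ := even_form (by norm_num) (by decide) S (by omega)
  refine ⟨av n 0, w, h1, h2, by omega, hp0, ?_⟩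
  obtain ⟨a, ha⟩ : ∃ a : ℕ, a = av n 0 := ⟨_, rfl⟩
  obtain ⟨P, hP⟩ : ∃ P : ℕ, P = rep 2 (a + 1) := ⟨_, rfl⟩
  rw [← ha] at h1 g2 g3
  rw [← hP] at g2 g3
  have hP1 : P + 1 = 2 ^ (a + 1) := by rw [hP]; exact rep_two_add _
  have hw0 : 0 < w := h2.pos
  have hcop : Nat.Coprime (2 ^ a) w := Nat.Coprime.pow_left _ h2.coprime_two_left
  have i1 : it 1 n = P * it 1 w := by
    show ArithmeticFunction.sigma 1 n = P * ArithmeticFunction.sigma 1 w
    rw [h1, ArithmeticFunction.isMultiplicative_sigma.map_mul_of_coprime hcop, sigma_two_pow, hP]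
  have hw1 := (it_pos hw0 1).ne'
  have hcop2 : Nat.Coprime P (it 1 w) := by
    refine (Nat.Prime.coprime_iff_not_dvd g2).2 fun h => ?_
    have h4 : P ^ 2 ∣ it 1 n := by
      rw [i1, pow_two]
      exact mul_dvd_mul_left P h
    have h5 := (g2.pow_dvd_iff_le_factorization (it_pos S.hn 1).ne').1 h4
    have h6 : nx 2 0 = 1 := rfl
    rw [h6] at g3
    omega
  have i2 : it 2 n = 2 ^ (a + 1) * it 2 w := by
    rw [it_succ 1 n, i1, ArithmeticFunction.isMultiplicative_sigma.map_mul_of_coprime hcop2,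
      sigma_prime g2, hP1, it_succ 1 w]
  have h7 := hn.2.1
  rw [i2] at h7
  conv at h7 => lhs; rw [h1]
  rw [pow_succ, mul_assoc] at h7
  have h8 : w ∣ 2 * it 2 w := Nat.dvd_of_mul_dvd_mul_left (Nat.pow_pos (by norm_num)) h7
  exact (h2.coprime_two_right).dvd_of_dvd_mul_left h8

end Pool.Agent.H58.MK
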