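import Pool.Agent.H58.MK.Smooth

/-!
# Iterates of the sum of divisors: preliminaries
-/

set_option autoImplicit false

namespace Pool.Agent.H58.MK

open Finset

/-- A gap in a finite set of natural numbers. -/
lemma gap (V : Finset ℕ) (R : ℕ) (hV : V.card ≤ R) (t : ℕ → ℕ) (ht : Monotone t) :
    ∃ i ≤ R, ∀ v ∈ V, v ≤ t i ∨ t (i + 1) < v := by
  by_contra hcon
  push Not at hcon
  choose! v hv using hcon
  have hinj : Set.InjOn v (range (R + 1) : Set ℕ) := by
    have key : ∀ i j, i < R + 1 → j < R + 1 → i < j → v i ≠ v j := by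
      intro i j hi hj hij h
      have h1 := (hv i (by omega)).2.2
      have h2 := (hv j (by omega)).2.1
      have h3 := ht (show i + 1 ≤ j by omega)
      omega
    intro i hi j hj h
    have hi' : i < R + 1 := by simpa using hi
    have hj' : j < R + 1 := by simpa using hj
    rcases lt_trichotomy i j with h1 | h1 | h1
    · exact absurd h (key i j hi' hj' h1)
    · exact h1
    · exact absurd h.symm (key j i hj' hi' h1)
  have hsub : ∀ i ∈ range (R + 1), v i ∈ V := fun i hi => by
    have hi' : i < R + 1 := by simpa using hi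
    exact (hv i (by omega)).1
  have := Finset.card_le_card_of_injOn v hsub hinj
  rw [card_range] at this
  omega

lemma one_sub_sum_le {ι : Type*} (s : Finset ι) (x : ι → ℝ) (h0 : ∀ i ∈ s, 0 ≤ x i)
    (h1 : ∀ i ∈ s, x i ≤ 1) : 1 - ∑ i ∈ s, x i ≤ ∏ i ∈ s, (1 - x i) := by
  classical
  induction s using Finset.induction_on with
  | empty => simp
  | insert a s ha ih =>
    rw [sum_insert ha, prod_insert ha]
    have ih' := ih (fun i hi => h0 i (mem_insert_of_mem hi))
      (fun i hi => h1 i (mem_insert_of_mem hi))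
    have ha0 := h0 a (mem_insert_self a s)
    have ha1 := h1 a (mem_insert_self a s)
    have hS : 0 ≤ ∑ i ∈ s, x i := sum_nonneg fun i hi => h0 i (mem_insert_of_mem hi)
    have hP := mul_le_mul_of_nonneg_left ih' (sub_nonneg.2 ha1)
    nlinarith

lemma one_add_sum_le {ι : Type*} (s : Finset ι) (x : ι → ℝ) (h0 : ∀ i ∈ s, 0 ≤ x i) :
    1 + ∑ i ∈ s, x i ≤ ∏ i ∈ s, (1 + x i) := by
  classical
  induction s using Finset.induction_on with
  | empty => simp
  | insert a s ha ih =>
    rw [sum_insert ha, prod_insert ha]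
    have ih' := ih (fun i hi => h0 i (mem_insert_of_mem hi))
    have ha0 := h0 a (mem_insert_self a s)
    have hS : 0 ≤ ∑ i ∈ s, x i := sum_nonneg fun i hi => h0 i (mem_insert_of_mem hi)
    have hP := mul_le_mul_of_nonneg_left ih' (by linarith : 0 ≤ 1 + x a)
    nlinarith

/-- The iterates of the sum of divisors. -/
abbrev it (j n : ℕ) : ℕ := (⇑(ArithmeticFunction.sigma 1))^[j] n

lemma it_succ (j n : ℕ) : it (j + 1) n = ArithmeticFunction.sigma 1 (it j n) := by
  rw [it, Function.iterate_succ_apply']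

lemma sigma_pos' {n : ℕ} (hn : 0 < n) : 0 < ArithmeticFunction.sigma 1 n := by
  rw [ArithmeticFunction.sigma_one_apply]
  exact Finset.sum_pos (fun d hd => Nat.pos_of_mem_divisors hd) ⟨n, by simp [hn.ne']⟩

lemma it_pos {n : ℕ} (hn : 0 < n) (j : ℕ) : 0 < it j n := by
  induction j with
  | zero => exact hn
  | succ j ih =>
    rw [it_succ]
    exact sigma_pos' ih

lemma sigma_eq {n : ℕ} (hn : n ≠ 0) : ArithmeticFunction.sigma 1 n =
    ∏ p ∈ n.primeFactors, rep p (n.factorization p + 1) := by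
  rw [ArithmeticFunction.sigma_one_apply, Nat.sum_divisors hn]
  rfl

lemma self_eq {n : ℕ} (hn : n ≠ 0) : n = ∏ p ∈ n.primeFactors, p ^ n.factorization p := by
  conv_lhs => rw [← Nat.prod_factorization_pow_eq_self hn]
  rfl

/-- The prime powers exactly dividing the first `m` iterates. -/
def IX (m n : ℕ) : Finset (Σ _ : ℕ, ℕ) := (range m).sigma fun j => (it j n).primeFactors

/-- The exponents. -/
def ex (n : ℕ) (i : Σ _ : ℕ, ℕ) : ℕ := (it i.1 n).factorization i.2

lemma mem_IX {m n : ℕ} {i : Σ _ : ℕ, ℕ} (hn : 0 < n) :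
    i ∈ IX m n ↔ i.1 < m ∧ i.2.Prime ∧ i.2 ∣ it i.1 n := by
  rw [IX, Finset.mem_sigma, mem_range, Nat.mem_primeFactors]
  have := (it_pos hn i.1).ne'
  tauto

lemma card_IX {m n K : ℕ} (h : ∀ j < m, (it j n).primeFactors.card ≤ K) :
    (IX m n).card ≤ m * K := by
  rw [IX, Finset.card_sigma]
  calc ∑ j ∈ range m, (it j n).primeFactors.card ≤ ∑ _j ∈ range m, K :=
        Finset.sum_le_sum fun j hj => h j (mem_range.1 hj)
    _ = m * K := by simp

/-- The telescoping identity. -/
lemma telescope {m n k : ℕ} (hn : 0 < n) (hk : it m n = k * n) :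
    ∏ i ∈ IX m n, rep i.2 (ex n i + 1) = k * ∏ i ∈ IX m n, i.2 ^ ex n i := by
  have e1 : ∏ i ∈ IX m n, rep i.2 (ex n i + 1) = ∏ j ∈ range m, it (j + 1) n := by
    rw [IX, Finset.prod_sigma]
    refine prod_congr rfl fun j _ => ?_
    rw [it_succ, sigma_eq (it_pos hn j).ne']
    rfl
  have e2 : ∏ i ∈ IX m n, i.2 ^ ex n i = ∏ j ∈ range m, it j n := by
    rw [IX, Finset.prod_sigma]
    refine prod_congr rfl fun j _ => ?_
    conv_rhs => rw [self_eq (it_pos hn j).ne']
    rfl
  have e3 : (∏ j ∈ range m, it (j + 1) n) * it 0 n = (∏ j ∈ range m, it j n) * it m n := by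
    rw [← prod_range_succ (fun j => it j n), prod_range_succ' (fun j => it j n)]
  rw [e1, e2]
  have e4 : it 0 n = n := rfl
  rw [e4, hk] at e3
  have e5 : (∏ j ∈ range m, it (j + 1) n) * n = (k * ∏ j ∈ range m, it j n) * n := by
    rw [e3]
    ring
  exact Nat.eq_of_mul_eq_mul_right hn e5

end Pool.Agent.H58.MK
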