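import Mathlib

/-!
# Repunits in prime bases
-/

set_option autoImplicit false

namespace Pool.Agent.H58.MK

open Finset

/-- The repunit `1 + p + ... + p ^ (l - 1)` with `l` digits in base `p`. -/
def rep (p l : ℕ) : ℕ := ∑ k ∈ range l, p ^ k

lemma rep_zero (p : ℕ) : rep p 0 = 0 := by simp [rep]

lemma rep_succ (p l : ℕ) : rep p (l + 1) = rep p l + p ^ l := by
  rw [rep, sum_range_succ, rep]

lemma rep_succ' (p l : ℕ) : rep p (l + 1) = p * rep p l + 1 := by
  rw [rep, sum_range_succ', pow_zero, rep, mul_sum]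
  simp only [pow_succ']

lemma rep_mul {p : ℕ} (hp : 1 ≤ p) (l : ℕ) : (p - 1) * rep p l + 1 = p ^ l := by
  obtain ⟨q, rfl⟩ := Nat.exists_eq_add_of_le hp
  induction l with
  | zero => simp [rep_zero]
  | succ l ih =>
    rw [rep_succ, pow_succ]
    have : 1 + q - 1 = q := by omega
    rw [this] at ih ⊢
    nlinarith

lemma pow_le_rep (p l : ℕ) : p ^ l ≤ rep p (l + 1) := by
  rw [rep_succ]
  exact Nat.le_add_left _ _

lemma rep_lt_pow {p : ℕ} (hp : 2 ≤ p) (l : ℕ) : rep p l < p ^ l := by
  have h := rep_mul (by omega : 1 ≤ p) l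
  have : 1 * rep p l ≤ (p - 1) * rep p l := Nat.mul_le_mul_right _ (by omega)
  omega

lemma rep_le_two {p : ℕ} (hp : 2 ≤ p) (l : ℕ) : rep p (l + 1) ≤ 2 * p ^ l := by
  rw [rep_succ]
  have := rep_lt_pow hp l
  omega

lemma rep_coprime (p l : ℕ) : Nat.Coprime p (rep p (l + 1)) := by
  rw [rep_succ']
  simp

lemma rep_dvd {p : ℕ} (hp : 1 ≤ p) (l : ℕ) : rep p l ∣ p ^ l - 1 := by
  have h := rep_mul hp l
  refine ⟨p - 1, ?_⟩
  rw [mul_comm]
  omega

lemma rep_prod (p a b : ℕ) : rep p (a * b) = rep p b * rep (p ^ b) a := by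
  induction a with
  | zero => simp [rep_zero]
  | succ a ih =>
    have h : rep p (a * b + b) = rep p (a * b) + p ^ (a * b) * rep p b := by
      simp only [rep]
      rw [sum_range_add, mul_sum]
      simp only [pow_add]
    rw [Nat.succ_mul, h, ih, rep_succ, mul_add, ← pow_mul, mul_comm b a]
    ring

/-- A repunit with many digits which is a prime up to a small factor is a prime. -/
theorem rep_prime {p l s P S : ℕ} (hp : p.Prime) (hP : P.Prime) (h : rep p l = s * P)
    (hs : s ≤ S) (hl : (S + 2) ^ 2 < l) : l.Prime ∧ s = 1 := by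
  have hl2 : 2 ≤ l := by nlinarith
  have hs0 : 0 < s := by
    rcases Nat.eq_zero_or_pos s with h0 | h0
    · exfalso
      rw [h0, zero_mul] at h
      obtain ⟨l', rfl⟩ := Nat.exists_eq_add_of_le' (by omega : 1 ≤ l)
      have := pow_le_rep p l'
      have := Nat.pow_pos (n := l') hp.pos
      omega
    · exact h0
  have hlp : l.Prime := by
    by_contra hn
    set a := l.minFac with ha
    obtain ⟨b, hb⟩ := Nat.minFac_dvd l
    have ha2 : 2 ≤ a := (Nat.minFac_prime (by omega)).two_le
    have hab : a ^ 2 ≤ l := Nat.minFac_sq_le_self (by omega) hn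
    rw [← ha] at hb
    have hbpos : 0 < b := by
      rcases Nat.eq_zero_or_pos b with h0 | h0
      · rw [h0] at hb
        omega
      · exact h0
    have hle : a ≤ b := by
      by_contra hcon
      push Not at hcon
      have : a * b < a * a := Nat.mul_lt_mul_of_pos_left hcon (by omega)
      nlinarith
    have hbS : S + 2 < b := by
      by_contra hcon
      push Not at hcon
      have : a * b ≤ (S + 2) * (S + 2) := Nat.mul_le_mul (hle.trans hcon) hcon
      nlinarith
    rw [hb, rep_prod] at h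
    have hdiv : P ∣ rep p b * rep (p ^ b) a := ⟨s, by rw [h, mul_comm]⟩
    have h2b : b ≤ 2 ^ (b - 1) := by
      obtain ⟨b', rfl⟩ := Nat.exists_eq_add_of_le' (by omega : 1 ≤ b)
      have := Nat.lt_two_pow_self (n := b')
      simpa using this
    have hrb : b ≤ rep p b := by
      obtain ⟨b', rfl⟩ := Nat.exists_eq_add_of_le' (by omega : 1 ≤ b)
      refine h2b.trans ?_
      refine le_trans ?_ (pow_le_rep p b')
      simpa using Nat.pow_le_pow_left hp.two_le b'
    have hra : b ≤ rep (p ^ b) a := by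
      obtain ⟨a', ha'⟩ := Nat.exists_eq_add_of_le' ha2
      rw [ha']
      have e1 : (p ^ b) ^ 1 ≤ (p ^ b) ^ (a' + 1) :=
        Nat.pow_le_pow_right (Nat.pow_pos hp.pos) (by omega)
      have e2 := pow_le_rep (p ^ b) (a' + 1)
      have e3 : b < p ^ b := Nat.lt_pow_self hp.one_lt
      rw [pow_one] at e1
      have e4 : a' + 1 + 1 = a' + 2 := rfl
      rw [e4] at e2
      omega
    rcases (hP.dvd_mul).1 hdiv with ⟨t, ht⟩ | ⟨t, ht⟩
    · have : s = t * rep (p ^ b) a := by
        have h3 : P * s = P * (t * rep (p ^ b) a) := by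
          rw [mul_comm P s, ← h, ht]
          ring
        exact Nat.eq_of_mul_eq_mul_left hP.pos h3
      have ht0 : 0 < t := by
        rcases Nat.eq_zero_or_pos t with h0 | h0
        · rw [h0, zero_mul] at this
          omega
        · exact h0
      have : rep (p ^ b) a ≤ s := by
        rw [this]
        exact Nat.le_mul_of_pos_left _ ht0
      omega
    · have : s = rep p b * t := by
        have h3 : P * s = P * (rep p b * t) := by
          rw [mul_comm P s, ← h, ht]
          ring
        exact Nat.eq_of_mul_eq_mul_left hP.pos h3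
      have ht0 : 0 < t := by
        rcases Nat.eq_zero_or_pos t with h0 | h0
        · rw [h0, mul_zero] at this
          omega
        · exact h0
      have : rep p b ≤ s := by
        rw [this]
        exact Nat.le_mul_of_pos_right _ ht0
      omega
  refine ⟨hlp, ?_⟩
  by_contra hs1
  obtain ⟨r, hr, hrs⟩ := Nat.exists_prime_and_dvd hs1
  have hrS : r ≤ S := (Nat.le_of_dvd hs0 hrs).trans hs
  have hrl : r < l := by nlinarith
  have hrN : r ∣ rep p l := by
    rw [h]
    exact hrs.mul_right _
  have : Fact r.Prime := ⟨hr⟩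
  have hp0 : (p : ZMod r) ≠ 0 := by
    intro h0
    rw [ZMod.natCast_eq_zero_iff] at h0
    obtain ⟨l', rfl⟩ := Nat.exists_eq_add_of_le' (by omega : 1 ≤ l)
    have := Nat.dvd_gcd h0 hrN
    rw [rep_coprime p l'] at this
    exact hr.one_lt.ne' (Nat.dvd_one.1 this)
  have e1 : (p : ZMod r) ^ l = 1 := by
    have h1 := rep_mul hp.one_lt.le l
    have h2 : ((rep p l : ℕ) : ZMod r) = 0 := (ZMod.natCast_eq_zero_iff _ _).2 hrN
    have h3 := congrArg (fun x : ℕ => (x : ZMod r)) h1
    simp only [Nat.cast_add, Nat.cast_mul, h2, mul_zero, zero_add, Nat.cast_one,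
      Nat.cast_pow] at h3
    exact h3.symm
  have e2 : (p : ZMod r) ^ (r - 1) = 1 := ZMod.pow_card_sub_one_eq_one hp0
  have e3 : (p : ZMod r) = 1 := by
    have h1 : (p : ZMod r) ^ (Nat.gcd l (r - 1)) = 1 := pow_gcd_eq_one.2 ⟨e1, e2⟩
    have h2 : Nat.gcd l (r - 1) = 1 := by
      refine (Nat.Prime.coprime_iff_not_dvd hlp).2 fun h3 => ?_
      have := Nat.le_of_dvd (by have := hr.two_le; omega) h3
      omega
    rwa [h2, pow_one] at h1
  have e4 : ((rep p l : ℕ) : ZMod r) = (l : ZMod r) := by
    rw [rep]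
    push_cast
    rw [e3]
    simp
  rw [(ZMod.natCast_eq_zero_iff _ _).2 hrN] at e4
  have e5 : r ∣ l := (ZMod.natCast_eq_zero_iff _ _).1 e4.symm
  rcases (Nat.dvd_prime hlp).1 e5 with h1 | h1
  · exact hr.one_lt.ne' h1
  · omega

end Pool.Agent.H58.MK
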