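import Pool.Agent.H58.MK.Struct
import Pool.Agent.H58.MK.Double

/-!
# Rigidity: the large parts are Mersenne primes and the corresponding powers of two
-/

set_option autoImplicit false

namespace Pool.Agent.H58.MK

open Finset

lemma fr_ge2 {p e : ℕ} (hp : 2 ≤ p) (he : 2 ≤ e) :
    1 + 1 / (p : ℝ) + 1 / (p : ℝ) ^ 2 ≤ fr p e := by
  obtain ⟨e', rfl⟩ := Nat.exists_eq_add_of_le' he
  have hp0 : (0 : ℝ) < p := by
    have : 0 < p := by omega
    exact_mod_cast this
  rw [fr, rep_succ, rep_succ, rep_succ]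
  push_cast
  rw [le_div_iff₀ (by positivity)]
  have h1 : (1 + 1 / (p : ℝ) + 1 / (p : ℝ) ^ 2) * (p : ℝ) ^ (e' + 2) =
      (p : ℝ) ^ e' + (p : ℝ) ^ (e' + 1) + (p : ℝ) ^ (e' + 2) := by
    have e1 : (p : ℝ) ^ (e' + 2) = (p : ℝ) ^ e' * (p : ℝ) ^ 2 := by rw [pow_add]
    have e2 : (p : ℝ) ^ (e' + 1) = (p : ℝ) ^ e' * (p : ℝ) := by rw [pow_succ]
    rw [e1, e2]
    field_simp
    ring
  rw [h1]
  have : (0 : ℝ) ≤ (rep p e' : ℝ) := Nat.cast_nonneg _
  linarith

lemma good_factor {e E : ℕ} (hE : 1 ≤ E) (he : 1 ≤ e) :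
    1 ≤ (1 - 1 / (2 : ℝ) ^ (e + 1)) * fr (rep 2 (e + 1)) E ∧ (2 ≤ E →
      1 + 1 / ((rep 2 (e + 1) : ℝ) ^ 2 + rep 2 (e + 1)) ≤
        (1 - 1 / (2 : ℝ) ^ (e + 1)) * fr (rep 2 (e + 1)) E) := by
  obtain ⟨P, hP⟩ : ∃ P : ℕ, P = rep 2 (e + 1) := ⟨_, rfl⟩
  have h1 := rep_mul (by norm_num : 1 ≤ 2) (e + 1)
  have h2 : P + 1 = 2 ^ (e + 1) := by omega
  have h3 : 4 ≤ 2 ^ (e + 1) := by
    calc 4 = 2 ^ 2 := by norm_num
      _ ≤ 2 ^ (e + 1) := Nat.pow_le_pow_right (by norm_num) (by omega)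
  have hP2 : 2 ≤ P := by omega
  have hP0 : (0 : ℝ) < P := by
    have : 0 < P := by omega
    exact_mod_cast this
  have h4 : (2 : ℝ) ^ (e + 1) = P + 1 := by exact_mod_cast h2.symm
  rw [← hP, h4]
  have h5 : 1 - 1 / ((P : ℝ) + 1) = P / (P + 1) := by
    rw [eq_div_iff (by positivity), sub_mul, div_mul_cancel₀ _ (by positivity)]
    ring
  rw [h5]
  refine ⟨?_, fun hE2 => ?_⟩
  · have h6 := fr_ge hP2 hE
    calc (1 : ℝ) = P / (P + 1) * (1 + 1 / (P : ℝ)) := by field_simp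
      _ ≤ P / (P + 1) * fr P E := mul_le_mul_of_nonneg_left h6 (by positivity)
  · have h6 := fr_ge2 hP2 hE2
    calc 1 + 1 / ((P : ℝ) ^ 2 + P) = P / (P + 1) * (1 + 1 / (P : ℝ) + 1 / (P : ℝ) ^ 2) := by
          field_simp
      _ ≤ _ := mul_le_mul_of_nonneg_left h6 (by positivity)

lemma pow_step {m n k T : ℕ} (hk : it m n = k * n) (hk0 : 0 < k) (hkT : k ≤ T) {j : ℕ}
    (hj : j < m) {r : ℕ} (hr : r.Prime) (hrT : T < r) {a : ℕ} (hd : r ^ a ∣ it (j + 1) n) :
    r ^ a ∣ it (nx m j) n := by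
  unfold nx
  split_ifs with hc
  · exact hd
  · have hj1 : j + 1 = m := by omega
    rw [hj1, hk] at hd
    have h1 : Nat.Coprime (r ^ a) k := by
      refine Nat.Coprime.pow_left _ ((Nat.Prime.coprime_iff_not_dvd hr).2 fun h => ?_)
      have := Nat.le_of_dvd hk0 h
      omega
    exact h1.dvd_of_dvd_mul_left hd

lemma nx_lt {m j : ℕ} (hm : 1 ≤ m) : nx m j < m := by
  unfold nx
  split_ifs with h
  · exact h
  · omega

lemma rep_dvd_it {m n : ℕ} (hn : 0 < n) {i : Σ _ : ℕ, ℕ} (hi : i ∈ IX m n) :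
    rep i.2 (ex n i + 1) ∣ it (i.1 + 1) n := by
  obtain ⟨_, h4, h5⟩ := (mem_IX hn).1 hi
  rw [it_succ, sigma_eq (it_pos hn i.1).ne']
  exact Finset.dvd_prod_of_mem (fun p => rep p ((it i.1 n).factorization p + 1))
    (Nat.mem_primeFactors.2 ⟨h4, h5, (it_pos hn i.1).ne'⟩)

lemma rep_mul_dvd_it {m n : ℕ} (hn : 0 < n) {i i' : Σ _ : ℕ, ℕ} (hi : i ∈ IX m n)
    (hi' : i' ∈ IX m n) (h : i'.1 = i.1) (hne : i'.2 ≠ i.2) :
    rep i.2 (ex n i + 1) * rep i'.2 (ex n i' + 1) ∣ it (i.1 + 1) n := by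
  classical
  obtain ⟨_, h4, h5⟩ := (mem_IX hn).1 hi
  obtain ⟨_, h4', h5'⟩ := (mem_IX hn).1 hi'
  rw [it_succ, sigma_eq (it_pos hn i.1).ne']
  rw [← Finset.mul_prod_erase _ _ (Nat.mem_primeFactors.2 ⟨h4, h5, (it_pos hn i.1).ne'⟩)]
  have e : ex n i' = (it i.1 n).factorization i'.2 := by rw [ex, h]
  rw [e]
  refine mul_dvd_mul (dvd_refl _) ?_
  exact Finset.dvd_prod_of_mem (fun p => rep p ((it i.1 n).factorization p + 1))
    (Finset.mem_erase.2 ⟨hne, Nat.mem_primeFactors.2 ⟨h4', by rw [← h]; exact h5',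
      (it_pos hn i.1).ne'⟩⟩)

lemma cube_le {P : ℕ} (hP : 10 ≤ P) : P ^ 3 ≤ 2 ^ P := by
  induction P, hP using Nat.le_induction with
  | base => norm_num
  | succ P hP ih =>
    have e1 : (P + 1) ^ 3 = P ^ 3 + 3 * P ^ 2 + 3 * P + 1 := by ring
    have e2 : 10 * P ^ 2 ≤ P ^ 3 := by
      rw [pow_succ P 2, mul_comm]
      exact Nat.mul_le_mul_left _ hP
    have e3 : 10 * P ≤ P ^ 2 := by
      rw [pow_two]
      exact Nat.mul_le_mul_right _ hP
    rw [pow_succ 2]
    omega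

theorem rigid {m K n k M T W L D : ℕ} (hm : 1 ≤ m) (hM : m * K ≤ M) (hM1 : 1 ≤ M) (hn : 0 < n)
    (hω : ∀ j < m, (it j n).primeFactors.card ≤ K) (hk : it m n = k * n)
    (hT : 2 ^ M ≤ T) (hW : M * (2 * T) ^ M < W) (hW4 : 4 * M < W) (hW12 : 12 * M ^ 2 < W)
    (hWD : D < W) (hW16 : 16 < W)
    (hL : ∀ b : ℕ, L < b → (T ^ T * b ^ 2) ^ T < 2 ^ (b - 1))
    (hD : ∀ p q l l' : ℕ, p.Prime → q.Prime → p ≤ T → q ≤ T → p ≠ q → rep p l = rep q l' →
      rep q l' ≤ D)
    (hE : ∀ p e : ℕ, p.Prime → p ≤ T → W < p ^ e →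
      (L + 1) ^ 2 < e + 1 ∧ 2 * L + 6 < e + 1 ∧ T < e + 1 ∧ (8 * M ^ 2 + 2) ^ 2 < e + 1)
    (h1 : ∀ i ∈ IX m n, i.2 ^ ex n i ≤ T ∨ W < i.2 ^ ex n i)
    (h2 : ∀ i ∈ IX m n, i.2 ≤ T ∨ W < i.2) :
    k ≤ 2 ^ M ∧ (∀ i ∈ IX m n, T < i.2 ^ ex n i → i.2 ≤ T →
      i.2 = 2 ∧ (rep 2 (ex n i + 1)).Prime ∧ ex n ⟨nx m i.1, rep 2 (ex n i + 1)⟩ = 1 ∧
        (⟨nx m i.1, rep 2 (ex n i + 1)⟩ : Σ _ : ℕ, ℕ) ∈ IX m n) ∧
    (∀ i ∈ IX m n, T < i.2 → ∃ i' ∈ IX m n, i'.2 = 2 ∧ T < 2 ^ ex n i' ∧ i.1 = nx m i'.1 ∧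
      i.2 = rep 2 (ex n i' + 1)) := by
  classical
  have hT2 : 2 ≤ T := by
    refine le_trans ?_ hT
    calc 2 = 2 ^ 1 := by norm_num
      _ ≤ 2 ^ M := Nat.pow_le_pow_right (by norm_num) hM1
  have hT1 : 1 ≤ T := by omega
  have hTW : T ≤ W := by
    have : T ^ 1 ≤ (2 * T) ^ M := (Nat.pow_le_pow_left (by omega) 1).trans
      (Nat.pow_le_pow_right (by omega) hM1)
    rw [pow_one] at this
    have h6 : 1 * (2 * T) ^ M ≤ M * (2 * T) ^ M := Nat.mul_le_mul_right _ hM1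
    omega
  have hI : (IX m n).card ≤ M := (card_IX hω).trans hM
  have hmem := fun i => @mem_IX m n i hn
  have hp2 : ∀ i ∈ IX m n, 2 ≤ i.2 := fun i hi => ((hmem i).1 hi).2.1.two_le
  have he1 : ∀ i ∈ IX m n, 1 ≤ ex n i := by
    intro i hi
    obtain ⟨_, h4, h5⟩ := (hmem i).1 hi
    exact (h4.dvd_iff_one_le_factorization (it_pos hn i.1).ne').1 h5
  obtain ⟨hk2, hXY⟩ := balance (IX m n) (fun i => i.2) (ex n) hp2 he1 k M T W hI hT1 hW
    (telescope hn hk) h1 h2
  refine ⟨hk2, ?_⟩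
  have hkT : k ≤ T := hk2.trans hT
  have hk0 : 0 < k := by
    rcases Nat.eq_zero_or_pos k with h | h
    · have := it_pos hn m
      rw [hk, h, zero_mul] at this
      omega
    · exact h
  set S1 := (IX m n).filter (fun i => T < i.2 ^ ex n i ∧ i.2 ≤ T) with hS1
  set S2 := (IX m n).filter (fun i => T < i.2) with hS2
  have hS1I : ∀ i ∈ S1, i ∈ IX m n := fun i hi => (mem_filter.1 hi).1
  have hS2I : ∀ i ∈ S2, i ∈ IX m n := fun i hi => (mem_filter.1 hi).1
  have hlarge : ∀ i ∈ S1, W < i.2 ^ ex n i := fun i hi =>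
    (h1 i (hS1I i hi)).resolve_left (by have := (mem_filter.1 hi).2.1; omega)
  -- membership in `S2`
  have hstep : ∀ j < m, ∀ r : ℕ, r.Prime → T < r → r ∣ it (j + 1) n →
      (⟨nx m j, r⟩ : Σ _ : ℕ, ℕ) ∈ S2 := by
    intro j hj r hr hrT hd
    refine mem_filter.2 ⟨?_, hrT⟩
    rw [hmem]
    refine ⟨nx_lt hm, hr, ?_⟩
    have h3 := pow_step hk hk0 hkT hj hr hrT (a := 1) (by rw [pow_one]; exact hd)
    rw [pow_one] at h3
    exact h3
  let φ : (Σ _ : ℕ, ℕ) → (Σ _ : ℕ, ℕ) := fun i => ⟨nx m i.1, rep i.2 (ex n i + 1)⟩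
  have hφ1 : ∀ i, (φ i).1 = nx m i.1 := fun i => rfl
  have hφ2 : ∀ i, (φ i).2 = rep i.2 (ex n i + 1) := fun i => rfl
  set GH := S1.filter (fun i => i.2 = 2 ∧ (rep 2 (ex n i + 1)).Prime) with hGH
  have hG1 : ∀ i ∈ GH, i ∈ S1 := fun i hi => (mem_filter.1 hi).1
  have hG2 : ∀ i ∈ GH, i.2 = 2 := fun i hi => (mem_filter.1 hi).2.1
  have hG3 : ∀ i ∈ GH, (rep 2 (ex n i + 1)).Prime := fun i hi => (mem_filter.1 hi).2.2
  have hWrep : ∀ i ∈ S1, W < rep i.2 (ex n i + 1) := fun i hi =>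
    (hlarge i hi).trans_le (pow_le_rep _ _)
  have hGφ : ∀ i ∈ GH, φ i ∈ S2 := by
    intro i hi
    have hi1 := hG1 i hi
    have hiI := hS1I i hi1
    have h3 := hWrep i hi1
    have h4 := rep_dvd_it hn hiI
    refine hstep i.1 ((hmem i).1 hiI).1 _ ?_ (by omega) h4
    rw [hG2 i hi]
    exact hG3 i hi
  have hφG : Set.InjOn φ (GH : Set (Σ _ : ℕ, ℕ)) := by
    intro i hi i' hi' h
    have hi1 : i ∈ GH := hi
    have hi1' : i' ∈ GH := hi'
    have h3 : nx m i.1 = nx m i'.1 := congrArg (fun x : Σ _ : ℕ, ℕ => x.1) h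
    have h5 := nx_inj ((hmem i).1 (hS1I i (hG1 i hi1))).1
      ((hmem i').1 (hS1I i' (hG1 i' hi1'))).1 h3
    exact Sigma.ext h5 (heq_of_eq ((hG2 i hi1).trans (hG2 i' hi1').symm))
  set U := S1 \ GH with hU
  set V := S2 \ GH.image φ with hV
  have hUS : ∀ i ∈ U, i ∈ S1 := fun i hi => (mem_sdiff.1 hi).1
  have hVS : ∀ i ∈ V, i ∈ S2 := fun i hi => (mem_sdiff.1 hi).1
  have hGS1 : GH ⊆ S1 := fun i hi => hG1 i hi
  have hGS2 : GH.image φ ⊆ S2 := by
    intro x hx
    obtain ⟨i, hi, rfl⟩ := Finset.mem_image.1 hx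
    exact hGφ i hi
  obtain ⟨X, hX⟩ : ∃ X : ℝ, X = ∏ i ∈ U, (1 - 1 / (i.2 : ℝ) ^ (ex n i + 1)) := ⟨_, rfl⟩
  obtain ⟨Y, hY⟩ : ∃ Y : ℝ, Y = ∏ i ∈ V, fr i.2 (ex n i) := ⟨_, rfl⟩
  obtain ⟨G, hG⟩ : ∃ G : ℝ, G = ∏ i ∈ GH, ((1 - 1 / (2 : ℝ) ^ (ex n i + 1)) *
    fr (rep 2 (ex n i + 1)) (ex n (φ i))) := ⟨_, rfl⟩
  have hid : X * (G * Y) = 1 := by
    rw [← Finset.prod_sdiff hGS1, ← Finset.prod_sdiff hGS2, ← hU, ← hV, ← hX, ← hY,
      Finset.prod_image (fun i hi i' hi' h => hφG hi hi' h)] at hXY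
    have e1 : G = (∏ i ∈ GH, (1 - 1 / (i.2 : ℝ) ^ (ex n i + 1))) *
        ∏ i ∈ GH, fr (φ i).2 (ex n (φ i)) := by
      rw [hG, ← Finset.prod_mul_distrib]
      refine prod_congr rfl fun i hi => ?_
      rw [hφ2, hG2 i hi]
      norm_num
    calc X * (G * Y) = _ := by
          rw [e1]
          ring
      _ = 1 := hXY
  -- the factors of `G`
  have hgE : ∀ i ∈ GH, 1 ≤ ex n (φ i) := fun i hi => he1 _ (hS2I _ (hGφ i hi))
  have hge : ∀ i ∈ GH, 1 ≤ ex n i := fun i hi => he1 _ (hS1I _ (hG1 i hi))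
  have hgi : ∀ i ∈ GH, (1 : ℝ) ≤ (1 - 1 / (2 : ℝ) ^ (ex n i + 1)) *
      fr (rep 2 (ex n i + 1)) (ex n (φ i)) := fun i hi =>
    (good_factor (hgE i hi) (hge i hi)).1
  have hG1' : 1 ≤ G := by
    rw [hG]
    calc (1 : ℝ) = ∏ _x ∈ GH, (1 : ℝ) := by rw [prod_const_one]
      _ ≤ _ := Finset.prod_le_prod (fun x _ => zero_le_one) (fun x hx => hgi x hx)
  have hGi : ∀ i ∈ GH, (1 - 1 / (2 : ℝ) ^ (ex n i + 1)) *
      fr (rep 2 (ex n i + 1)) (ex n (φ i)) ≤ G := by
    intro i hi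
    rw [hG, ← Finset.mul_prod_erase GH _ hi]
    have h3 : (1 : ℝ) ≤ ∏ x ∈ GH.erase i, ((1 - 1 / (2 : ℝ) ^ (ex n x + 1)) *
        fr (rep 2 (ex n x + 1)) (ex n (φ x))) := by
      calc (1 : ℝ) = ∏ _x ∈ GH.erase i, (1 : ℝ) := by rw [prod_const_one]
        _ ≤ _ := Finset.prod_le_prod (fun x _ => zero_le_one)
            (fun x hx => hgi x (mem_of_mem_erase hx))
    have h4 := hgi i hi
    nlinarith
  have hY1 : 1 ≤ Y := by
    rw [hY]
    calc (1 : ℝ) = ∏ _i ∈ V, (1 : ℝ) := by rw [prod_const_one]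
      _ ≤ _ := Finset.prod_le_prod (fun i hi => zero_le_one)
          (fun i hi => fr_one_le (hp2 i (hS2I i (hVS i hi))) _)
  have hYi : ∀ i ∈ V, fr i.2 (ex n i) ≤ Y := by
    intro i hi
    rw [hY, ← Finset.mul_prod_erase V _ hi]
    have h3 : (1 : ℝ) ≤ ∏ x ∈ V.erase i, fr x.2 (ex n x) := by
      calc (1 : ℝ) = ∏ _x ∈ V.erase i, (1 : ℝ) := by rw [prod_const_one]
        _ ≤ _ := Finset.prod_le_prod (fun x _ => zero_le_one)
            (fun x hx => fr_one_le (hp2 x (hS2I x (hVS x (mem_of_mem_erase hx)))) _)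
    have h4 := fr_pos (hp2 i (hS2I i (hVS i hi))) (ex n i)
    nlinarith
  -- the main claim
  have hUe : U = ∅ := by
    by_contra hne0
    have hne : U.Nonempty := Finset.nonempty_iff_ne_empty.2 hne0
    obtain ⟨i0, hi0, hmin⟩ := Finset.exists_min_image U (fun i => i.2 ^ (ex n i + 1)) hne
    obtain ⟨q, hq⟩ : ∃ q : ℕ, q = i0.2 ^ (ex n i0 + 1) := ⟨_, rfl⟩
    have hqW : W < q := by
      rw [hq]
      refine (hlarge i0 (hUS i0 hi0)).trans_le ?_
      exact Nat.pow_le_pow_right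
        (by have := hp2 i0 (hS1I i0 (hUS i0 hi0)); omega) (by omega)
    have hqr : (0 : ℝ) < q := by
      have : 0 < q := by omega
      exact_mod_cast this
    have hMr : (1 : ℝ) ≤ M := by exact_mod_cast hM1
    have hminq : ∀ i ∈ U, q ≤ i.2 ^ (ex n i + 1) := fun i hi => by
      rw [hq]
      exact hmin i hi
    have hterm : ∀ i ∈ U, 1 / (i.2 : ℝ) ^ (ex n i + 1) ≤ 1 / (q : ℝ) := fun i hi => by
      refine one_div_le_one_div_of_le hqr ?_
      exact_mod_cast hminq i hi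
    have hterm0 : ∀ i ∈ U, 0 ≤ 1 / (i.2 : ℝ) ^ (ex n i + 1) := fun i hi => by positivity
    have hq1 : (1 : ℝ) ≤ q := by
      have : 1 ≤ q := by omega
      exact_mod_cast this
    have hterm1 : ∀ i ∈ U, 1 / (i.2 : ℝ) ^ (ex n i + 1) ≤ 1 := fun i hi =>
      (hterm i hi).trans (by rw [div_le_one hqr]; exact hq1)
    have hXge := one_sub_sum_le U (fun i => 1 / (i.2 : ℝ) ^ (ex n i + 1)) hterm0 hterm1
    rw [← hX] at hXge
    have hUM : (U.card : ℝ) ≤ M := by
      have h3 : U.card ≤ M := by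
        refine le_trans (Finset.card_le_card fun i hi => ?_) hI
        exact hS1I i (hUS i hi)
      exact_mod_cast h3
    have hXM : 1 - (M : ℝ) / q ≤ X := by
      have h5 : ∑ i ∈ U, 1 / (i.2 : ℝ) ^ (ex n i + 1) ≤ (M : ℝ) / q := by
        calc ∑ i ∈ U, 1 / (i.2 : ℝ) ^ (ex n i + 1) ≤ ∑ _i ∈ U, 1 / (q : ℝ) :=
              Finset.sum_le_sum hterm
          _ = U.card * (1 / (q : ℝ)) := by rw [sum_const, nsmul_eq_mul]
          _ ≤ M * (1 / (q : ℝ)) := mul_le_mul_of_nonneg_right hUM (by positivity)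
          _ = (M : ℝ) / q := by ring
      linarith
    have hX0 : 0 ≤ X := by
      rw [hX]
      refine Finset.prod_nonneg fun x hx => ?_
      have := hterm1 x hx
      linarith
    -- a general bound
    have hbound : ∀ Z : ℕ, 0 < Z → 1 + 1 / (Z : ℝ) ≤ G * Y → q ≤ M * (Z + 1) := by
      intro Z hZ h3
      have hZr : (0 : ℝ) < Z := by exact_mod_cast hZ
      have h4 : X * (1 + 1 / (Z : ℝ)) ≤ 1 := by
        calc X * (1 + 1 / (Z : ℝ)) ≤ X * (G * Y) := mul_le_mul_of_nonneg_left h3 hX0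
          _ = 1 := hid
      have h5 : (1 - (M : ℝ) / q) * (1 + 1 / (Z : ℝ)) ≤ 1 :=
        (mul_le_mul_of_nonneg_right hXM (by positivity)).trans h4
      have h6 : (q : ℝ) ≤ M * (Z + 1) := by
        have e1 : (1 - (M : ℝ) / q) * (1 + 1 / (Z : ℝ)) * (q * Z) =
            (q - M) * (Z + 1) := by
          field_simp
        have e2 : (1 - (M : ℝ) / q) * (1 + 1 / (Z : ℝ)) * (q * Z) ≤ 1 * (q * Z) :=
          mul_le_mul_of_nonneg_right h5 (by positivity)
        rw [e1] at e2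
        nlinarith
      exact_mod_cast h6
    have hVq : ∀ i ∈ V, q ≤ 2 * M * i.2 := by
      intro i hi
      have hiI := hS2I i (hVS i hi)
      have hPpos : 1 ≤ i.2 := by have := hp2 i hiI; omega
      have h3 := (fr_ge (hp2 i hiI) (he1 i hiI)).trans (hYi i hi)
      have h4 : Y ≤ G * Y := by nlinarith
      have h7 := hbound i.2 (by omega) (h3.trans h4)
      refine h7.trans ?_
      nlinarith
    have hGq : ∀ i ∈ GH, 2 ≤ ex n (φ i) → q ≤ 3 * M * (rep 2 (ex n i + 1)) ^ 2 := by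
      intro i hi hE2
      obtain ⟨P, hP⟩ : ∃ P : ℕ, P = rep 2 (ex n i + 1) := ⟨_, rfl⟩
      have h3 := (good_factor (hgE i hi) (hge i hi)).2 hE2
      have h4 := h3.trans (hGi i hi)
      have h5 : G ≤ G * Y := by nlinarith
      rw [← hP] at h4 ⊢
      have hP1 : 1 ≤ P := by
        have := hWrep i (hG1 i hi)
        rw [hG2 i hi, ← hP] at this
        omega
      have h7 := hbound (P ^ 2 + P) (by omega) (by
        push_cast
        exact h4.trans h5)
      refine h7.trans ?_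
      nlinarith
    -- the near indices
    have hnear : ∀ i ∈ U, i.2 ^ (ex n i + 1) ≤ 4 * M * q →
        i.2 ≠ 2 ∧ (rep i.2 (ex n i + 1)).Prime ∧ φ i ∈ V := by
      intro i hi hiq
      have hi1 := hUS i hi
      have hiI := hS1I i hi1
      obtain ⟨him, hip, hid'⟩ := (hmem i).1 hiI
      have hiT := (mem_filter.1 hi1).2.2
      obtain ⟨f1, f2, f3, f4⟩ := hE i.2 (ex n i) hip hiT (hlarge i hi1)
      have hrlt := rep_lt_pow hip.two_le (ex n i + 1)
      by_cases hA : ∃ r : ℕ, r.Prime ∧ r ∣ rep i.2 (ex n i + 1) ∧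
          (⟨nx m i.1, r⟩ : Σ _ : ℕ, ℕ) ∈ V
      · obtain ⟨r, hr, hrd, hrV⟩ := hA
        have hqr' := hVq _ hrV
        obtain ⟨s, hs⟩ := hrd
        have hs' : rep i.2 (ex n i + 1) = s * r := by rw [hs, mul_comm]
        have hsle : s ≤ 8 * M ^ 2 := by
          have g2 : s * r ≤ 8 * M ^ 2 * r := by
            rw [← hs']
            calc rep i.2 (ex n i + 1) ≤ i.2 ^ (ex n i + 1) := hrlt.le
              _ ≤ 4 * M * q := hiq
              _ ≤ 4 * M * (2 * M * r) := Nat.mul_le_mul_left _ hqr'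
              _ = 8 * M ^ 2 * r := by ring
          exact Nat.le_of_mul_le_mul_right g2 hr.pos
        obtain ⟨g1, g2⟩ := rep_prime hip hr hs' hsle f4
        have g3 : rep i.2 (ex n i + 1) = r := by rw [hs', g2, one_mul]
        refine ⟨?_, by rw [g3]; exact hr, ?_⟩
        · intro hi2
          refine (mem_sdiff.1 hi).2 (mem_filter.2 ⟨hi1, hi2, ?_⟩)
          rw [← hi2, g3]
          exact hr
        · have : φ i = (⟨nx m i.1, r⟩ : Σ _ : ℕ, ℕ) := by
            show (⟨nx m i.1, rep i.2 (ex n i + 1)⟩ : Σ _ : ℕ, ℕ) = _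
            rw [g3]
          rw [this]
          exact hrV
      · exfalso
        push Not at hA
        -- all large prime factors are the same Mersenne prime
        have hLl : L < ex n i + 1 := by
          have : L + 1 ≤ (L + 1) ^ 2 := Nat.le_self_pow (by norm_num) _
          omega
        obtain ⟨r, hr, hrT, hrd⟩ := large_prime hip hiT hL hLl
        have hkey : ∀ u : ℕ, u.Prime → T < u → u ∣ rep i.2 (ex n i + 1) →
            ∃ g ∈ GH, g.1 = i.1 ∧ u = rep 2 (ex n g + 1) := by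
          intro u hu huT hud
          have h3 := hstep i.1 him u hu huT (hud.trans (rep_dvd_it hn hiI))
          have h4 := hA u hu hud
          have h5 : (⟨nx m i.1, u⟩ : Σ _ : ℕ, ℕ) ∈ GH.image φ := by
            by_contra h6
            exact h4 (mem_sdiff.2 ⟨h3, h6⟩)
          obtain ⟨g, hg, hgφ⟩ := Finset.mem_image.1 h5
          have h6 : nx m g.1 = nx m i.1 := congrArg (fun x : Σ _ : ℕ, ℕ => x.1) hgφ
          have h7 : rep g.2 (ex n g + 1) = u := congrArg (fun x : Σ _ : ℕ, ℕ => x.2) hgφ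
          refine ⟨g, hg, nx_inj ((hmem g).1 (hS1I g (hG1 g hg))).1 him h6, ?_⟩
          rw [← h7, hG2 g hg]
        obtain ⟨g, hg, hg1, hgr⟩ := hkey r hr hrT hrd
        have hi2 : i.2 ≠ 2 := by
          intro hi2
          have : g = i := Sigma.ext hg1 (heq_of_eq ((hG2 g hg).trans hi2.symm))
          rw [this] at hg
          exact (mem_sdiff.1 hi).2 hg
        have huniq : ∀ u : ℕ, u.Prime → T < u → u ∣ rep i.2 (ex n i + 1) → u = r := by
          intro u hu huT hud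
          obtain ⟨g', hg', hg1', hgu⟩ := hkey u hu huT hud
          have : g' = g := Sigma.ext (hg1'.trans hg1.symm)
            (heq_of_eq ((hG2 g' hg').trans (hG2 g hg).symm))
          rw [hgu, this, ← hgr]
        have hgI := hS1I g (hG1 g hg)
        have hrW : W < r := by
          have := hWrep g (hG1 g hg)
          rw [hG2 g hg, ← hgr] at this
          exact this
        have hN0 : rep i.2 (ex n i + 1) ≠ 0 := rep_ne_zero hip (by omega)
        -- the exponent at the next level is at least two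
        have hE2 : 2 ≤ ex n (φ g) := by
          have h3 := rep_mul_dvd_it hn hiI hgI hg1 (by rw [hG2 g hg]; exact hi2.symm)
          rw [hG2 g hg, ← hgr] at h3
          have h4 : r ^ 2 ∣ it (i.1 + 1) n := by
            rw [pow_two]
            exact (mul_dvd_mul_right hrd r).trans h3
          have h5 := pow_step hk hk0 hkT him hr hrT h4
          have h6 : φ g = (⟨nx m i.1, r⟩ : Σ _ : ℕ, ℕ) := by
            show (⟨nx m g.1, rep g.2 (ex n g + 1)⟩ : Σ _ : ℕ, ℕ) = _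
            rw [hG2 g hg, ← hgr, hg1]
          rw [h6]
          exact (hr.pow_dvd_iff_le_factorization (it_pos hn _).ne').1 h5
        have hq3 := hGq g hg hE2
        rw [← hgr] at hq3
        -- decomposition
        obtain ⟨a, ha⟩ : ∃ a : ℕ, a = (rep i.2 (ex n i + 1)).factorization r := ⟨_, rfl⟩
        have hrs := Nat.ordProj_mul_ordCompl_eq_self (rep i.2 (ex n i + 1)) r
        rw [← ha] at hrs
        obtain ⟨s, hs⟩ : ∃ s : ℕ, s = rep i.2 (ex n i + 1) / r ^ a := ⟨_, rfl⟩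
        rw [← hs] at hrs
        have hrns : ¬ r ∣ s := by
          rw [hs, ha]
          exact Nat.not_dvd_ordCompl hr hN0
        have hrs' : rep i.2 (ex n i + 1) = s * r ^ a := by rw [← hrs, mul_comm]
        have hs0 : 0 < s := by
          rcases Nat.eq_zero_or_pos s with h | h
          · rw [h, zero_mul] at hrs'
            exact absurd hrs' hN0
          · exact h
        have hsm : ∀ u : ℕ, u.Prime → u ∣ s → u ≤ T := by
          intro u hu hus
          by_contra hcon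
          push Not at hcon
          have := huniq u hu hcon (by rw [hrs']; exact hus.mul_right _)
          rw [this] at hus
          exact hrns hus
        have ha1 : 1 ≤ a := by
          rw [ha]
          exact (hr.dvd_iff_one_le_factorization hN0).1 hrd
        have hle : s * r ^ a ≤ 12 * M ^ 2 * r ^ 2 := by
          rw [← hrs']
          calc rep i.2 (ex n i + 1) ≤ i.2 ^ (ex n i + 1) := hrlt.le
            _ ≤ 4 * M * q := hiq
            _ ≤ 4 * M * (3 * M * r ^ 2) := Nat.mul_le_mul_left _ hq3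
            _ = 12 * M ^ 2 * r ^ 2 := by ring
        have hpl : i.2 ^ (ex n i + 1) < r ^ 3 := by
          calc i.2 ^ (ex n i + 1) ≤ 4 * M * q := hiq
            _ ≤ 4 * M * (3 * M * r ^ 2) := Nat.mul_le_mul_left _ hq3
            _ = 12 * M ^ 2 * r ^ 2 := by ring
            _ < r * r ^ 2 := Nat.mul_lt_mul_of_pos_right (by omega) (Nat.pow_pos hr.pos)
            _ = r ^ 3 := by ring
        have hlr : ex n i + 1 < r := by
          have h3 : 2 ^ (ex n i + 1) < 2 ^ r := by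
            calc 2 ^ (ex n i + 1) ≤ i.2 ^ (ex n i + 1) := Nat.pow_le_pow_left hip.two_le _
              _ < r ^ 3 := hpl
              _ ≤ 2 ^ r := cube_le (by omega)
          exact (Nat.pow_lt_pow_iff_right (by norm_num)).1 h3
        have ha2 : a ≤ 2 := by
          by_contra hcon
          push Not at hcon
          have h3 : r ^ 3 ≤ rep i.2 (ex n i + 1) := by
            rw [hrs']
            calc r ^ 3 ≤ r ^ a := Nat.pow_le_pow_right hr.pos hcon
              _ ≤ s * r ^ a := Nat.le_mul_of_pos_left _ hs0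
          omega
        obtain ⟨_, hs1⟩ := rep_prime_pow hip hiT hL hr hrs' hsm f1 f3 hlr
        rw [hs1, one_mul] at hrs'
        rcases (by omega : a = 1 ∨ a = 2) with h | h
        · rw [h, pow_one, hgr] at hrs'
          have h3 := hD i.2 2 _ _ hip Nat.prime_two hiT hT2 hi2 hrs'
          rw [← hgr] at h3
          omega
        · rw [h, hgr] at hrs'
          exact rep_ne_sq hip hiT hi2 hL f2 hrs'
    set NE := U.filter (fun i => i.2 ^ (ex n i + 1) ≤ 4 * M * q) with hNE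
    have hNEs : ∀ i ∈ NE, i ∈ U := fun i hi => (mem_filter.1 hi).1
    have hNEq : ∀ i ∈ NE, i.2 ^ (ex n i + 1) ≤ 4 * M * q := fun i hi => (mem_filter.1 hi).2
    have hNI : ∀ i ∈ NE, i ∈ IX m n := fun i hi => hS1I i (hUS i (hNEs i hi))
    have hi0N : i0 ∈ NE := by
      refine mem_filter.2 ⟨hi0, ?_⟩
      rw [← hq]
      nlinarith
    have hφ : ∀ i ∈ NE, φ i ∈ V := fun i hi => (hnear i (hNEs i hi) (hNEq i hi)).2.2
    have hφinj : Set.InjOn φ (NE : Set (Σ _ : ℕ, ℕ)) := by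
      intro i hi i' hi' h
      have hi1 : i ∈ NE := hi
      have hi1' : i' ∈ NE := hi'
      have h3 : nx m i.1 = nx m i'.1 := congrArg (fun x : Σ _ : ℕ, ℕ => x.1) h
      have h4 : rep i.2 (ex n i + 1) = rep i'.2 (ex n i' + 1) :=
        congrArg (fun x : Σ _ : ℕ, ℕ => x.2) h
      have h5 := nx_inj ((hmem i).1 (hNI i hi1)).1 ((hmem i').1 (hNI i' hi1')).1 h3
      by_cases h6 : i.2 = i'.2
      · exact Sigma.ext h5 (heq_of_eq h6)
      · exfalso
        have hiT := (mem_filter.1 (hUS i (hNEs i hi1))).2.2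
        have hiT' := (mem_filter.1 (hUS i' (hNEs i' hi1'))).2.2
        have h7 := hD i.2 i'.2 _ _ ((hmem i).1 (hNI i hi1)).2.1
          ((hmem i').1 (hNI i' hi1')).2.1 hiT hiT' h6 h4
        have h8 := hWrep i' (hUS i' (hNEs i' hi1'))
        omega
    obtain ⟨a, ha⟩ : ∃ a : ℝ, a = ∑ i ∈ NE, 1 / (i.2 : ℝ) ^ (ex n i + 1) := ⟨_, rfl⟩
    have ha1 : 1 / (q : ℝ) ≤ a := by
      rw [ha]
      have := Finset.single_le_sum (f := fun i : Σ _ : ℕ, ℕ => 1 / (i.2 : ℝ) ^ (ex n i + 1))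
        (fun i hi => hterm0 i (hNEs i hi)) hi0N
      refine le_trans (le_of_eq ?_) this
      rw [hq]
      push_cast
      rfl
    have ha0 : 0 < a := lt_of_lt_of_le (by positivity) ha1
    have ha2 : a < 1 / 4 := by
      have h3 : a ≤ (M : ℝ) / q := by
        rw [ha]
        calc ∑ i ∈ NE, 1 / (i.2 : ℝ) ^ (ex n i + 1) ≤ ∑ _i ∈ NE, 1 / (q : ℝ) :=
              Finset.sum_le_sum fun i hi => hterm i (hNEs i hi)
          _ = NE.card * (1 / (q : ℝ)) := by rw [sum_const, nsmul_eq_mul]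
          _ ≤ U.card * (1 / (q : ℝ)) := by
              refine mul_le_mul_of_nonneg_right ?_ (by positivity)
              exact_mod_cast Finset.card_le_card (Finset.filter_subset _ _)
          _ ≤ M * (1 / (q : ℝ)) := mul_le_mul_of_nonneg_right hUM (by positivity)
          _ = (M : ℝ) / q := by ring
      have h4 : (M : ℝ) / q < 1 / 4 := by
        rw [div_lt_iff₀ hqr]
        have : 4 * M < q := by omega
        have : (4 : ℝ) * M < q := by exact_mod_cast this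
        linarith
      linarith
    have hYge : 1 + 2 * a ≤ Y := by
      have f1 : ∏ i ∈ NE.image φ, fr i.2 (ex n i) ≤ Y := by
        have hsub : NE.image φ ⊆ V := by
          intro x hx
          obtain ⟨i, hi, rfl⟩ := Finset.mem_image.1 hx
          exact hφ i hi
        rw [hY, ← Finset.prod_sdiff hsub]
        have g1 : (1 : ℝ) ≤ ∏ x ∈ V \ NE.image φ, fr x.2 (ex n x) := by
          calc (1 : ℝ) = ∏ _x ∈ V \ NE.image φ, (1 : ℝ) := by rw [prod_const_one]
            _ ≤ _ := Finset.prod_le_prod (fun x _ => zero_le_one)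
                (fun x hx => fr_one_le (hp2 x (hS2I x (hVS x (Finset.mem_sdiff.1 hx).1))) _)
        have g2 : 0 ≤ ∏ i ∈ NE.image φ, fr i.2 (ex n i) :=
          Finset.prod_nonneg fun i hi => (fr_pos (hp2 i (hS2I i (hVS i (hsub hi)))) _).le
        nlinarith
      rw [Finset.prod_image (fun i hi i' hi' h => hφinj hi hi' h)] at f1
      have f2 : ∏ i ∈ NE, (1 + 1 / ((rep i.2 (ex n i + 1) : ℕ) : ℝ)) ≤
          ∏ i ∈ NE, fr (φ i).2 (ex n (φ i)) := by
        refine Finset.prod_le_prod (fun i hi => by positivity) fun i hi => ?_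
        exact fr_ge (hp2 _ (hS2I _ (hVS _ (hφ i hi)))) (he1 _ (hS2I _ (hVS _ (hφ i hi))))
      have f3 := one_add_sum_le NE (fun i => 1 / ((rep i.2 (ex n i + 1) : ℕ) : ℝ))
        (fun i hi => by positivity)
      have f4 : 2 * a ≤ ∑ i ∈ NE, 1 / ((rep i.2 (ex n i + 1) : ℕ) : ℝ) := by
        rw [ha, mul_sum]
        refine Finset.sum_le_sum fun i hi => ?_
        have hi2 := ((hmem i).1 (hNI i hi)).2.1
        have h3 : 3 ≤ i.2 := by
          have := hi2.two_le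
          have := (hnear i (hNEs i hi) (hNEq i hi)).1
          omega
        have h3r : (3 : ℝ) ≤ i.2 := by exact_mod_cast h3
        have g1 := rep_real hi2.two_le (ex n i + 1)
        have g2 : 0 < rep i.2 (ex n i + 1) :=
          lt_of_lt_of_le (Nat.pow_pos hi2.pos) (pow_le_rep _ _)
        have g3 : (0 : ℝ) < rep i.2 (ex n i + 1) := by exact_mod_cast g2
        have g4 : (0 : ℝ) < (i.2 : ℝ) ^ (ex n i + 1) := by positivity
        rw [mul_one_div, div_le_div_iff₀ g4 g3]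
        nlinarith
      linarith
    have hXge2 : 1 - 5 / 4 * a ≤ X := by
      have f1 : ∑ i ∈ U, 1 / (i.2 : ℝ) ^ (ex n i + 1) =
          a + ∑ i ∈ U.filter (fun i => ¬ i.2 ^ (ex n i + 1) ≤ 4 * M * q),
            1 / (i.2 : ℝ) ^ (ex n i + 1) := by
        rw [ha, hNE, Finset.sum_filter_add_sum_filter_not]
      have f2 : ∑ i ∈ U.filter (fun i => ¬ i.2 ^ (ex n i + 1) ≤ 4 * M * q),
          1 / (i.2 : ℝ) ^ (ex n i + 1) ≤ 1 / 4 * a := by
        calc ∑ i ∈ U.filter (fun i => ¬ i.2 ^ (ex n i + 1) ≤ 4 * M * q),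
              1 / (i.2 : ℝ) ^ (ex n i + 1) ≤
              ∑ _i ∈ U.filter (fun i => ¬ i.2 ^ (ex n i + 1) ≤ 4 * M * q),
                1 / (4 * M * q : ℝ) := by
              refine Finset.sum_le_sum fun i hi => ?_
              refine one_div_le_one_div_of_le (by positivity) ?_
              have h3 := (mem_filter.1 hi).2
              push Not at h3
              exact_mod_cast h3.le
          _ = (U.filter (fun i => ¬ i.2 ^ (ex n i + 1) ≤ 4 * M * q)).card *
                (1 / (4 * M * q : ℝ)) := by rw [sum_const, nsmul_eq_mul]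
          _ ≤ U.card * (1 / (4 * M * q : ℝ)) := by
              refine mul_le_mul_of_nonneg_right ?_ (by positivity)
              exact_mod_cast Finset.card_le_card (Finset.filter_subset _ _)
          _ ≤ M * (1 / (4 * M * q : ℝ)) := mul_le_mul_of_nonneg_right hUM (by positivity)
          _ = 1 / 4 * (1 / q) := by
              have : (M : ℝ) ≠ 0 := by linarith
              field_simp
          _ ≤ 1 / 4 * a := mul_le_mul_of_nonneg_left ha1 (by norm_num)
      linarith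
    have hGY : 1 + 2 * a ≤ G * Y := by nlinarith
    exact real_final ha0 ha2 hXge2 hGY hid
  -- conclusions
  have hX1 : X = 1 := by rw [hX, hUe, prod_empty]
  rw [hX1, one_mul] at hid
  have hGle : G ≤ 1 := by nlinarith
  have hYle : Y ≤ 1 := by nlinarith
  have hS1G : ∀ i ∈ S1, i ∈ GH := by
    intro i hi
    by_contra h
    have : i ∈ U := mem_sdiff.2 ⟨hi, h⟩
    rw [hUe] at this
    exact absurd this (Finset.notMem_empty _)
  have hVe : ∀ i ∈ S2, i ∈ GH.image φ := by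
    intro i hi
    by_contra h
    have hiV : i ∈ V := mem_sdiff.2 ⟨hi, h⟩
    have hiI := hS2I i hi
    have h3 := (fr_ge (hp2 i hiI) (he1 i hiI)).trans (hYi i hiV)
    have h5 : (0 : ℝ) < 1 / (i.2 : ℝ) := by
      have : 0 < i.2 := by have := hp2 i hiI; omega
      positivity
    linarith
  refine ⟨?_, ?_⟩
  · intro i hi hiT1 hiT2
    have hi1 : i ∈ S1 := mem_filter.2 ⟨hi, hiT1, hiT2⟩
    have hg := hS1G i hi1
    have h3 : φ i = (⟨nx m i.1, rep 2 (ex n i + 1)⟩ : Σ _ : ℕ, ℕ) := by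
      show (⟨nx m i.1, rep i.2 (ex n i + 1)⟩ : Σ _ : ℕ, ℕ) = _
      rw [hG2 i hg]
    refine ⟨hG2 i hg, hG3 i hg, ?_, ?_⟩
    · rw [← h3]
      by_contra hcon
      have hE2 : 2 ≤ ex n (φ i) := by
        have := hgE i hg
        omega
      have h4 := (good_factor (hgE i hg) (hge i hg)).2 hE2
      have h5 := h4.trans (hGi i hg)
      have h6 : (0 : ℝ) < 1 / ((rep 2 (ex n i + 1) : ℝ) ^ 2 + rep 2 (ex n i + 1)) := by
        have : 0 < rep 2 (ex n i + 1) := (hG3 i hg).pos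
        positivity
      linarith
    · rw [← h3]
      exact hS2I _ (hGφ i hg)
  · intro i hi hiT
    have hi1 : i ∈ S2 := mem_filter.2 ⟨hi, hiT⟩
    obtain ⟨g, hg, hgi'⟩ := Finset.mem_image.1 (hVe i hi1)
    have h6 : nx m g.1 = i.1 := congrArg (fun x : Σ _ : ℕ, ℕ => x.1) hgi'
    have h7 : rep g.2 (ex n g + 1) = i.2 := congrArg (fun x : Σ _ : ℕ, ℕ => x.2) hgi'
    have hgS := hG1 g hg
    refine ⟨g, hS1I g hgS, hG2 g hg, ?_, h6.symm, ?_⟩
    · have := (mem_filter.1 hgS).2.1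
      rw [hG2 g hg] at this
      exact this
    · rw [← h7, hG2 g hg]

end Pool.Agent.H58.MK
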