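import Pool.Agent.H58.MK.Balance

/-!
# Analysis of the smallest scale
-/

set_option autoImplicit false

namespace Pool.Agent.H58.MK

open Finset

/-- The next index modulo `m`. -/
def nx (m j : ℕ) : ℕ := if j + 1 < m then j + 1 else 0

lemma nx_inj {m i j : ℕ} (hi : i < m) (hj : j < m) (h : nx m i = nx m j) : i = j := by
  unfold nx at h
  split_ifs at h <;> omega

/-- A large prime factor of a repunit occurring in the structure: `p ^ (l - 1)` exactly divides the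
iterate number `j`, and the repunit `rep p l` is a prime. -/
def Occ (m n T b j p l : ℕ) : Prop :=
  j < m ∧ p.Prime ∧ p ≤ T ∧ l.Prime ∧ b < l ∧ (it j n).factorization p + 1 = l ∧
    (rep p l).Prime ∧ rep p l ∣ it (j + 1) n

lemma real_final {a X Y : ℝ} (ha : 0 < a) (ha2 : a < 1 / 4) (hX : 1 - 5 / 4 * a ≤ X)
    (hY : 1 + 2 * a ≤ Y) (h : X * Y = 1) : False := by
  have h1 : (1 - 5 / 4 * a) * (1 + 2 * a) ≤ X * Y :=
    mul_le_mul hX hY (by linarith) (by linarith)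
  rw [h] at h1
  nlinarith

theorem scale {m K n k M T W L b : ℕ} (hm : 1 ≤ m) (hM : m * K ≤ M) (hM1 : 1 ≤ M) (hn : 0 < n)
    (hω : ∀ j < m, (it j n).primeFactors.card ≤ K) (hk : it m n = k * n)
    (hT : 2 ^ M ≤ T) (hW : M * (2 * T) ^ M < W) (hW4 : 4 * M < W)
    (hL : ∀ p l : ℕ, p.Prime → p ≤ T → L < l → ∃ r : ℕ, r.Prime ∧ T < r ∧ r ∣ rep p l)
    (hE : ∀ p e : ℕ, p.Prime → p ≤ T → W < p ^ e →
      L < e + 1 ∧ (8 * M ^ 2 + 2) ^ 2 < e + 1 ∧ b < e + 1)
    (h1 : ∀ i ∈ IX m n, i.2 ^ ex n i ≤ T ∨ W < i.2 ^ ex n i)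
    (h2 : ∀ i ∈ IX m n, i.2 ≤ T ∨ W < i.2) (hbig : T ^ K < n) :
    ∃ j p l, Occ m n T b j p l ∧ (p = 2 ∨ ∃ p' l', p' ≠ p ∧ Occ m n T b j p' l' ∧
      rep p' l' = rep p l) := by
  classical
  have hT1 : 1 ≤ T := (Nat.one_le_two_pow).trans hT
  have hI : (IX m n).card ≤ M := (card_IX hω).trans hM
  have hmem := fun i => @mem_IX m n i hn
  have hp2 : ∀ i ∈ IX m n, 2 ≤ i.2 := fun i hi => ((hmem i).1 hi).2.1.two_le
  have he1 : ∀ i ∈ IX m n, 1 ≤ ex n i := by
    intro i hi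
    obtain ⟨_, h4, h5⟩ := (hmem i).1 hi
    exact (h4.dvd_iff_one_le_factorization (it_pos hn i.1).ne').1 h5
  obtain ⟨hk2, hXY⟩ := balance (IX m n) (fun i => i.2) (ex n) hp2 he1 k M T W hI hT1 hW
    (telescope hn hk) h1 h2
  have hk0 : 0 < k := by
    rcases Nat.eq_zero_or_pos k with h | h
    · have := it_pos hn m
      rw [hk, h, zero_mul] at this
      omega
    · exact h
  set S1 := (IX m n).filter (fun i => T < i.2 ^ ex n i ∧ i.2 ≤ T) with hS1
  set S2 := (IX m n).filter (fun i => T < i.2) with hS2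
  have hS1I : ∀ i ∈ S1, i ∈ IX m n := fun i hi => (mem_filter.1 hi).1
  have hS2I : ∀ i ∈ S2, i ∈ IX m n := fun i hi => (mem_filter.1 hi).1
  obtain ⟨X, hX⟩ : ∃ X : ℝ, X = ∏ i ∈ S1, (1 - 1 / (i.2 : ℝ) ^ (ex n i + 1)) := ⟨_, rfl⟩
  obtain ⟨Y, hY⟩ : ∃ Y : ℝ, Y = ∏ i ∈ S2, fr i.2 (ex n i) := ⟨_, rfl⟩
  rw [← hX, ← hY] at hXY
  have hWr : (0 : ℝ) < W := by
    have : 0 < W := by omega
    exact_mod_cast this
  have hMr : (1 : ℝ) ≤ M := by exact_mod_cast hM1
  -- single factors of `Y`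
  have hYi : ∀ i ∈ S2, fr i.2 (ex n i) ≤ Y := by
    intro i hi
    rw [hY, ← Finset.mul_prod_erase S2 _ hi]
    have h3 : (1 : ℝ) ≤ ∏ x ∈ S2.erase i, fr x.2 (ex n x) := by
      calc (1 : ℝ) = ∏ _x ∈ S2.erase i, (1 : ℝ) := by rw [prod_const_one]
        _ ≤ _ := Finset.prod_le_prod (fun x _ => zero_le_one)
            (fun x hx => fr_one_le (hp2 x (hS2I x (mem_of_mem_erase hx))) _)
    have h4 := fr_pos (hp2 i (hS2I i hi)) (ex n i)
    nlinarith
  -- step 1: there are large powers of small primes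
  have hne : S1.Nonempty := by
    by_contra hcon
    rw [Finset.not_nonempty_iff_eq_empty] at hcon
    have hX1 : X = 1 := by rw [hX, hcon, prod_empty]
    rw [hX1, one_mul] at hXY
    have hS2e : S2 = ∅ := by
      rw [← Finset.not_nonempty_iff_eq_empty]
      rintro ⟨i, hi⟩
      have h3 := hYi i hi
      have h4 := fr_ge (hp2 i (hS2I i hi)) (he1 i (hS2I i hi))
      have h5 : (0 : ℝ) < 1 / (i.2 : ℝ) := by
        have : 0 < i.2 := by have := hp2 i (hS2I i hi); omega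
        positivity
      linarith
    have hall : ∀ i ∈ IX m n, i.2 ^ ex n i ≤ T := by
      intro i hi
      by_contra h3
      push Not at h3
      by_cases h4 : i.2 ≤ T
      · have : i ∈ S1 := mem_filter.2 ⟨hi, h3, h4⟩
        rw [hcon] at this
        exact absurd this (Finset.notMem_empty _)
      · have : i ∈ S2 := mem_filter.2 ⟨hi, by omega⟩
        rw [hS2e] at this
        exact absurd this (Finset.notMem_empty _)
    have h3 : n ≤ T ^ n.primeFactors.card := by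
      conv_lhs => rw [self_eq hn.ne']
      refine pow_card_le _ _ _ fun p hp => ?_
      have h4 : (⟨0, p⟩ : Σ _ : ℕ, ℕ) ∈ IX m n := by
        rw [hmem]
        exact ⟨(by show 0 < m; omega), Nat.prime_of_mem_primeFactors hp,
          Nat.dvd_of_mem_primeFactors hp⟩
      exact hall _ h4
    have h4 : T ^ n.primeFactors.card ≤ T ^ K := Nat.pow_le_pow_right hT1 (hω 0 (by omega))
    omega
  -- step 2: the smallest scale
  obtain ⟨i0, hi0, hmin⟩ := Finset.exists_min_image S1 (fun i => i.2 ^ (ex n i + 1)) hne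
  obtain ⟨q, hq⟩ : ∃ q : ℕ, q = i0.2 ^ (ex n i0 + 1) := ⟨_, rfl⟩
  have hlarge : ∀ i ∈ S1, W < i.2 ^ ex n i := fun i hi =>
    (h1 i (hS1I i hi)).resolve_left (by have := (mem_filter.1 hi).2.1; omega)
  have hqW : W < q := by
    rw [hq]
    refine (hlarge i0 hi0).trans_le ?_
    exact Nat.pow_le_pow_right (by have := hp2 i0 (hS1I i0 hi0); omega) (by omega)
  have hqr : (0 : ℝ) < q := by
    have : 0 < q := by omega
    exact_mod_cast this
  have hminq : ∀ i ∈ S1, q ≤ i.2 ^ (ex n i + 1) := fun i hi => by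
    rw [hq]
    exact hmin i hi
  have hterm : ∀ i ∈ S1, 1 / (i.2 : ℝ) ^ (ex n i + 1) ≤ 1 / (q : ℝ) := fun i hi => by
    refine one_div_le_one_div_of_le hqr ?_
    exact_mod_cast hminq i hi
  have hterm0 : ∀ i ∈ S1, 0 ≤ 1 / (i.2 : ℝ) ^ (ex n i + 1) := fun i hi => by positivity
  have hq1 : (1 : ℝ) ≤ q := by
    have : 1 ≤ q := by omega
    exact_mod_cast this
  have hterm1 : ∀ i ∈ S1, 1 / (i.2 : ℝ) ^ (ex n i + 1) ≤ 1 := fun i hi =>
    (hterm i hi).trans (by rw [div_le_one hqr]; exact hq1)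
  have hXge := one_sub_sum_le S1 (fun i => 1 / (i.2 : ℝ) ^ (ex n i + 1)) hterm0 hterm1
  rw [← hX] at hXge
  have hS1M : (S1.card : ℝ) ≤ M := by
    have : S1.card ≤ M := (Finset.card_le_card (Finset.filter_subset _ _)).trans hI
    exact_mod_cast this
  have hXM : 1 - (M : ℝ) / q ≤ X := by
    have h5 : ∑ i ∈ S1, 1 / (i.2 : ℝ) ^ (ex n i + 1) ≤ (M : ℝ) / q := by
      calc ∑ i ∈ S1, 1 / (i.2 : ℝ) ^ (ex n i + 1) ≤ ∑ _i ∈ S1, 1 / (q : ℝ) :=
            Finset.sum_le_sum hterm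
        _ = S1.card * (1 / (q : ℝ)) := by rw [sum_const, nsmul_eq_mul]
        _ ≤ M * (1 / (q : ℝ)) := mul_le_mul_of_nonneg_right hS1M (by positivity)
        _ = (M : ℝ) / q := by ring
    linarith
  -- step 3: the large primes are at least `q / 2M`
  have hS2q : ∀ i ∈ S2, q ≤ 2 * M * i.2 := by
    intro i hi
    have hPpos : 1 ≤ i.2 := by have := hp2 i (hS2I i hi); omega
    have hP : (1 : ℝ) ≤ i.2 := by exact_mod_cast hPpos
    have h3 := (fr_ge (hp2 i (hS2I i hi)) (he1 i (hS2I i hi))).trans (hYi i hi)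
    -- `X (1 + 1/P) ≤ 1`
    have hX0 : 0 ≤ X := by
      rw [hX]
      refine Finset.prod_nonneg fun x hx => ?_
      have := hterm1 x hx
      linarith
    have h4 : X * (1 + 1 / (i.2 : ℝ)) ≤ 1 := by
      calc X * (1 + 1 / (i.2 : ℝ)) ≤ X * Y := mul_le_mul_of_nonneg_left h3 hX0
        _ = 1 := hXY
    have h5 : (1 - (M : ℝ) / q) * (1 + 1 / (i.2 : ℝ)) ≤ 1 :=
      (mul_le_mul_of_nonneg_right hXM (by positivity)).trans h4
    have h6 : (q : ℝ) ≤ M * (i.2 + 1) := by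
      have e1 : (1 - (M : ℝ) / q) * (1 + 1 / (i.2 : ℝ)) * (q * i.2) =
          (q - M) * (i.2 + 1) := by
        field_simp
      have e2 : (1 - (M : ℝ) / q) * (1 + 1 / (i.2 : ℝ)) * (q * i.2) ≤ 1 * (q * i.2) :=
        mul_le_mul_of_nonneg_right h5 (by positivity)
      rw [e1] at e2
      nlinarith
    have h7 : q ≤ M * (i.2 + 1) := by exact_mod_cast h6
    refine h7.trans ?_
    nlinarith
  -- step 4: membership
  have hstep4 : ∀ j < m, ∀ r : ℕ, r.Prime → T < r → r ∣ it (j + 1) n →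
      (⟨nx m j, r⟩ : Σ _ : ℕ, ℕ) ∈ S2 := by
    intro j hj r hr hrT hd
    refine mem_filter.2 ⟨?_, hrT⟩
    rw [hmem]
    unfold nx
    split_ifs with hc
    · exact ⟨hc, hr, hd⟩
    · have hj1 : j + 1 = m := by omega
      rw [hj1, hk] at hd
      refine ⟨(by show 0 < m; omega), hr, ?_⟩
      rcases (hr.dvd_mul).1 hd with h | h
      · have := Nat.le_of_dvd hk0 h
        omega
      · exact h
  have hrepdvd : ∀ i ∈ IX m n, rep i.2 (ex n i + 1) ∣ it (i.1 + 1) n := by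
    intro i hi
    obtain ⟨_, h4, h5⟩ := (hmem i).1 hi
    rw [it_succ, sigma_eq (it_pos hn i.1).ne']
    exact Finset.dvd_prod_of_mem (fun p => rep p ((it i.1 n).factorization p + 1))
      (Nat.mem_primeFactors.2 ⟨h4, h5, (it_pos hn i.1).ne'⟩)
  -- step 5: the repunits near the smallest scale are primes
  have hnear : ∀ i ∈ S1, i.2 ^ (ex n i + 1) ≤ 4 * M * q →
      Occ m n T b i.1 i.2 (ex n i + 1) := by
    intro i hi hiq
    have hiI := hS1I i hi
    obtain ⟨hi1, hi2, hi3⟩ := (hmem i).1 hiI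
    have hiT := (mem_filter.1 hi).2.2
    obtain ⟨e1, e2, e3⟩ := hE i.2 (ex n i) hi2 hiT (hlarge i hi)
    obtain ⟨r, hr, hrT, hrd⟩ := hL i.2 (ex n i + 1) hi2 hiT e1
    have hrS := hstep4 i.1 hi1 r hr hrT (hrd.trans (hrepdvd i hiI))
    have hqr' := hS2q _ hrS
    obtain ⟨s, hs⟩ := hrd
    have hs' : rep i.2 (ex n i + 1) = s * r := by rw [hs, mul_comm]
    have hsle : s ≤ 8 * M ^ 2 := by
      have f1 := rep_lt_pow hi2.two_le (ex n i + 1)
      have f2 : s * r ≤ 8 * M ^ 2 * r := by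
        rw [← hs']
        calc rep i.2 (ex n i + 1) ≤ i.2 ^ (ex n i + 1) := f1.le
          _ ≤ 4 * M * q := hiq
          _ ≤ 4 * M * (2 * M * r) := Nat.mul_le_mul_left _ hqr'
          _ = 8 * M ^ 2 * r := by ring
      exact Nat.le_of_mul_le_mul_right f2 hr.pos
    obtain ⟨g1, g2⟩ := rep_prime hi2 hr hs' hsle e2
    refine ⟨hi1, hi2, hiT, g1, e3, rfl, ?_, hrepdvd i hiI⟩
    rw [hs', g2, one_mul]
    exact hr
  set NE := S1.filter (fun i => i.2 ^ (ex n i + 1) ≤ 4 * M * q) with hNE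
  have hNEs : ∀ i ∈ NE, i ∈ S1 := fun i hi => (mem_filter.1 hi).1
  have hNEq : ∀ i ∈ NE, i.2 ^ (ex n i + 1) ≤ 4 * M * q := fun i hi => (mem_filter.1 hi).2
  have hi0N : i0 ∈ NE := by
    refine mem_filter.2 ⟨hi0, ?_⟩
    rw [← hq]
    nlinarith
  -- step 6
  by_cases hA : ∃ i ∈ NE, i.2 = 2
  · obtain ⟨i, hi, hi2⟩ := hA
    exact ⟨i.1, i.2, ex n i + 1, hnear i (hNEs i hi) (hNEq i hi), Or.inl hi2⟩
  by_cases hB : ∃ i ∈ NE, ∃ i' ∈ NE, i'.1 = i.1 ∧ i'.2 ≠ i.2 ∧
      rep i'.2 (ex n i' + 1) = rep i.2 (ex n i + 1)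
  · obtain ⟨i, hi, i', hi', g1, g2, g3⟩ := hB
    refine ⟨i.1, i.2, ex n i + 1, hnear i (hNEs i hi) (hNEq i hi), Or.inr
      ⟨i'.2, ex n i' + 1, g2, ?_, g3⟩⟩
    rw [← g1]
    exact hnear i' (hNEs i' hi') (hNEq i' hi')
  exfalso
  push Not at hA hB
  let φ : (Σ _ : ℕ, ℕ) → (Σ _ : ℕ, ℕ) := fun i => ⟨nx m i.1, rep i.2 (ex n i + 1)⟩
  have hφ : ∀ i ∈ NE, φ i ∈ S2 := by
    intro i hi
    obtain ⟨g1, g2, g3, g4, g5, g6, g7, g8⟩ := hnear i (hNEs i hi) (hNEq i hi)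
    refine hstep4 i.1 g1 _ g7 ?_ g8
    have h3 := hlarge i (hNEs i hi)
    have h4 := pow_le_rep i.2 (ex n i)
    have h5 : T ≤ W := by
      have : T ^ 1 ≤ (2 * T) ^ M := (Nat.pow_le_pow_left (by omega) 1).trans
        (Nat.pow_le_pow_right (by omega) hM1)
      rw [pow_one] at this
      have h6 : 1 * (2 * T) ^ M ≤ M * (2 * T) ^ M := Nat.mul_le_mul_right _ hM1
      omega
    omega
  have hφinj : Set.InjOn φ (NE : Set (Σ _ : ℕ, ℕ)) := by
    intro i hi i' hi' h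
    have hi1 : i ∈ NE := hi
    have hi1' : i' ∈ NE := hi'
    have h3 : nx m i.1 = nx m i'.1 := congrArg (fun x : Σ _ : ℕ, ℕ => x.1) h
    have h4 : rep i.2 (ex n i + 1) = rep i'.2 (ex n i' + 1) :=
      congrArg (fun x : Σ _ : ℕ, ℕ => x.2) h
    have h5 := nx_inj ((hmem i).1 (hS1I i (hNEs i hi1))).1
      ((hmem i').1 (hS1I i' (hNEs i' hi1'))).1 h3
    by_cases h6 : i.2 = i'.2
    · exact Sigma.ext h5 (heq_of_eq h6)
    · exact absurd h4 (hB i' hi1' i hi1 h5 h6)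
  -- the sum over the near indices
  obtain ⟨a, ha⟩ : ∃ a : ℝ, a = ∑ i ∈ NE, 1 / (i.2 : ℝ) ^ (ex n i + 1) := ⟨_, rfl⟩
  have ha1 : 1 / (q : ℝ) ≤ a := by
    rw [ha]
    have := Finset.single_le_sum (f := fun i : Σ _ : ℕ, ℕ => 1 / (i.2 : ℝ) ^ (ex n i + 1))
      (fun i hi => hterm0 i (hNEs i hi)) hi0N
    refine le_trans (le_of_eq ?_) this
    rw [hq]
    push_cast
    rfl
  have ha0 : 0 < a := lt_of_lt_of_le (by positivity) ha1
  have ha2 : a < 1 / 4 := by
    have h3 : a ≤ (M : ℝ) / q := by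
      rw [ha]
      calc ∑ i ∈ NE, 1 / (i.2 : ℝ) ^ (ex n i + 1) ≤ ∑ _i ∈ NE, 1 / (q : ℝ) :=
            Finset.sum_le_sum fun i hi => hterm i (hNEs i hi)
        _ = NE.card * (1 / (q : ℝ)) := by rw [sum_const, nsmul_eq_mul]
        _ ≤ S1.card * (1 / (q : ℝ)) := by
            refine mul_le_mul_of_nonneg_right ?_ (by positivity)
            exact_mod_cast Finset.card_le_card (Finset.filter_subset _ _)
        _ ≤ M * (1 / (q : ℝ)) := mul_le_mul_of_nonneg_right hS1M (by positivity)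
        _ = (M : ℝ) / q := by ring
    have h4 : (M : ℝ) / q < 1 / 4 := by
      rw [div_lt_iff₀ hqr]
      have : 4 * M < q := by omega
      have : (4 : ℝ) * M < q := by exact_mod_cast this
      linarith
    linarith
  have hYge : 1 + 2 * a ≤ Y := by
    have f1 : ∏ i ∈ NE.image φ, fr i.2 (ex n i) ≤ Y := by
      have hsub : NE.image φ ⊆ S2 := by
        intro x hx
        obtain ⟨i, hi, rfl⟩ := Finset.mem_image.1 hx
        exact hφ i hi
      rw [hY, ← Finset.prod_sdiff hsub]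
      have g1 : (1 : ℝ) ≤ ∏ x ∈ S2 \ NE.image φ, fr x.2 (ex n x) := by
        calc (1 : ℝ) = ∏ _x ∈ S2 \ NE.image φ, (1 : ℝ) := by rw [prod_const_one]
          _ ≤ _ := Finset.prod_le_prod (fun x _ => zero_le_one)
              (fun x hx => fr_one_le (hp2 x (hS2I x (Finset.mem_sdiff.1 hx).1)) _)
      have g2 : 0 ≤ ∏ i ∈ NE.image φ, fr i.2 (ex n i) :=
        Finset.prod_nonneg fun i hi => (fr_pos (hp2 i (hS2I i (hsub hi))) _).le
      nlinarith
    rw [Finset.prod_image (fun i hi i' hi' h => hφinj hi hi' h)] at f1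
    have f2 : ∏ i ∈ NE, (1 + 1 / ((rep i.2 (ex n i + 1) : ℕ) : ℝ)) ≤
        ∏ i ∈ NE, fr (φ i).2 (ex n (φ i)) := by
      refine Finset.prod_le_prod (fun i hi => by positivity) fun i hi => ?_
      exact fr_ge (hp2 _ (hS2I _ (hφ i hi))) (he1 _ (hS2I _ (hφ i hi)))
    have f3 := one_add_sum_le NE (fun i => 1 / ((rep i.2 (ex n i + 1) : ℕ) : ℝ))
      (fun i hi => by positivity)
    have f4 : 2 * a ≤ ∑ i ∈ NE, 1 / ((rep i.2 (ex n i + 1) : ℕ) : ℝ) := by
      rw [ha, mul_sum]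
      refine Finset.sum_le_sum fun i hi => ?_
      have hi2 := ((hmem i).1 (hS1I i (hNEs i hi))).2.1
      have h3 : 3 ≤ i.2 := by
        have := hi2.two_le
        have := hA i hi
        omega
      have h3r : (3 : ℝ) ≤ i.2 := by exact_mod_cast h3
      have g1 := rep_real hi2.two_le (ex n i + 1)
      have g2 : 0 < rep i.2 (ex n i + 1) :=
        lt_of_lt_of_le (Nat.pow_pos hi2.pos) (pow_le_rep _ _)
      have g3 : (0 : ℝ) < rep i.2 (ex n i + 1) := by exact_mod_cast g2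
      have g4 : (0 : ℝ) < (i.2 : ℝ) ^ (ex n i + 1) := by positivity
      rw [mul_one_div, div_le_div_iff₀ g4 g3]
      nlinarith
    linarith
  have hXge2 : 1 - 5 / 4 * a ≤ X := by
    have f1 : ∑ i ∈ S1, 1 / (i.2 : ℝ) ^ (ex n i + 1) =
        a + ∑ i ∈ S1.filter (fun i => ¬ i.2 ^ (ex n i + 1) ≤ 4 * M * q),
          1 / (i.2 : ℝ) ^ (ex n i + 1) := by
      rw [ha, hNE, Finset.sum_filter_add_sum_filter_not]
    have f2 : ∑ i ∈ S1.filter (fun i => ¬ i.2 ^ (ex n i + 1) ≤ 4 * M * q),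
        1 / (i.2 : ℝ) ^ (ex n i + 1) ≤ 1 / 4 * a := by
      calc ∑ i ∈ S1.filter (fun i => ¬ i.2 ^ (ex n i + 1) ≤ 4 * M * q),
            1 / (i.2 : ℝ) ^ (ex n i + 1) ≤
            ∑ _i ∈ S1.filter (fun i => ¬ i.2 ^ (ex n i + 1) ≤ 4 * M * q),
              1 / (4 * M * q : ℝ) := by
            refine Finset.sum_le_sum fun i hi => ?_
            refine one_div_le_one_div_of_le (by positivity) ?_
            have h3 := (mem_filter.1 hi).2
            push Not at h3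
            exact_mod_cast h3.le
        _ = (S1.filter (fun i => ¬ i.2 ^ (ex n i + 1) ≤ 4 * M * q)).card *
              (1 / (4 * M * q : ℝ)) := by rw [sum_const, nsmul_eq_mul]
        _ ≤ S1.card * (1 / (4 * M * q : ℝ)) := by
            refine mul_le_mul_of_nonneg_right ?_ (by positivity)
            exact_mod_cast Finset.card_le_card (Finset.filter_subset _ _)
        _ ≤ M * (1 / (4 * M * q : ℝ)) := mul_le_mul_of_nonneg_right hS1M (by positivity)
        _ = 1 / 4 * (1 / q) := by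
            have : (M : ℝ) ≠ 0 := by linarith
            field_simp
        _ ≤ 1 / 4 * a := mul_le_mul_of_nonneg_left ha1 (by norm_num)
    linarith
  exact real_final ha0 ha2 hXge2 hYge hXY

end Pool.Agent.H58.MK
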