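import Pool.Agent.H58.MK.Rep

/-!
# Repunits with many digits are not smooth
-/

set_option autoImplicit false

namespace Pool.Agent.H58.MK

open Finset

lemma rep_ne_zero {p l : ℕ} (hp : p.Prime) (hl : 1 ≤ l) : rep p l ≠ 0 := by
  obtain ⟨l', rfl⟩ := Nat.exists_eq_add_of_le' hl
  have := pow_le_rep p l'
  have := Nat.pow_pos (n := l') hp.pos
  omega

lemma pow_val_le {p r l T : ℕ} (hp : p.Prime) (hpT : p ≤ T) (hr : r.Prime) (hrT : r ≤ T)
    (hl : 1 ≤ l) : r ^ (rep p l).factorization r ≤ T ^ T * l := by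
  have hN := rep_ne_zero hp hl
  have hT2 : 2 ≤ T := hp.two_le.trans hpT
  by_cases hrp : r = p
  · have h0 : (rep p l).factorization r = 0 := by
      apply Nat.factorization_eq_zero_of_not_dvd
      intro h
      obtain ⟨l', rfl⟩ := Nat.exists_eq_add_of_le' hl
      have h1 := Nat.dvd_gcd (dvd_of_eq hrp) h
      rw [rep_coprime p l'] at h1
      exact hr.one_lt.ne' (Nat.dvd_one.1 h1)
    rw [h0, pow_zero]
    exact Nat.succ_le_of_lt (Nat.mul_pos (Nat.pow_pos (by omega)) (by omega))
  · have hndvd : ¬ r ∣ p := fun h => hrp ((Nat.prime_dvd_prime_iff_eq hr hp).1 h)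
    rcases hr.eq_two_or_odd' with h2 | hodd
    · subst h2
      have hp3 : 3 ≤ p := by
        have := hp.two_le
        have : p ≠ 2 := fun h => hrp h.symm
        omega
      have hd : rep p l ∣ p ^ (2 * l) - 1 := by
        refine (rep_dvd hp.one_lt.le l).trans ?_
        have := Nat.sub_dvd_pow_sub_pow (p ^ l) 1 2
        rw [one_pow, ← pow_mul, mul_comm l 2] at this
        exact this
      have hne : p ^ (2 * l) - 1 ≠ 0 := by
        have : 1 < p ^ (2 * l) := Nat.one_lt_pow (by omega) hp.one_lt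
        omega
      have h1 := (Nat.factorization_le_iff_dvd hN hne).2 hd 2
      rw [Nat.factorization_def (p ^ (2 * l) - 1) Nat.prime_two] at h1
      have h3 := padicValNat.pow_two_sub_one hp.one_lt hndvd (n := 2 * l) (by omega)
        (even_two_mul l)
      have e1 : 2 ^ padicValNat 2 (p + 1) ≤ p + 1 :=
        Nat.le_of_dvd (by omega) pow_padicValNat_dvd
      have e2 : 2 ^ padicValNat 2 (p - 1) ≤ p - 1 :=
        Nat.le_of_dvd (by omega) pow_padicValNat_dvd
      have e3 : 2 ^ padicValNat 2 (2 * l) ≤ 2 * l :=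
        Nat.le_of_dvd (by omega) pow_padicValNat_dvd
      have e4 : 2 ^ ((rep p l).factorization 2) * 2 ≤ (p + 1) * (p - 1) * (2 * l) := by
        calc 2 ^ ((rep p l).factorization 2) * 2 = 2 ^ ((rep p l).factorization 2 + 1) := by
              rw [pow_succ]
          _ ≤ 2 ^ (padicValNat 2 (p + 1) + padicValNat 2 (p - 1) + padicValNat 2 (2 * l)) :=
              Nat.pow_le_pow_right (by norm_num) (by omega)
          _ = 2 ^ padicValNat 2 (p + 1) * 2 ^ padicValNat 2 (p - 1) *
              2 ^ padicValNat 2 (2 * l) := by rw [pow_add, pow_add]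
          _ ≤ _ := Nat.mul_le_mul (Nat.mul_le_mul e1 e2) e3
      have e5 : (p + 1) * (p - 1) ≤ T ^ T := by
        have h5 : (p + 1) * (p - 1) ≤ p ^ 2 := by
          obtain ⟨q, rfl⟩ := Nat.exists_eq_add_of_le' (by omega : 1 ≤ p)
          simp only [Nat.add_sub_cancel]
          nlinarith
        exact h5.trans ((Nat.pow_le_pow_left hpT 2).trans (Nat.pow_le_pow_right (by omega) hT2))
      have e6 : 2 ^ ((rep p l).factorization 2) ≤ (p + 1) * (p - 1) * l := by nlinarith
      exact e6.trans (Nat.mul_le_mul_right _ e5)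
    · have : Fact r.Prime := ⟨hr⟩
      have hr2 := hr.two_le
      have hx1 : 1 < p ^ (r - 1) := Nat.one_lt_pow (by omega) hp.one_lt
      have hrx : r ∣ p ^ (r - 1) - 1 := by
        have h1 : (p : ZMod r) ≠ 0 := by
          rw [Ne, ZMod.natCast_eq_zero_iff]
          exact hndvd
        have h2 := ZMod.pow_card_sub_one_eq_one h1
        have h3 : (((p ^ (r - 1) - 1 : ℕ)) : ZMod r) = 0 := by
          rw [Nat.cast_sub hx1.le]
          push_cast
          rw [h2, sub_self]
        exact (ZMod.natCast_eq_zero_iff _ _).1 h3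
      have hrx' : ¬ r ∣ p ^ (r - 1) := fun h => hndvd (hr.dvd_of_dvd_pow h)
      have hd : rep p l ∣ (p ^ (r - 1)) ^ l - 1 := by
        refine (rep_dvd hp.one_lt.le l).trans ?_
        have := Nat.sub_dvd_pow_sub_pow (p ^ l) 1 (r - 1)
        rw [one_pow, ← pow_mul, mul_comm l (r - 1), pow_mul] at this
        exact this
      have hne : (p ^ (r - 1)) ^ l - 1 ≠ 0 := by
        have : 1 < (p ^ (r - 1)) ^ l := Nat.one_lt_pow (by omega) hx1
        omega
      have h1 := (Nat.factorization_le_iff_dvd hN hne).2 hd r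
      rw [Nat.factorization_def ((p ^ (r - 1)) ^ l - 1) hr] at h1
      have h3 := padicValNat.pow_sub_pow hodd hx1 hrx hrx' (n := l) (by omega)
      rw [one_pow] at h3
      have e2 : r ^ padicValNat r (p ^ (r - 1) - 1) ≤ p ^ (r - 1) - 1 :=
        Nat.le_of_dvd (by omega) pow_padicValNat_dvd
      have e3 : r ^ padicValNat r l ≤ l := Nat.le_of_dvd (by omega) pow_padicValNat_dvd
      calc r ^ ((rep p l).factorization r) ≤
            r ^ (padicValNat r (p ^ (r - 1) - 1) + padicValNat r l) :=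
            Nat.pow_le_pow_right (by omega) (by omega)
        _ = r ^ padicValNat r (p ^ (r - 1) - 1) * r ^ padicValNat r l := by rw [pow_add]
        _ ≤ (p ^ (r - 1) - 1) * l := Nat.mul_le_mul e2 e3
        _ ≤ T ^ T * l := by
            refine Nat.mul_le_mul_right _ ?_
            refine (Nat.sub_le _ _).trans ?_
            exact (Nat.pow_le_pow_left hpT _).trans (Nat.pow_le_pow_right (by omega) (by omega))

lemma smooth_le {p l T : ℕ} (hp : p.Prime) (hpT : p ≤ T) (hl : 1 ≤ l)
    (h : ∀ r : ℕ, r.Prime → r ∣ rep p l → r ≤ T) : rep p l ≤ (T ^ T * l) ^ T := by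
  have hN := rep_ne_zero hp hl
  have hT2 : 2 ≤ T := hp.two_le.trans hpT
  have h1 : 1 ≤ T ^ T * l := Nat.succ_le_of_lt (Nat.mul_pos (Nat.pow_pos (by omega)) (by omega))
  have hsub : (rep p l).primeFactors ⊆ Finset.Icc 1 T := by
    intro r hr
    have h2 := Nat.prime_of_mem_primeFactors hr
    exact Finset.mem_Icc.2 ⟨h2.one_lt.le, h r h2 (Nat.dvd_of_mem_primeFactors hr)⟩
  have hcard : (rep p l).primeFactors.card ≤ T := by
    have := Finset.card_le_card hsub
    rwa [Nat.card_Icc, Nat.add_sub_cancel] at this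
  calc rep p l = ∏ r ∈ (rep p l).primeFactors, r ^ (rep p l).factorization r := by
        conv_lhs => rw [← Nat.prod_factorization_pow_eq_self hN]
        rfl
    _ ≤ ∏ r ∈ (rep p l).primeFactors, (T ^ T * l) := by
        refine Finset.prod_le_prod' fun r hr => ?_
        have h2 := Nat.prime_of_mem_primeFactors hr
        exact pow_val_le hp hpT h2 (h r h2 (Nat.dvd_of_mem_primeFactors hr)) hl
    _ = (T ^ T * l) ^ (rep p l).primeFactors.card := by rw [Finset.prod_const]
    _ ≤ (T ^ T * l) ^ T := Nat.pow_le_pow_right h1 hcard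

/-- Repunits with many digits in small bases have large prime factors. -/
theorem exists_large_prime (T : ℕ) : ∃ L : ℕ, ∀ p l : ℕ, p.Prime → p ≤ T → L < l →
    ∃ r : ℕ, r.Prime ∧ T < r ∧ r ∣ rep p l := by
  have h1 := tendsto_pow_const_div_const_pow_of_one_lt T (by norm_num : (1 : ℝ) < 2)
  have hpos : (0 : ℝ) < 1 / (2 * ((T : ℝ) + 1) ^ (T * T)) := by positivity
  obtain ⟨L, hL⟩ := Filter.eventually_atTop.1 (h1.eventually (gt_mem_nhds hpos))
  refine ⟨L, fun p l hp hpT hl => ?_⟩
  by_contra hcon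
  push Not at hcon
  have hl1 : 1 ≤ l := by omega
  have h2 := smooth_le hp hpT hl1 (fun r hr hd => by
    by_contra h
    push Not at h
    exact hcon r hr h hd)
  have h3 : 2 ^ (l - 1) ≤ rep p l := by
    obtain ⟨l', rfl⟩ := Nat.exists_eq_add_of_le' hl1
    rw [Nat.add_sub_cancel]
    exact (Nat.pow_le_pow_left hp.two_le l').trans (pow_le_rep p l')
  have h4 : 2 ^ (l - 1) ≤ (T ^ T * l) ^ T := h3.trans h2
  have h5 : (2 : ℝ) ^ l ≤ 2 * ((T : ℝ) ^ T * l) ^ T := by
    have h6 : (2 : ℝ) ^ (l - 1) ≤ ((T : ℝ) ^ T * l) ^ T := by exact_mod_cast h4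
    obtain ⟨l', rfl⟩ := Nat.exists_eq_add_of_le' hl1
    rw [Nat.add_sub_cancel] at h6
    rw [pow_succ]
    linarith
  have h7 := hL l hl.le
  have h2l : (0 : ℝ) < 2 ^ l := by positivity
  rw [div_lt_div_iff₀ h2l (by positivity)] at h7
  have h8 : ((T : ℝ) ^ T * l) ^ T ≤ ((T : ℝ) + 1) ^ (T * T) * (l : ℝ) ^ T := by
    rw [mul_pow, ← pow_mul]
    refine mul_le_mul_of_nonneg_right ?_ (by positivity)
    exact pow_le_pow_left₀ (Nat.cast_nonneg _) (by linarith) _
  have h9 : (l : ℝ) ^ T * (2 * ((T : ℝ) + 1) ^ (T * T)) =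
      2 * (((T : ℝ) + 1) ^ (T * T) * (l : ℝ) ^ T) := by ring
  rw [h9] at h7
  linarith

end Pool.Agent.H58.MK
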