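import Pool.Agent.H58.MK.Smooth

/-!
# Repunits with many digits: smooth divisors
-/

set_option autoImplicit false

namespace Pool.Agent.H58.MK

open Finset

lemma smooth_dvd_le {p l T d : ℕ} (hp : p.Prime) (hpT : p ≤ T) (hl : 1 ≤ l) (hd : d ∣ rep p l)
    (h : ∀ r : ℕ, r.Prime → r ∣ d → r ≤ T) : d ≤ (T ^ T * l) ^ T := by
  have hN := rep_ne_zero hp hl
  have hd0 : d ≠ 0 := fun h0 => hN (by rw [h0] at hd; exact zero_dvd_iff.1 hd)
  have hT2 : 2 ≤ T := hp.two_le.trans hpT
  have h1 : 1 ≤ T ^ T * l := Nat.succ_le_of_lt (Nat.mul_pos (Nat.pow_pos (by omega)) (by omega))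
  have hsub : d.primeFactors ⊆ Finset.Icc 1 T := by
    intro r hr
    have h2 := Nat.prime_of_mem_primeFactors hr
    exact Finset.mem_Icc.2 ⟨h2.one_lt.le, h r h2 (Nat.dvd_of_mem_primeFactors hr)⟩
  have hcard : d.primeFactors.card ≤ T := by
    have := Finset.card_le_card hsub
    rwa [Nat.card_Icc, Nat.add_sub_cancel] at this
  calc d = ∏ r ∈ d.primeFactors, r ^ d.factorization r := by
        conv_lhs => rw [← Nat.prod_factorization_pow_eq_self hd0]
        rfl
    _ ≤ ∏ r ∈ d.primeFactors, (T ^ T * l) := by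
        refine Finset.prod_le_prod' fun r hr => ?_
        have h2 := Nat.prime_of_mem_primeFactors hr
        refine le_trans ?_ (pow_val_le hp hpT h2 (h r h2 (Nat.dvd_of_mem_primeFactors hr)) hl)
        exact Nat.pow_le_pow_right h2.pos ((Nat.factorization_le_iff_dvd hd0 hN).2 hd r)
    _ = (T ^ T * l) ^ d.primeFactors.card := by rw [Finset.prod_const]
    _ ≤ (T ^ T * l) ^ T := Nat.pow_le_pow_right h1 hcard

/-- The threshold for the number of digits. -/
theorem exists_threshold (T : ℕ) : ∃ L : ℕ, ∀ b : ℕ, L < b → (T ^ T * b ^ 2) ^ T < 2 ^ (b - 1) := by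
  have h1 := tendsto_pow_const_div_const_pow_of_one_lt (2 * T) (by norm_num : (1 : ℝ) < 2)
  have hpos : (0 : ℝ) < 1 / (2 * ((T : ℝ) + 1) ^ (T * T)) := by positivity
  obtain ⟨L, hL⟩ := Filter.eventually_atTop.1 (h1.eventually (gt_mem_nhds hpos))
  refine ⟨L, fun b hb => ?_⟩
  have h7 := hL b hb.le
  have h2l : (0 : ℝ) < 2 ^ b := by positivity
  rw [div_lt_div_iff₀ h2l (by positivity)] at h7
  have h8 : ((T : ℝ) ^ T * (b : ℝ) ^ 2) ^ T ≤ ((T : ℝ) + 1) ^ (T * T) * (b : ℝ) ^ (2 * T) := by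
    rw [mul_pow, ← pow_mul, ← pow_mul]
    refine mul_le_mul_of_nonneg_right ?_ (by positivity)
    exact pow_le_pow_left₀ (Nat.cast_nonneg _) (by linarith) _
  have h9 : (b : ℝ) ^ (2 * T) * (2 * ((T : ℝ) + 1) ^ (T * T)) =
      2 * (((T : ℝ) + 1) ^ (T * T) * (b : ℝ) ^ (2 * T)) := by ring
  rw [h9] at h7
  have h10 : (2 : ℝ) ^ b = 2 * 2 ^ (b - 1) := by
    obtain ⟨b', rfl⟩ := Nat.exists_eq_add_of_le' (by omega : 1 ≤ b)
    rw [Nat.add_sub_cancel, pow_succ]
    ring
  have h11 : ((T : ℝ) ^ T * (b : ℝ) ^ 2) ^ T < 2 ^ (b - 1) := by linarith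
  exact_mod_cast h11

lemma two_pow_le_rep {p l : ℕ} (hp : p.Prime) (hl : 1 ≤ l) : 2 ^ (l - 1) ≤ rep p l := by
  obtain ⟨l', rfl⟩ := Nat.exists_eq_add_of_le' hl
  rw [Nat.add_sub_cancel]
  exact (Nat.pow_le_pow_left hp.two_le l').trans (pow_le_rep p l')

/-- Repunits with many digits have large prime factors. -/
theorem large_prime {p l T L : ℕ} (hp : p.Prime) (hpT : p ≤ T)
    (hL : ∀ b : ℕ, L < b → (T ^ T * b ^ 2) ^ T < 2 ^ (b - 1)) (hl : L < l) :
    ∃ r : ℕ, r.Prime ∧ T < r ∧ r ∣ rep p l := by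
  by_contra hcon
  push Not at hcon
  have hl1 : 1 ≤ l := by omega
  have h2 := smooth_dvd_le hp hpT hl1 (dvd_refl _) (fun r hr hd => by
    by_contra h
    push Not at h
    exact hcon r hr h hd)
  have h3 := two_pow_le_rep hp hl1
  have h4 := hL l hl
  have h5 : (T ^ T * l) ^ T ≤ (T ^ T * l ^ 2) ^ T :=
    Nat.pow_le_pow_left (Nat.mul_le_mul_left _ (Nat.le_self_pow (by norm_num) _)) _
  omega

/-- Prime factors of a repunit with a prime number of digits. -/
theorem le_of_dvd_rep {p l u : ℕ} (hp : p.Prime) (hlp : l.Prime) (hr : u.Prime)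
    (hrN : u ∣ rep p l) : l ≤ u := by
  by_contra hrl
  push Not at hrl
  have : Fact u.Prime := ⟨hr⟩
  have hl1 := hlp.one_lt
  have hp0 : (p : ZMod u) ≠ 0 := by
    intro h0
    rw [ZMod.natCast_eq_zero_iff] at h0
    obtain ⟨l', rfl⟩ := Nat.exists_eq_add_of_le' (by omega : 1 ≤ l)
    have := Nat.dvd_gcd h0 hrN
    rw [rep_coprime p l'] at this
    exact hr.one_lt.ne' (Nat.dvd_one.1 this)
  have e1 : (p : ZMod u) ^ l = 1 := by
    have h1 := rep_mul hp.one_lt.le l
    have h2 : ((rep p l : ℕ) : ZMod u) = 0 := (ZMod.natCast_eq_zero_iff _ _).2 hrN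
    have h3 := congrArg (fun x : ℕ => (x : ZMod u)) h1
    simp only [Nat.cast_add, Nat.cast_mul, h2, mul_zero, zero_add, Nat.cast_one,
      Nat.cast_pow] at h3
    exact h3.symm
  have e2 : (p : ZMod u) ^ (u - 1) = 1 := ZMod.pow_card_sub_one_eq_one hp0
  have e3 : (p : ZMod u) = 1 := by
    have h1 : (p : ZMod u) ^ (Nat.gcd l (u - 1)) = 1 := pow_gcd_eq_one.2 ⟨e1, e2⟩
    have h2 : Nat.gcd l (u - 1) = 1 := by
      refine (Nat.Prime.coprime_iff_not_dvd hlp).2 fun h3 => ?_
      have := Nat.le_of_dvd (by have := hr.two_le; omega) h3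
      omega
    rwa [h2, pow_one] at h1
  have e4 : ((rep p l : ℕ) : ZMod u) = (l : ZMod u) := by
    rw [rep]
    push_cast
    rw [e3]
    simp
  rw [(ZMod.natCast_eq_zero_iff _ _).2 hrN] at e4
  have e5 : u ∣ l := (ZMod.natCast_eq_zero_iff _ _).1 e4.symm
  rcases (Nat.dvd_prime hlp).1 e5 with h1 | h1
  · exact hr.one_lt.ne' h1
  · omega

/-- A repunit which is a prime power up to a smooth factor. -/
theorem rep_prime_pow {p l s r a T L : ℕ} (hp : p.Prime) (hpT : p ≤ T)
    (hL : ∀ b : ℕ, L < b → (T ^ T * b ^ 2) ^ T < 2 ^ (b - 1)) (hr : r.Prime)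
    (h : rep p l = s * r ^ a) (hs : ∀ u : ℕ, u.Prime → u ∣ s → u ≤ T) (hl : (L + 1) ^ 2 < l)
    (hTl : T < l) (hlr : l < r) : l.Prime ∧ s = 1 := by
  have hT2 : 2 ≤ T := hp.two_le.trans hpT
  have hl2 : 2 ≤ l := by nlinarith
  have hlp : l.Prime := by
    by_contra hn
    set c := l.minFac with hc
    obtain ⟨b, hb⟩ := Nat.minFac_dvd l
    have hc2 : 2 ≤ c := (Nat.minFac_prime (by omega)).two_le
    have hcb : c ^ 2 ≤ l := Nat.minFac_sq_le_self (by omega) hn
    rw [← hc] at hb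
    have hle : c ≤ b := by
      by_contra hcon
      push Not at hcon
      have : c * b < c * c := Nat.mul_lt_mul_of_pos_left hcon (by omega)
      nlinarith
    have hbL : L < b := by
      by_contra hcon
      push Not at hcon
      have : c * b ≤ L * L := Nat.mul_le_mul (hle.trans hcon) hcon
      nlinarith
    have hlb : l ≤ b ^ 2 := by
      rw [hb, pow_two]
      exact Nat.mul_le_mul_right _ hle
    have hbound : (T ^ T * l) ^ T < 2 ^ (b - 1) := by
      refine lt_of_le_of_lt ?_ (hL b hbL)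
      exact Nat.pow_le_pow_left (Nat.mul_le_mul_left _ hlb) _
    have hb1 : 1 ≤ b := by omega
    have hprod : rep p l = rep p b * rep (p ^ b) c := by
      conv_lhs => rw [hb]
      rw [rep_prod]
    by_cases hrb : r ∣ rep p b
    · -- then the other factor is smooth
      have hnd : ¬ r ∣ rep (p ^ b) c := by
        intro h2
        have e1 : ((p ^ b : ℕ) : ZMod r) = 1 := by
          have h1 := rep_mul hp.one_lt.le b
          have h3 : ((rep p b : ℕ) : ZMod r) = 0 := (ZMod.natCast_eq_zero_iff _ _).2 hrb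
          have h4 := congrArg (fun x : ℕ => (x : ZMod r)) h1
          simp only [Nat.cast_add, Nat.cast_mul, h3, mul_zero, zero_add, Nat.cast_one] at h4
          exact h4.symm
        have e4 : ((rep (p ^ b) c : ℕ) : ZMod r) = (c : ZMod r) := by
          rw [rep]
          simp only [Nat.cast_sum, Nat.cast_pow] at e1 ⊢
          rw [e1]
          simp
        rw [(ZMod.natCast_eq_zero_iff _ _).2 h2] at e4
        have e5 : r ∣ c := (ZMod.natCast_eq_zero_iff _ _).1 e4.symm
        have := Nat.le_of_dvd (by omega) e5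
        have : c ≤ l := Nat.minFac_le (by omega)
        omega
      have hcop : Nat.Coprime (rep (p ^ b) c) (r ^ a) :=
        (Nat.Coprime.pow_right a ((Nat.Prime.coprime_iff_not_dvd hr).2 hnd).symm)
      have hds : rep (p ^ b) c ∣ s := by
        refine hcop.dvd_of_dvd_mul_right ?_
        rw [← h, hprod]
        exact dvd_mul_left _ _
      have h6 := smooth_dvd_le hp hpT (by omega : 1 ≤ l) (d := rep (p ^ b) c)
        (by rw [hprod]; exact dvd_mul_left _ _) (fun u hu hd => hs u hu (hd.trans hds))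
      have h7 : 2 ^ (b - 1) ≤ rep (p ^ b) c := by
        obtain ⟨c', hc'⟩ := Nat.exists_eq_add_of_le' hc2
        rw [hc']
        have e1 : (p ^ b) ^ 1 ≤ (p ^ b) ^ (c' + 1) :=
          Nat.pow_le_pow_right (Nat.pow_pos hp.pos) (by omega)
        have e2 := pow_le_rep (p ^ b) (c' + 1)
        have e3 : 2 ^ (b - 1) ≤ p ^ b :=
          (Nat.pow_le_pow_left hp.two_le _).trans (Nat.pow_le_pow_right hp.pos (by omega))
        rw [pow_one] at e1
        have e4 : c' + 1 + 1 = c' + 2 := rfl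
        rw [e4] at e2
        omega
      omega
    · have hcop : Nat.Coprime (rep p b) (r ^ a) :=
        (Nat.Coprime.pow_right a ((Nat.Prime.coprime_iff_not_dvd hr).2 hrb).symm)
      have hds : rep p b ∣ s := by
        refine hcop.dvd_of_dvd_mul_right ?_
        rw [← h, hprod]
        exact dvd_mul_right _ _
      have h6 := smooth_dvd_le hp hpT (by omega : 1 ≤ l) (d := rep p b)
        (by rw [hprod]; exact dvd_mul_right _ _) (fun u hu hd => hs u hu (hd.trans hds))
      have h7 := two_pow_le_rep hp hb1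
      omega
  refine ⟨hlp, ?_⟩
  by_contra hs1
  obtain ⟨u, hu, hus⟩ := Nat.exists_prime_and_dvd hs1
  have h1 := hs u hu hus
  have h2 : u ∣ rep p l := by
    rw [h]
    exact hus.mul_right _
  have h3 := le_of_dvd_rep hp hlp hu h2
  omega

/-- The square of a Mersenne prime is not a repunit with many digits in a small odd base. -/
theorem rep_ne_sq {p l e T L : ℕ} (hp : p.Prime) (hpT : p ≤ T) (hp2 : p ≠ 2)
    (hL : ∀ b : ℕ, L < b → (T ^ T * b ^ 2) ^ T < 2 ^ (b - 1)) (hl : 2 * L + 6 < l)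
    (h : rep p l = rep 2 e ^ 2) : False := by
  have hT2 : 2 ≤ T := hp.two_le.trans hpT
  obtain ⟨l', rfl⟩ := Nat.exists_eq_add_of_le' (by omega : 1 ≤ l)
  have h1 := two_pow_le_rep hp (by omega : 1 ≤ l' + 1)
  rw [Nat.add_sub_cancel] at h1
  have he : rep 2 e + 1 = 2 ^ e := by
    have := rep_mul (by norm_num : 1 ≤ 2) e
    omega
  have h2 : 2 ^ l' < 2 ^ (2 * e) := by
    have h3 : rep 2 e ^ 2 < (2 ^ e) ^ 2 := Nat.pow_lt_pow_left (by omega) (by norm_num)
    rw [← pow_mul, mul_comm e 2] at h3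
    omega
  have h3 : l' < 2 * e := (Nat.pow_lt_pow_iff_right (by norm_num)).1 h2
  have he1 : 1 ≤ e := by omega
  -- divisibility by `2 ^ (e + 1)`
  have h4 : 2 ^ (e + 1) ∣ rep p l' := by
    have h5 : p * rep p l' = 2 ^ (e + 1) * (2 ^ (e - 1) - 1) := by
      obtain ⟨e', rfl⟩ := Nat.exists_eq_add_of_le' he1
      rw [rep_succ'] at h
      rw [Nat.add_sub_cancel]
      have h6 : 1 ≤ 2 ^ e' := Nat.one_le_two_pow
      obtain ⟨t, ht⟩ := Nat.exists_eq_add_of_le' h6
      have h7 : rep 2 (e' + 1) = 2 * t + 1 := by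
        rw [pow_succ, ht] at he
        omega
      rw [h7] at h
      have h8 : 2 ^ (e' + 1 + 1) * (2 ^ e' - 1) = 4 * (t + 1) * t := by
        rw [pow_succ, pow_succ, ht, Nat.add_sub_cancel]
        ring
      rw [h8]
      nlinarith
    have h6 : Nat.Coprime (2 ^ (e + 1)) p := by
      refine Nat.Coprime.pow_left _ ?_
      exact (Nat.coprime_primes Nat.prime_two hp).2 (Ne.symm hp2)
    refine h6.dvd_of_dvd_mul_left ?_
    rw [h5]
    exact dvd_mul_right _ _
  have hl1 : 1 ≤ l' := by omega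
  have hN := rep_ne_zero hp hl1
  have h7 : 2 ^ (e + 1) ≤ T ^ T * l' := by
    refine le_trans ?_ (pow_val_le hp hpT Nat.prime_two hT2 hl1)
    refine Nat.pow_le_pow_right (by norm_num) ?_
    exact (Nat.prime_two.pow_dvd_iff_le_factorization hN).1 h4
  obtain ⟨b, hb⟩ : ∃ b, b = l' / 2 := ⟨_, rfl⟩
  have hbL : L < b := by omega
  have hb2 : 3 ≤ b := by omega
  have h8 := hL b hbL
  have h9 : 2 ^ (b - 1) ≤ 2 ^ (e + 1) := Nat.pow_le_pow_right (by norm_num) (by omega)
  have h10 : T ^ T * l' ≤ (T ^ T * b ^ 2) ^ T := by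
    have h11 : l' ≤ b ^ 2 := by
      have : l' ≤ 2 * b + 1 := by omega
      nlinarith
    exact (Nat.mul_le_mul_left _ h11).trans (Nat.le_self_pow (by omega) _)
  omega

end Pool.Agent.H58.MK
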