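import Pool.Agent.H58.MK.Scale

/-!
# The structure of `(m,k)`-perfect numbers with few prime factors
-/

set_option autoImplicit false

namespace Pool.Agent.H58.MK

open Finset

theorem structure_thm (m K : ℕ) (hm : 1 ≤ m) (β : ℕ → ℕ) : ∃ C : ℕ, ∀ n : ℕ, C < n →
    n ∣ it m n → (∀ j < m, (it j n).primeFactors.card ≤ K) →
    ∃ T ≤ C, ∃ j p l, Occ m n T (β T) j p l ∧ (p = 2 ∨ ∃ p' l', p' ≠ p ∧
      Occ m n T (β T) j p' l' ∧ rep p' l' = rep p l) := by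
  classical
  choose L hL using exists_large_prime
  obtain ⟨M, hM⟩ : ∃ M : ℕ, M = m * K + 1 := ⟨_, rfl⟩
  have hM1 : 1 ≤ M := by omega
  obtain ⟨E, hE⟩ : ∃ E : ℕ → ℕ, E = fun T => L T + (8 * M ^ 2 + 2) ^ 2 + β T + 1 := ⟨_, rfl⟩
  obtain ⟨W, hW⟩ : ∃ W : ℕ → ℕ, W = fun T => M * (2 * T) ^ M + 4 * M + T ^ E T + T + 1 :=
    ⟨_, rfl⟩
  obtain ⟨t, ht0, hts⟩ : ∃ t : ℕ → ℕ, t 0 = 2 ^ M ∧ ∀ i, t (i + 1) = W (t i) :=
    ⟨fun i => Nat.rec (2 ^ M) (fun _ x => W x) i, rfl, fun i => rfl⟩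
  have hmono : Monotone t := by
    refine monotone_nat_of_le_succ fun i => ?_
    rw [hts, hW]
    show t i ≤ M * (2 * t i) ^ M + 4 * M + t i ^ E (t i) + t i + 1
    omega
  have htT : ∀ i, 2 ^ M ≤ t i := fun i => by
    rw [← ht0]
    exact hmono (Nat.zero_le i)
  have ht1 : ∀ i, 1 ≤ t i := fun i => (Nat.one_le_two_pow).trans (htT i)
  refine ⟨t (2 * M) ^ (K + 1), fun n hn hdvd hω => ?_⟩
  have hn0 : 0 < n := lt_of_le_of_lt (Nat.zero_le _) hn
  obtain ⟨k, hk⟩ := hdvd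
  rw [mul_comm] at hk
  have hI : (IX m n).card ≤ M := (card_IX hω).trans (by omega)
  obtain ⟨i, hi, hgap⟩ := gap ((IX m n).image (fun i => i.2) ∪
    (IX m n).image (fun i => i.2 ^ ex n i)) (2 * M) (by
      refine (Finset.card_union_le _ _).trans ?_
      have h1 := Finset.card_image_le (s := IX m n) (f := fun i : Σ _ : ℕ, ℕ => i.2)
      have h2 := Finset.card_image_le (s := IX m n) (f := fun i : Σ _ : ℕ, ℕ => i.2 ^ ex n i)
      omega) t hmono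
  have hTle : t i ≤ t (2 * M) := hmono hi
  have hTC : t i ≤ t (2 * M) ^ (K + 1) :=
    hTle.trans (Nat.le_self_pow (by omega) _)
  refine ⟨t i, hTC, ?_⟩
  have hWi : W (t i) = M * (2 * t i) ^ M + 4 * M + t i ^ E (t i) + t i + 1 := by rw [hW]
  refine scale (K := K) (M := M) (W := W (t i)) (L := L (t i)) (k := k) hm (by omega) hM1 hn0 hω
    hk (htT i) ?_ ?_ (fun p l hp hpT hl => hL (t i) p l hp hpT hl) ?_ ?_ ?_ ?_
  · rw [hWi]
    omega
  · rw [hWi]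
    omega
  · intro p e hp hpT hlt
    have hEe : E (t i) < e := by
      by_contra hcon
      push Not at hcon
      have h1 : p ^ e ≤ t i ^ E (t i) :=
        (Nat.pow_le_pow_left hpT e).trans (Nat.pow_le_pow_right (ht1 i) hcon)
      rw [hWi] at hlt
      omega
    have hEi : E (t i) = L (t i) + (8 * M ^ 2 + 2) ^ 2 + β (t i) + 1 := by rw [hE]
    rw [hEi] at hEe
    refine ⟨by omega, by omega, by omega⟩
  · intro x hx
    rw [← hts]
    exact hgap _ (Finset.mem_union_right _ (Finset.mem_image_of_mem _ hx))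
  · intro x hx
    rw [← hts]
    exact hgap _ (Finset.mem_union_left _ (Finset.mem_image_of_mem _ hx))
  · refine lt_of_le_of_lt ?_ hn
    exact (Nat.pow_le_pow_left hTle K).trans (Nat.pow_le_pow_right (ht1 _) (by omega))

lemma le_rep {p l : ℕ} (hp : p.Prime) : l ≤ rep p l := by
  rcases Nat.eq_zero_or_pos l with h | h
  · rw [h]
    exact Nat.zero_le _
  · obtain ⟨l', rfl⟩ := Nat.exists_eq_add_of_le' h
    refine le_trans ?_ (pow_le_rep p l')
    exact Nat.lt_pow_self hp.one_lt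

/-- Bounded exponents. -/
theorem finite_of_bounded (m K E : ℕ) (hm : 1 ≤ m) :
    {n : ℕ | 0 < n ∧ n ∣ it m n ∧ (∀ j < m, (it j n).primeFactors.card ≤ K) ∧
      ∀ j < m, ∀ p : ℕ, p.Prime → ¬ p ^ E ∣ it j n}.Finite := by
  obtain ⟨C, hC⟩ := structure_thm m K hm (fun _ => E)
  refine (Set.finite_Iic C).subset ?_
  rintro n ⟨h0, h1, h2, h3⟩
  by_contra hcon
  have hcon' : C < n := by simpa using hcon
  obtain ⟨T, _, j, p, l, ⟨g1, g2, g3, g4, g5, g6, g7, g8⟩, _⟩ := hC n hcon' h1 h2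
  refine h3 j g1 p g2 ?_
  refine (Nat.pow_dvd_pow p (show E ≤ (it j n).factorization p by omega)).trans ?_
  exact Nat.ordProj_dvd _ _

/-- The dichotomy. -/
theorem mersenne_or (m K : ℕ) (hm : 1 ≤ m)
    (hinf : {n : ℕ | 0 < n ∧ n ∣ it m n ∧ ∀ j < m, (it j n).primeFactors.card ≤ K}.Infinite) :
    {l : ℕ | l.Prime ∧ (2 ^ l - 1).Prime}.Infinite ∨ ∃ p p' : ℕ, p.Prime ∧ p'.Prime ∧ p ≠ p' ∧
      {P : ℕ | P.Prime ∧ ∃ l l' : ℕ, l.Prime ∧ l'.Prime ∧ P = rep p l ∧ P = rep p' l'}.Infinite := by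
  by_contra hcon
  push Not at hcon
  obtain ⟨hA, hB⟩ := hcon
  obtain ⟨B0, hB0⟩ := hA.bddAbove
  have hD : ∀ p p' : ℕ, ∃ D : ℕ, p.Prime → p'.Prime → p ≠ p' → ∀ l l' : ℕ, l.Prime → l'.Prime →
      (rep p l).Prime → rep p l = rep p' l' → rep p l ≤ D := by
    intro p p'
    by_cases h : p.Prime ∧ p'.Prime ∧ p ≠ p'
    · obtain ⟨D, hD⟩ := (hB p p' h.1 h.2.1 h.2.2).bddAbove
      exact ⟨D, fun _ _ _ l l' hl hl' hP he => hD ⟨hP, l, l', hl, hl', rfl, he⟩⟩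
    · exact ⟨0, fun h1 h2 h3 => absurd ⟨h1, h2, h3⟩ h⟩
  choose D hD using hD
  obtain ⟨β, hβ⟩ : ∃ β : ℕ → ℕ, β = fun T => B0 + ∑ p ∈ Finset.range (T + 1),
    ∑ p' ∈ Finset.range (T + 1), D p p' := ⟨_, rfl⟩
  have hβ1 : ∀ T, B0 ≤ β T := fun T => by
    rw [hβ]
    exact Nat.le_add_right _ _
  have hβ2 : ∀ T p p', p ≤ T → p' ≤ T → D p p' ≤ β T := by
    intro T p p' h1 h2
    have e1 : D p p' ≤ ∑ p' ∈ Finset.range (T + 1), D p p' :=
      Finset.single_le_sum (f := fun p' => D p p') (fun _ _ => Nat.zero_le _)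
        (Finset.mem_range.2 (by omega))
    have e2 : ∑ p' ∈ Finset.range (T + 1), D p p' ≤ ∑ p ∈ Finset.range (T + 1),
        ∑ p' ∈ Finset.range (T + 1), D p p' :=
      Finset.single_le_sum (f := fun p => ∑ p' ∈ Finset.range (T + 1), D p p')
        (fun _ _ => Nat.zero_le _) (Finset.mem_range.2 (by omega))
    rw [hβ]
    show D p p' ≤ B0 + _
    omega
  obtain ⟨C, hC⟩ := structure_thm m K hm β
  refine hinf ((Set.finite_Iic C).subset ?_)
  rintro n ⟨h0, h1, h2⟩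
  by_contra hcon2
  have hcon' : C < n := by simpa using hcon2
  obtain ⟨T, _, j, p, l, ⟨g1, g2, g3, g4, g5, g6, g7, g8⟩, hor⟩ := hC n hcon' h1 h2
  rcases hor with hp | ⟨p', l', hne, ⟨k1, k2, k3, k4, k5, k6, k7, k8⟩, he⟩
  · subst hp
    have h3 : rep 2 l = 2 ^ l - 1 := by
      have := rep_mul (by norm_num : 1 ≤ 2) l
      omega
    rw [h3] at g7
    have := hB0 (a := l) ⟨g4, g7⟩
    have := hβ1 T
    omega
  · have h3 := hD p p' g2 k2 hne.symm l l' g4 k4 g7 he.symm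
    have h4 := hβ2 T p p' g3 k3
    have h5 := le_rep (l := l) g2
    omega

end Pool.Agent.H58.MK
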